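import Pool.Agent.OTR.Defs

/-!
# [OTR-S6] the finite Ramsey theorem for h-element subsets (finitely many colours)

PROOF (the usual one). Induction on `h`.
`h = 0`: `M = s`; all `σ` with `σ.card = 0` are `∅`.
Step `h → h + 1`: let `N₁ = s * (number of colours) + 1` or so: we want a sequence
`x₁ < … < x_{N₁}` of elements of `Z` such that for `i₁ < … < i_{h+1}` the colour of
`{x_{i₁}, …, x_{i_{h+1}}}` depends only on `i₁`; then by the pigeonhole principle `s` of the `x_i`
have the same colour, and they form `Z'`. The sequence is found greedily: keep a set `Y ⊆ Z` of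
candidates larger than all chosen elements; let `x = min Y`; apply the induction hypothesis
(for `h`, with a large `s'`) to `Y \ {x}` and the colouring `σ ↦ col (insert x σ)`: there is
`Y' ⊆ Y \ {x}` with `Y'.card = s'` on whose `h`-subsets this colouring is constant; continue with
`Y'`. A convenient formulation for the induction (on `t`): for all `t` there is `M` such that for all
`Z` with `M ≤ Z.card` and all `col` there are `X ⊆ Z` with `X.card = t` and `g : ℕ → κ` such that for
all `x ∈ X` and all `σ ⊆ X` with `σ.card = h` and `∀ y ∈ σ, x < y`: `col (insert x σ) = g x`.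
(An elementary alternative proof is fine too.)
-/

namespace Pool.Agent.OTR

open Finset

theorem s6_step (κ : Type) (h : ℕ)
    (ih : ∀ s : ℕ, ∃ M : ℕ, ∀ Z : Finset ℕ, M ≤ Z.card → ∀ col : Finset ℕ → κ,
      ∃ Z' ⊆ Z, Z'.card = s ∧ ∃ k : κ, ∀ σ ⊆ Z', σ.card = h → col σ = k) [Nonempty κ] (t : ℕ) :
    ∃ M : ℕ, ∀ Z : Finset ℕ, M ≤ Z.card → ∀ col : Finset ℕ → κ, ∃ X ⊆ Z, X.card = t ∧
      ∃ g : ℕ → κ, ∀ x ∈ X, ∀ σ ⊆ X, σ.card = h → (∀ y ∈ σ, x < y) → col (insert x σ) = g x := by
  classical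
  induction t with
  | zero =>
    refine ⟨0, fun Z _ col => ⟨∅, Finset.empty_subset _, rfl, fun _ => Classical.arbitrary κ, ?_⟩⟩
    intro x hx
    exact absurd hx (Finset.notMem_empty x)
  | succ t iht =>
    obtain ⟨M, hM⟩ := iht
    obtain ⟨M', hM'⟩ := ih M
    refine ⟨M' + 1, fun Z hZ col => ?_⟩
    have hne : Z.Nonempty := Finset.card_pos.1 (by omega)
    obtain ⟨x, hx⟩ : ∃ x, x = Z.min' hne := ⟨_, rfl⟩
    have hxZ : x ∈ Z := by rw [hx]; exact Z.min'_mem hne
    have hmin : ∀ y ∈ Z, x ≤ y := fun y hy => by rw [hx]; exact Z.min'_le y hy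
    obtain ⟨Y, hYZ, hYc, k, hk⟩ := hM' (Z.erase x)
      (by rw [Finset.card_erase_of_mem hxZ]; omega) (fun σ => col (insert x σ))
    obtain ⟨X, hXY, hXc, g, hg⟩ := hM Y (by omega) col
    have hXZ : ∀ y ∈ X, y ∈ Z ∧ y ≠ x := by
      intro y hy
      have h1 := Finset.mem_erase.1 (hYZ (hXY hy))
      exact ⟨h1.2, h1.1⟩
    have hxX : x ∉ X := fun h1 => (hXZ x h1).2 rfl
    have hlt : ∀ y ∈ X, x < y := fun y hy => lt_of_le_of_ne (hmin y (hXZ y hy).1)
      (fun h1 => (hXZ y hy).2 h1.symm)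
    refine ⟨insert x X, ?_, by rw [Finset.card_insert_of_notMem hxX, hXc],
      Function.update g x k, ?_⟩
    · intro y hy
      rcases Finset.mem_insert.1 hy with rfl | hy
      · exact hxZ
      · exact (hXZ y hy).1
    · intro x' hx' σ hσ hσc hσl
      have hσX : x ≤ x' → σ ⊆ X := by
        intro hle y hy
        rcases Finset.mem_insert.1 (hσ hy) with rfl | hy'
        · exact absurd (hσl y hy) (by omega)
        · exact hy'
      rcases Finset.mem_insert.1 hx' with h1 | hx'
      · rw [h1, Function.update_self]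
        rw [h1] at hσX
        exact hk σ ((hσX le_rfl).trans hXY) hσc
      · have hne' : x' ≠ x := fun h1 => hxX (h1 ▸ hx')
        rw [Function.update_of_ne hne']
        exact hg x' hx' σ (hσX (hlt x' hx').le) hσc hσl

theorem ramsey_finset (κ : Type) [Finite κ] [Nonempty κ] (h s : ℕ) : ∃ M : ℕ, ∀ Z : Finset ℕ,
    M ≤ Z.card → ∀ col : Finset ℕ → κ, ∃ Z' ⊆ Z, Z'.card = s ∧ ∃ k : κ,
      ∀ σ ⊆ Z', σ.card = h → col σ = k := by
  classical
  induction h generalizing s with
  | zero =>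
    refine ⟨s, fun Z hZ col => ?_⟩
    obtain ⟨Z', hZ', hc⟩ := Finset.exists_subset_card_eq hZ
    refine ⟨Z', hZ', hc, col ∅, fun σ _ hσ => ?_⟩
    rw [Finset.card_eq_zero.1 hσ]
  | succ h ih =>
    have hfin : Fintype κ := Fintype.ofFinite κ
    obtain ⟨M, hM⟩ := s6_step κ h ih (Fintype.card κ * s)
    refine ⟨M, fun Z hZ col => ?_⟩
    obtain ⟨X, hXZ, hXc, g, hg⟩ := hM Z hZ col
    obtain ⟨k, -, hk⟩ := Finset.exists_le_card_fiber_of_mul_le_card_of_maps_to
      (s := X) (t := (Finset.univ : Finset κ)) (f := g) (n := s) (fun a _ => Finset.mem_univ _)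
      Finset.univ_nonempty (by rw [Finset.card_univ, hXc])
    obtain ⟨Z', hZ', hc⟩ := Finset.exists_subset_card_eq hk
    refine ⟨Z', (hZ'.trans (Finset.filter_subset _ _)).trans hXZ, hc, k, fun σ hσ hσc => ?_⟩
    have hne : σ.Nonempty := Finset.card_pos.1 (by omega)
    have hmem := σ.min'_mem hne
    obtain ⟨x, hx⟩ : ∃ x, x = σ.min' hne := ⟨_, rfl⟩
    rw [← hx] at hmem
    have hxX := Finset.mem_filter.1 (hZ' (hσ hmem))
    have h1 := hg x hxX.1 (σ.erase x)
      (fun y hy => (Finset.mem_filter.1 (hZ' (hσ (Finset.mem_of_mem_erase hy)))).1)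
      (by rw [Finset.card_erase_of_mem hmem, hσc]; rfl)
      (fun y hy => by
        have h2 := Finset.mem_erase.1 hy
        have h3 : x ≤ y := by rw [hx]; exact σ.min'_le y h2.2
        exact lt_of_le_of_ne h3 (fun h4 => h2.1 h4.symm))
    rw [Finset.insert_erase hmem] at h1
    rw [h1, hxX.2]

end Pool.Agent.OTR
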