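import Mathlib

/-!
# Ordered Turan numbers: basic definitions

Zero-one matrices are finite sets `A : Finset (ℕ × ℕ)` (pairs (row, column)); the side length is a
power of two, `2 ^ L`.  The binary *levels* of a column `w` that are visible from a set `T` of
columns are the scales `l` at which `T` has an element in the sibling of the dyadic block of
length `2 ^ l` that contains `w`.
-/

namespace Pool.Agent.OTR

open Finset

/-- Ordered containment: the ordered graph `G` on `Fin n` contains the ordered graph `P` on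
`Fin k`. -/
def OContains {k n : ℕ} (P : SimpleGraph (Fin k)) (G : SimpleGraph (Fin n)) : Prop :=
  ∃ f : Fin k → Fin n, StrictMono f ∧ ∀ a b, P.Adj a b → G.Adj (f a) (f b)

/-- `ex_<(P, n)`: the largest number of edges of an ordered graph on `n` vertices that does not
contain `P`. -/
noncomputable def exLt {k : ℕ} (P : SimpleGraph (Fin k)) (n : ℕ) : ℕ :=
  sSup {m | ∃ G : SimpleGraph (Fin n), ¬ OContains P G ∧ G.edgeSet.ncard = m}

/-- A pattern `Q` (a zero-one matrix given as a relation) is contained in the matrix `A`; the rows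
and columns of `A` that are used are required to be nonempty. -/
def MContains {a b : ℕ} (Q : Fin a → Fin b → Prop) (A : Finset (ℕ × ℕ)) : Prop :=
  ∃ f : Fin a → ℕ, ∃ g : Fin b → ℕ, StrictMono f ∧ StrictMono g ∧
    (∀ i, ∃ w, (f i, w) ∈ A) ∧ (∀ j, ∃ u, (u, g j) ∈ A) ∧ ∀ i j, Q i j → (f i, g j) ∈ A

/-- The columns `< N` that meet all rows of `σ`. -/
def ncol (A : Finset (ℕ × ℕ)) (N : ℕ) (σ : Finset ℕ) : Finset ℕ :=
  (range N).filter (fun w => ∀ u ∈ σ, (u, w) ∈ A)

/-- The rows `< N` that meet all columns of `τ`. -/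
def nrow (A : Finset (ℕ × ℕ)) (N : ℕ) (τ : Finset ℕ) : Finset ℕ :=
  (range N).filter (fun u => ∀ w ∈ τ, (u, w) ∈ A)

/-- The levels at which `w` is a left child and `T` has an element in the right sibling block. -/
def visR (L : ℕ) (T : Finset ℕ) (w : ℕ) : Finset ℕ :=
  (range L).filter (fun l => w / 2 ^ l % 2 = 0 ∧ ∃ y ∈ T, y / 2 ^ l = w / 2 ^ l + 1)

/-- The levels at which `w` is a right child and `T` has an element in the left sibling block. -/
def visL (L : ℕ) (T : Finset ℕ) (w : ℕ) : Finset ℕ :=
  (range L).filter (fun l => w / 2 ^ l % 2 = 1 ∧ ∃ y ∈ T, y / 2 ^ l + 1 = w / 2 ^ l)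

/-- The levels of `visR` for which the sibling block lies completely to the left of `w'`. -/
def gapR (L : ℕ) (T : Finset ℕ) (w w' : ℕ) : Finset ℕ :=
  (visR L T w).filter (fun l => w / 2 ^ (l + 1) < w' / 2 ^ (l + 1))

/-- The number of subsets of `{0, …, L-1}` with at most `K` elements. -/
def BB (L K : ℕ) : ℕ := ((range L).powerset.filter (fun S => S.card ≤ K)).card

/-- The power sums `∑_π |ncol π| ^ j` over all `h`-tuples `π` of rows. -/
def SS (A : Finset (ℕ × ℕ)) (L h j : ℕ) : ℕ :=
  ∑ π ∈ Fintype.piFinset (fun _ : Fin h => range (2 ^ L)),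
    (ncol A (2 ^ L) (univ.image π)).card ^ j

/-- The number of elements of `E` that are smaller than `j`. -/
def gapIdx {b : ℕ} (E : Finset (Fin b)) (j : Fin b) : ℕ := (E.filter (fun e => e < j)).card

/-- All the gaps of the set `τ` of columns are seen by `T` on more than `K` levels. -/
structure GoodT (L K : ℕ) (T τ : Finset ℕ) : Prop where
  right : ∀ w ∈ τ, K < (visR L T w).card
  left : ∀ w ∈ τ, K < (visL L T w).card
  gap : ∀ w ∈ τ, ∀ w' ∈ τ, w < w' → K < (gapR L T w w').card

end Pool.Agent.OTR
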