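import Pool.Agent.OTR.P1

/-!
# The embedding of the pattern

`Z` is a set of `a + h` rows meeting all columns of the `h`-set `W`; all `h`-subsets `σ` of `Z` see all
gaps of `W` on more than `K ≥ b q` levels, and the sets of blocks (of length `q`) of levels seen are the
same for all `σ`.  Then every pattern with at most `h` exceptional columns embeds.
-/

namespace Pool.Agent.OTR

open Finset

/-- The `i`-th smallest element of `W` (`0` if there is none). -/
noncomputable def enumW (W : Finset ℕ) (i : ℕ) : ℕ :=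
  if hi : i < W.card then W.orderEmbOfFin rfl ⟨i, hi⟩ else 0

theorem enumW_mem (W : Finset ℕ) {i : ℕ} (hi : i < W.card) : enumW W i ∈ W := by
  rw [enumW, dif_pos hi]
  exact Finset.orderEmbOfFin_mem W rfl _

theorem enumW_lt (W : Finset ℕ) {i j : ℕ} (hij : i < j) (hj : j < W.card) :
    enumW W i < enumW W j := by
  rw [enumW, enumW, dif_pos (hij.trans hj), dif_pos hj]
  exact (W.orderEmbOfFin rfl).strictMono (by exact hij)

/-- The levels used in the gap `g` of the columns `w 0 < … < w (k-1)`. -/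
def lev (L : ℕ) (T : Finset ℕ) (w : ℕ → ℕ) (k g : ℕ) : Finset ℕ :=
  if g = 0 then visL L T (w 0) else
    if g < k then gapR L T (w (g - 1)) (w g) else visR L T (w (g - 1))

theorem lev_card {L K : ℕ} {T W : Finset ℕ} (hG : GoodT L K T W) {k g : ℕ} (hk : 1 ≤ k)
    (hkW : k ≤ W.card) (hg : g ≤ k) : K < (lev L T (enumW W) k g).card := by
  unfold lev
  split_ifs with h0 h1
  · exact hG.left _ (enumW_mem W (by omega))
  · exact hG.gap _ (enumW_mem W (by omega)) _ (enumW_mem W (by omega))
      (enumW_lt W (by omega) (by omega))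
  · exact hG.right _ (enumW_mem W (by omega))

/-- what membership in `lev` gives -/
theorem lev_spec {L : ℕ} {T : Finset ℕ} {w : ℕ → ℕ} {k g l : ℕ} (hl : l ∈ lev L T w k g) :
    ∃ y ∈ T, (g = 0 → w 0 / 2 ^ l % 2 = 1 ∧ y / 2 ^ l + 1 = w 0 / 2 ^ l) ∧
      (1 ≤ g → w (g - 1) / 2 ^ l % 2 = 0 ∧ y / 2 ^ l = w (g - 1) / 2 ^ l + 1 ∧
        (g < k → w (g - 1) / 2 ^ (l + 1) < w g / 2 ^ (l + 1))) := by
  unfold lev at hl
  split_ifs at hl with h0 h1
  · subst h0
    obtain ⟨-, h2, y, hy, h3⟩ := by simpa [visL] using hl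
    exact ⟨y, hy, fun _ => ⟨h2, h3⟩, fun h => absurd h (by omega)⟩
  · simp only [gapR, visR, mem_filter, mem_range] at hl
    obtain ⟨⟨-, h2, y, hy, h3⟩, h4⟩ := hl
    exact ⟨y, hy, fun h => absurd h h0, fun _ => ⟨h2, h3, fun _ => h4⟩⟩
  · simp only [visR, mem_filter, mem_range] at hl
    obtain ⟨-, h2, y, hy, h3⟩ := hl
    exact ⟨y, hy, fun h => absurd h h0, fun _ => ⟨h2, h3, fun h => absurd h h1⟩⟩

theorem gapIdx_le {b : ℕ} (E : Finset (Fin b)) (j : Fin b) : gapIdx E j ≤ E.card :=
  card_le_card (filter_subset _ _)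

theorem gapIdx_lt {b : ℕ} (E : Finset (Fin b)) {j : Fin b} (hj : j ∈ E) :
    gapIdx E j < E.card := by
  refine card_lt_card ?_
  rw [filter_ssubset]
  exact ⟨j, hj, lt_irrefl _⟩

theorem embed {a b h : ℕ} (Q : Fin a → Fin b → Prop) (E : Finset (Fin b)) (hE1 : 1 ≤ E.card)
    (hEh : E.card ≤ h) (hQ : ∀ j ∉ E, {i | Q i j}.ncard ≤ h)
    (L K q : ℕ) (hq : 1 ≤ q) (hK : b * q ≤ K) (A : Finset (ℕ × ℕ))
    (W : Finset ℕ) (hW : W.card = h)
    (Z : Finset ℕ) (hZ : Z ⊆ nrow A (2 ^ L) W) (hZc : a + h ≤ Z.card)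
    (hgood : ∀ σ ⊆ Z, σ.card = h → GoodT L K (ncol A (2 ^ L) σ) W)
    (hcol : ∀ σ ⊆ Z, ∀ σ' ⊆ Z, σ.card = h → σ'.card = h → ∀ g ≤ E.card,
      (lev L (ncol A (2 ^ L) σ) (enumW W) E.card g).image (fun l => l / q) =
      (lev L (ncol A (2 ^ L) σ') (enumW W) E.card g).image (fun l => l / q)) :
    MContains Q A := by
  classical
  have hh : 1 ≤ h := hE1.trans hEh
  obtain ⟨σ₀, hσ₀, hσ₀c⟩ := exists_subset_card_eq (show h ≤ Z.card by omega)
  set Bs : ℕ → Finset ℕ := fun g =>
    (lev L (ncol A (2 ^ L) σ₀) (enumW W) E.card g).image (fun l => l / q) with hBs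
  have hBc : ∀ g ≤ E.card, b ≤ (Bs g).card := by
    intro g hg
    refine blocks_card _ b q hq ?_
    have := lev_card (hgood σ₀ hσ₀ hσ₀c) hE1 (by omega) hg
    omega
  -- the block assigned to column `c` in gap `g`
  set blk : ℕ → ℕ → ℕ := fun g c =>
    if g = 0 then enumW (Bs g) ((Bs g).card - 1 - c) else enumW (Bs g) c with hblk
  have hblk_mem : ∀ g ≤ E.card, ∀ c < b, blk g c ∈ Bs g := by
    intro g hg c hc
    have := hBc g hg
    simp only [hblk]
    split_ifs
    · exact enumW_mem _ (by omega)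
    · exact enumW_mem _ (by omega)
  have hblk0 : ∀ c c', c < c' → c' < b → blk 0 c' < blk 0 c := by
    intro c c' hcc hc'
    have := hBc 0 (by omega)
    simp only [hblk, if_true]
    exact enumW_lt _ (by omega) (by omega)
  have hblk1 : ∀ g, 1 ≤ g → g ≤ E.card → ∀ c c', c < c' → c' < b → blk g c < blk g c' := by
    intro g hg1 hg c c' hcc hc'
    have := hBc g hg
    simp only [hblk, if_neg (show g ≠ 0 by omega)]
    exact enumW_lt _ hcc (by omega)
  -- the rows
  set f : Fin a → ℕ := fun i => enumW Z i with hf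
  have hfmono : StrictMono f := by
    intro i i' hii
    exact enumW_lt Z hii (by have := i'.2; omega)
  have hfZ : ∀ i, f i ∈ Z := fun i => enumW_mem Z (by have := i.2; omega)
  -- the columns outside E
  have hex : ∀ j : Fin b, j ∉ E → ∃ σ : Finset ℕ, ∃ y l : ℕ, σ ⊆ Z ∧ σ.card = h ∧
      (∀ i, Q i j → f i ∈ σ) ∧ y ∈ ncol A (2 ^ L) σ ∧ l / q = blk (gapIdx E j) j ∧
      (gapIdx E j = 0 → enumW W 0 / 2 ^ l % 2 = 1 ∧ y / 2 ^ l + 1 = enumW W 0 / 2 ^ l) ∧
      (1 ≤ gapIdx E j → enumW W (gapIdx E j - 1) / 2 ^ l % 2 = 0 ∧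
        y / 2 ^ l = enumW W (gapIdx E j - 1) / 2 ^ l + 1 ∧
        (gapIdx E j < E.card → enumW W (gapIdx E j - 1) / 2 ^ (l + 1) <
          enumW W (gapIdx E j) / 2 ^ (l + 1))) := by
    intro j hj
    have hsub : (univ.filter (fun i => Q i j)).image f ⊆ Z := by
      intro x hx
      obtain ⟨i, -, rfl⟩ := mem_image.1 hx
      exact hfZ i
    have hcard : ((univ.filter (fun i => Q i j)).image f).card ≤ h := by
      refine card_image_le.trans ?_
      have := hQ j hj
      rwa [Set.ncard_eq_toFinset_card', Set.toFinset_setOf] at this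
    obtain ⟨σ, h1, h2, h3⟩ := exists_subsuperset_card_eq hsub hcard (by omega : h ≤ Z.card)
    have hb := hblk_mem (gapIdx E j) (gapIdx_le E j) j j.2
    simp only [hBs] at hb
    rw [hcol σ₀ hσ₀ σ h2 hσ₀c h3 _ (gapIdx_le E j)] at hb
    obtain ⟨l, hl, hlq⟩ := mem_image.1 hb
    obtain ⟨y, hy, h4, h5⟩ := lev_spec hl
    refine ⟨σ, y, l, h2, h3, ?_, hy, hlq, h4, h5⟩
    intro i hi
    exact h1 (mem_image_of_mem f (by simpa using hi))
  choose! σ y l hσZ hσc hσQ hyσ hlq hleft hright using hex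
  have hg := placement E (enumW W) (fun i j hij hj => enumW_lt W hij (by omega)) y
    (fun j hj hjk => ?_) (fun j hj hj1 => ?_) (fun j hj j' hj' hjj hgap => ?_)
  · refine ⟨f, _, hfmono, hg, fun i => ?_, fun j => ?_, fun i j hij => ?_⟩
    · have := hZ (hfZ i)
      simp only [nrow, mem_filter] at this
      exact ⟨enumW W 0, this.2 _ (enumW_mem W (by omega))⟩
    · by_cases hj : j ∈ E
      · obtain ⟨u, hu⟩ := card_pos.1 (show 0 < Z.card by omega)
        have := hZ hu
        simp only [nrow, mem_filter] at this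
        refine ⟨u, ?_⟩
        simp only [if_pos hj]
        exact this.2 _ (enumW_mem W (by have := gapIdx_lt E hj; omega))
      · obtain ⟨u, hu⟩ := card_pos.1 (show 0 < (σ j).card by rw [hσc j hj]; omega)
        have := hyσ j hj
        simp only [ncol, mem_filter] at this
        refine ⟨u, ?_⟩
        simp only [if_neg hj]
        exact this.2 u hu
    · by_cases hj : j ∈ E
      · have := hZ (hfZ i)
        simp only [nrow, mem_filter] at this
        simp only [if_pos hj]
        exact this.2 _ (enumW_mem W (by have := gapIdx_lt E hj; omega))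
      · have := hyσ j hj
        simp only [ncol, mem_filter] at this
        simp only [if_neg hj]
        exact this.2 _ (hσQ j hj i hij)
  · -- y j < w (gapIdx E j)
    rcases Nat.eq_zero_or_pos (gapIdx E j) with h0 | h1
    · obtain ⟨h2, h3⟩ := hleft j hj h0
      rw [h0]
      exact left_lt _ _ _ h3
    · obtain ⟨h2, h3, h4⟩ := hright j hj h1
      exact gap_lt _ _ _ _ h2 h3 (h4 hjk)
  · obtain ⟨h2, h3, h4⟩ := hright j hj hj1
    exact right_lt _ _ _ h2 h3
  · -- the same gap
    have hjj' : (j : ℕ) < j' := hjj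
    rcases Nat.eq_zero_or_pos (gapIdx E j) with h0 | h1
    · obtain ⟨h2, h3⟩ := hleft j hj h0
      have h0' : gapIdx E j' = 0 := by omega
      obtain ⟨h2', h3'⟩ := hleft j' hj' h0'
      have hlt : l j' < l j := by
        by_contra hcon
        have e1 := hlq j hj
        have e2 := hlq j' hj'
        rw [h0] at e1
        rw [h0'] at e2
        have e3 := hblk0 j j' hjj' j'.2
        have : l j / q ≤ l j' / q := Nat.div_le_div_right (by omega)
        omega
      exact left_order _ _ _ _ _ hlt h2' h3' h3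
    · obtain ⟨h2, h3, -⟩ := hright j hj h1
      obtain ⟨h2', h3', -⟩ := hright j' hj' (by omega)
      have hlt : l j < l j' := by
        by_contra hcon
        have e1 := hlq j hj
        have e2 := hlq j' hj'
        rw [← hgap] at e2
        have e3 := hblk1 (gapIdx E j) h1 (gapIdx_le E j) j j' hjj' j'.2
        have : l j' / q ≤ l j / q := Nat.div_le_div_right (by omega)
        omega
      rw [← hgap] at h3'
      exact right_order _ _ _ _ _ hlt h2 h3 h3'

end Pool.Agent.OTR
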