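import Pool.Agent.OTR.Defs

/-!
# [OTR-S5] a pool of rows without bad tuples

PROOF. Let `r = R.card` (`r ≥ 1` unless `M = 0`; for `M = 0` take `Z = ∅`: if `h ≥ 1` there is no
`π` with values in `∅`, and if `h = 0` then `hbad` says `bad = ∅`).
Consider all functions `z : Fin M → ℕ` with values in `R` (`Fintype.piFinset fun _ => R`), there
are `r ^ M`. Those with `z i = z j` for a fixed pair `i ≠ j` number `r ^ (M - 1)`; there are at most
`M (M - 1) / 2 < M ^ 2 / 2` pairs `i < j`, so the non-injective ones are fewer than `r ^ M / 2` because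
`M ^ 2 ≤ r` (or bound crudely by `M ^ 2` ordered pairs if you prefer to use `2 * M ^ 2 ≤ r`, which is
the hypothesis given).  For a fixed injective `ι : Fin h → Fin M` the functions `z` with
`z ∘ ι ∈ bad` number at most `bad.card * r ^ (M - h)` (the map `z ↦ (z ∘ ι, z restricted to the
complement of the range of ι)` is injective), and there are at most `M ^ h` maps `ι`; by `hbad` the
total is at most `M ^ h * bad.card * r ^ (M - h) < r ^ M / 2`. (If `h > M` there is no injective `ι`.)
So some `z` is injective and has `z ∘ ι ∉ bad` for every injective `ι`. Put `Z = image z`. An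
injective `π : Fin h → ℕ` with values in `Z` is `z ∘ ι` for an injective `ι`.
-/

namespace Pool.Agent.OTR

open Finset

private theorem s5_fiber (M h : ℕ) (R : Finset ℕ) (ι : Fin h → Fin M) (hι : Function.Injective ι)
    (b : Fin h → ℕ) :
    (((Fintype.piFinset fun _ : Fin M => R).filter fun z => z ∘ ι = b).card) * R.card ^ h ≤
      R.card ^ M := by
  classical
  have h1 : (Fintype.piFinset fun _ : Fin h => R).card = R.card ^ h := by
    rw [Fintype.card_piFinset]; simp
  have h2 : (Fintype.piFinset fun _ : Fin M => R).card = R.card ^ M := by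
    rw [Fintype.card_piFinset]; simp
  rw [← h1, ← h2, ← Finset.card_product]
  refine Finset.card_le_card_of_injOn (fun p => Function.extend ι p.2 p.1) ?_ ?_
  · rintro ⟨z, w⟩ hp
    simp only [Finset.coe_product, Set.mem_prod, Finset.mem_coe, Finset.mem_filter,
      Fintype.mem_piFinset] at hp
    simp only [Finset.mem_coe, Fintype.mem_piFinset]
    intro k
    by_cases hk : ∃ i, ι i = k
    · obtain ⟨i, rfl⟩ := hk
      rw [hι.extend_apply]
      exact hp.2 i
    · rw [Function.extend_apply' _ _ _ hk]
      exact hp.1.1 k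
  · rintro ⟨z, w⟩ hp ⟨z', w'⟩ hp' he
    simp only [Finset.coe_product, Set.mem_prod, Finset.mem_coe, Finset.mem_filter,
      Fintype.mem_piFinset] at hp hp'
    simp only at he
    have hw : w = w' := by
      funext i
      have := congrFun he (ι i)
      rwa [hι.extend_apply, hι.extend_apply] at this
    have hz : z = z' := by
      funext k
      by_cases hk : ∃ i, ι i = k
      · obtain ⟨i, rfl⟩ := hk
        have e1 := congrFun hp.1.2 i
        have e2 := congrFun hp'.1.2 i
        simp only [Function.comp] at e1 e2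
        rw [e1, e2]
      · have := congrFun he k
        rwa [Function.extend_apply' _ _ _ hk, Function.extend_apply' _ _ _ hk] at this
    rw [hw, hz]

private theorem s5_set (M h : ℕ) (R : Finset ℕ) (ι : Fin h → Fin M) (hι : Function.Injective ι)
    (B : Finset (Fin h → ℕ)) :
    (((Fintype.piFinset fun _ : Fin M => R).filter fun z => z ∘ ι ∈ B).card) * R.card ^ h ≤
      B.card * R.card ^ M := by
  classical
  have h1 : ((Fintype.piFinset fun _ : Fin M => R).filter fun z => z ∘ ι ∈ B) ⊆
      B.biUnion fun b => (Fintype.piFinset fun _ : Fin M => R).filter fun z => z ∘ ι = b := by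
    intro z hz
    rw [Finset.mem_filter] at hz
    rw [Finset.mem_biUnion]
    exact ⟨z ∘ ι, hz.2, Finset.mem_filter.2 ⟨hz.1, rfl⟩⟩
  calc (((Fintype.piFinset fun _ : Fin M => R).filter fun z => z ∘ ι ∈ B).card) * R.card ^ h
      ≤ (∑ b ∈ B, ((Fintype.piFinset fun _ : Fin M => R).filter fun z => z ∘ ι = b).card) *
          R.card ^ h :=
        Nat.mul_le_mul_right _ ((Finset.card_le_card h1).trans Finset.card_biUnion_le)
    _ = ∑ b ∈ B, ((Fintype.piFinset fun _ : Fin M => R).filter fun z => z ∘ ι = b).card *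
          R.card ^ h := by rw [Finset.sum_mul]
    _ ≤ ∑ b ∈ B, R.card ^ M := Finset.sum_le_sum fun b _ => s5_fiber M h R ι hι b
    _ = _ := by rw [Finset.sum_const, smul_eq_mul]

private theorem s5_pair (M : ℕ) (R : Finset ℕ) (hr : 0 < R.card) (i j : Fin M) (hij : i ≠ j) :
    (((Fintype.piFinset fun _ : Fin M => R).filter fun z => z i = z j).card) * R.card ≤
      R.card ^ M := by
  classical
  have hι : Function.Injective (![i, j] : Fin 2 → Fin M) := by
    intro a b hab
    fin_cases a <;> fin_cases b <;> simp_all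
  have h1 := s5_set M 2 R ![i, j] hι (R.image fun a => (![a, a] : Fin 2 → ℕ))
  have h2 : ((Fintype.piFinset fun _ : Fin M => R).filter fun z => z i = z j) ⊆
      ((Fintype.piFinset fun _ : Fin M => R).filter fun z =>
        z ∘ (![i, j] : Fin 2 → Fin M) ∈ R.image fun a => (![a, a] : Fin 2 → ℕ)) := by
    intro z hz
    rw [Finset.mem_filter] at hz ⊢
    refine ⟨hz.1, Finset.mem_image.2 ⟨z i, (Fintype.mem_piFinset.1 hz.1) i, ?_⟩⟩
    funext k
    fin_cases k
    · simp
    · simp [hz.2]
  have h3 : (R.image fun a => (![a, a] : Fin 2 → ℕ)).card ≤ R.card := Finset.card_image_le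
  have h4 : ((((Fintype.piFinset fun _ : Fin M => R).filter fun z => z i = z j).card) * R.card) *
      R.card ≤ R.card ^ M * R.card := by
    calc ((((Fintype.piFinset fun _ : Fin M => R).filter fun z => z i = z j).card) * R.card) *
        R.card = (((Fintype.piFinset fun _ : Fin M => R).filter fun z => z i = z j).card) *
          R.card ^ 2 := by ring
      _ ≤ _ := Nat.mul_le_mul_right _ (Finset.card_le_card h2)
      _ ≤ _ := h1
      _ ≤ R.card * R.card ^ M := Nat.mul_le_mul_right _ h3
      _ = _ := Nat.mul_comm _ _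
  exact Nat.le_of_mul_le_mul_right h4 hr

theorem exists_pool (M h : ℕ) (R : Finset ℕ) (bad : Finset (Fin h → ℕ))
    (hb : ∀ π ∈ bad, ∀ i, π i ∈ R) (hbad : 2 * M ^ h * bad.card < R.card ^ h)
    (hR : 2 * M ^ 2 < R.card) :
    ∃ Z ⊆ R, Z.card = M ∧ ∀ π : Fin h → ℕ, Function.Injective π → (∀ i, π i ∈ Z) → π ∉ bad := by
  classical
  have hr : 0 < R.card := by omega
  have hrM : 0 < R.card ^ M := pow_pos hr M
  set Ω : Finset (Fin M → ℕ) := Fintype.piFinset fun _ : Fin M => R with hΩ
  have hΩc : Ω.card = R.card ^ M := by rw [hΩ, Fintype.card_piFinset]; simp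
  set U1 : Finset (Fin M → ℕ) := Ω.filter fun z => ∃ i j, i ≠ j ∧ z i = z j with hU1
  set U2 : Finset (Fin M → ℕ) := Ω.filter fun z =>
    ∃ ι : Fin h → Fin M, Function.Injective ι ∧ z ∘ ι ∈ bad with hU2
  have h1 : 2 * U1.card < R.card ^ M := by
    set P : Finset (Fin M × Fin M) := Finset.univ.filter fun p => p.1 ≠ p.2 with hP
    have hs : U1 ⊆ P.biUnion fun p => Ω.filter fun z => z p.1 = z p.2 := by
      intro z hz
      rw [hU1, Finset.mem_filter] at hz
      obtain ⟨hz1, i, j, hij, hz2⟩ := hz
      rw [Finset.mem_biUnion]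
      exact ⟨(i, j), by simp [hP, hij], Finset.mem_filter.2 ⟨hz1, hz2⟩⟩
    have hPc : P.card ≤ M ^ 2 := by
      refine (Finset.card_filter_le _ _).trans ?_
      rw [Finset.card_univ, Fintype.card_prod, Fintype.card_fin, sq]
    have hc : U1.card * R.card ≤ M ^ 2 * R.card ^ M := by
      calc U1.card * R.card ≤ (∑ p ∈ P, (Ω.filter fun z => z p.1 = z p.2).card) * R.card :=
            Nat.mul_le_mul_right _ ((Finset.card_le_card hs).trans Finset.card_biUnion_le)
        _ = ∑ p ∈ P, (Ω.filter fun z => z p.1 = z p.2).card * R.card := by rw [Finset.sum_mul]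
        _ ≤ ∑ p ∈ P, R.card ^ M := by
            refine Finset.sum_le_sum fun p hp => ?_
            exact s5_pair M R hr p.1 p.2 (by simpa [hP] using hp)
        _ = P.card * R.card ^ M := by rw [Finset.sum_const, smul_eq_mul]
        _ ≤ _ := Nat.mul_le_mul_right _ hPc
    have h5 : (2 * U1.card) * R.card < R.card ^ M * R.card := by
      calc (2 * U1.card) * R.card = 2 * (U1.card * R.card) := by ring
        _ ≤ 2 * (M ^ 2 * R.card ^ M) := Nat.mul_le_mul_left _ hc
        _ = (2 * M ^ 2) * R.card ^ M := by ring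
        _ < R.card * R.card ^ M := Nat.mul_lt_mul_of_pos_right hR hrM
        _ = _ := Nat.mul_comm _ _
    exact Nat.lt_of_mul_lt_mul_right h5
  have h2 : 2 * U2.card < R.card ^ M := by
    set I : Finset (Fin h → Fin M) := Finset.univ.filter fun ι => Function.Injective ι with hI
    have hs : U2 ⊆ I.biUnion fun ι => Ω.filter fun z => z ∘ ι ∈ bad := by
      intro z hz
      rw [hU2, Finset.mem_filter] at hz
      obtain ⟨hz1, ι, hι, hz2⟩ := hz
      rw [Finset.mem_biUnion]
      exact ⟨ι, by simp [hI, hι], Finset.mem_filter.2 ⟨hz1, hz2⟩⟩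
    have hIc : I.card ≤ M ^ h := by
      refine (Finset.card_filter_le _ _).trans ?_
      rw [Finset.card_univ, Fintype.card_fun, Fintype.card_fin, Fintype.card_fin]
    have hc : U2.card * R.card ^ h ≤ M ^ h * (bad.card * R.card ^ M) := by
      calc U2.card * R.card ^ h ≤
            (∑ ι ∈ I, (Ω.filter fun z => z ∘ ι ∈ bad).card) * R.card ^ h :=
            Nat.mul_le_mul_right _ ((Finset.card_le_card hs).trans Finset.card_biUnion_le)
        _ = ∑ ι ∈ I, (Ω.filter fun z => z ∘ ι ∈ bad).card * R.card ^ h := by rw [Finset.sum_mul]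
        _ ≤ ∑ ι ∈ I, bad.card * R.card ^ M := by
            refine Finset.sum_le_sum fun ι hι => ?_
            exact s5_set M h R ι (by simpa [hI] using hι) bad
        _ = I.card * (bad.card * R.card ^ M) := by rw [Finset.sum_const, smul_eq_mul]
        _ ≤ _ := Nat.mul_le_mul_right _ hIc
    have h5 : (2 * U2.card) * R.card ^ h < R.card ^ M * R.card ^ h := by
      calc (2 * U2.card) * R.card ^ h = 2 * (U2.card * R.card ^ h) := by ring
        _ ≤ 2 * (M ^ h * (bad.card * R.card ^ M)) := Nat.mul_le_mul_left _ hc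
        _ = (2 * M ^ h * bad.card) * R.card ^ M := by ring
        _ < R.card ^ h * R.card ^ M := Nat.mul_lt_mul_of_pos_right hbad hrM
        _ = _ := Nat.mul_comm _ _
    exact Nat.lt_of_mul_lt_mul_right h5
  have h3 : (U1 ∪ U2).card < Ω.card := by
    have := Finset.card_union_le U1 U2
    omega
  obtain ⟨z, hz, hz'⟩ := Finset.exists_mem_notMem_of_card_lt_card h3
  rw [Finset.mem_union, not_or] at hz'
  have hinj : Function.Injective z := by
    intro i j hij
    by_contra hne
    exact hz'.1 (by rw [hU1, Finset.mem_filter]; exact ⟨hz, i, j, hne, hij⟩)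
  refine ⟨Finset.univ.image z, ?_, ?_, ?_⟩
  · intro x hx
    obtain ⟨i, -, rfl⟩ := Finset.mem_image.1 hx
    exact Fintype.mem_piFinset.1 hz i
  · rw [Finset.card_image_of_injective _ hinj, Finset.card_univ, Fintype.card_fin]
  · intro π hπ hπZ hπb
    have h4 : ∀ i, ∃ k, z k = π i := fun i => by
      obtain ⟨k, -, hk⟩ := Finset.mem_image.1 (hπZ i)
      exact ⟨k, hk⟩
    choose ι hι using h4
    have hιinj : Function.Injective ι := by
      intro i j hij
      apply hπ
      rw [← hι i, ← hι j, hij]
    have h5 : z ∘ ι = π := funext hι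
    exact hz'.2 (by
      rw [hU2, Finset.mem_filter]
      exact ⟨hz, ι, hιinj, by rw [h5]; exact hπb⟩)

end Pool.Agent.OTR
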