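import Pool.Agent.OTR.V3

/-!
# [OTR-XB] double counting of the pairs (row tuple, column tuple)

PROOFS. For `π, W : Fin h → ℕ` with values `< N = 2 ^ L` put `C π W := ∀ i j, (π i, W j) ∈ A`. Then
`C π W ↔ W ∈ piFinset (fun _ => ncol A N (univ.image π)) ↔ π ∈ piFinset (fun _ => nrow A N (univ.image W))`.
`double_count`: `|piFinset (fun _ : Fin h => S)| = |S| ^ h`; both sides count the pairs with `C π W`
(`Finset.sum_comm` on indicator sums, or `Finset.sum_card_bipartiteAbove_eq_sum_card_bipartiteBelow`).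
`bad_count`: the left side counts the pairs `(π, W)` with `C π W` that are bad; for a fixed `π` the bad `W`
are counted by `card_bad_le` with `T = ncol A N (univ.image π)`:
at most `(h^2 + 2 h BB + h^2 (L BB)) * |T| ^ (h-1)`; sum over `π`.
-/

namespace Pool.Agent.OTR

open Finset

theorem xb_mem (A : Finset (ℕ × ℕ)) (N h : ℕ) (π W : Fin h → ℕ)
    (hπ : π ∈ Fintype.piFinset (fun _ : Fin h => range N))
    (hW : W ∈ Fintype.piFinset (fun _ : Fin h => range N)) :
    W ∈ Fintype.piFinset (fun _ : Fin h => ncol A N (univ.image π)) ↔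
      π ∈ Fintype.piFinset (fun _ : Fin h => nrow A N (univ.image W)) := by
  rw [Fintype.mem_piFinset] at hπ hW
  rw [Fintype.mem_piFinset, Fintype.mem_piFinset]
  unfold ncol nrow
  simp only [mem_filter, mem_image, mem_univ, true_and, forall_exists_index,
    forall_apply_eq_imp_iff]
  constructor
  · intro h1 i
    exact ⟨hπ i, fun j => (h1 j).2 i⟩
  · intro h1 j
    exact ⟨hW j, fun i => (h1 i).2 j⟩

theorem xb_sub (A : Finset (ℕ × ℕ)) (N h : ℕ) (π W : Fin h → ℕ)
    (hW : W ∈ Fintype.piFinset (fun _ : Fin h => ncol A N (univ.image π))) :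
    W ∈ Fintype.piFinset (fun _ : Fin h => range N) := by
  rw [Fintype.mem_piFinset] at hW ⊢
  exact fun i => (mem_filter.1 (hW i)).1

theorem xb_sub' (A : Finset (ℕ × ℕ)) (N h : ℕ) (π W : Fin h → ℕ)
    (hπ : π ∈ Fintype.piFinset (fun _ : Fin h => nrow A N (univ.image W))) :
    π ∈ Fintype.piFinset (fun _ : Fin h => range N) := by
  rw [Fintype.mem_piFinset] at hπ ⊢
  exact fun i => (mem_filter.1 (hπ i)).1

theorem xb_comm (A : Finset (ℕ × ℕ)) (N h : ℕ) (R : (Fin h → ℕ) → (Fin h → ℕ) → Prop)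
    [∀ π W, Decidable (R π W)] :
    ∑ π ∈ Fintype.piFinset (fun _ : Fin h => range N),
      ((Fintype.piFinset (fun _ : Fin h => ncol A N (univ.image π))).filter (fun W => R π W)).card =
    ∑ W ∈ Fintype.piFinset (fun _ : Fin h => range N),
      ((Fintype.piFinset (fun _ : Fin h => nrow A N (univ.image W))).filter (fun π => R π W)).card := by
  have h1 : ∀ π ∈ Fintype.piFinset (fun _ : Fin h => range N),
      ((Fintype.piFinset (fun _ : Fin h => ncol A N (univ.image π))).filter (fun W => R π W)).card =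
      ∑ W ∈ Fintype.piFinset (fun _ : Fin h => range N),
        if (W ∈ Fintype.piFinset (fun _ : Fin h => ncol A N (univ.image π)) ∧ R π W) then 1 else 0 := by
    intro π _
    rw [← card_filter]
    congr 1
    ext W
    rw [mem_filter, mem_filter]
    exact ⟨fun hW => ⟨xb_sub A N h π W hW.1, hW⟩, fun hW => hW.2⟩
  have h2 : ∀ W ∈ Fintype.piFinset (fun _ : Fin h => range N),
      ((Fintype.piFinset (fun _ : Fin h => nrow A N (univ.image W))).filter (fun π => R π W)).card =
      ∑ π ∈ Fintype.piFinset (fun _ : Fin h => range N),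
        if (π ∈ Fintype.piFinset (fun _ : Fin h => nrow A N (univ.image W)) ∧ R π W) then 1 else 0 := by
    intro W _
    rw [← card_filter]
    congr 1
    ext π
    rw [mem_filter, mem_filter]
    exact ⟨fun hW => ⟨xb_sub' A N h π W hW.1, hW⟩, fun hW => hW.2⟩
  rw [sum_congr rfl h1, sum_congr rfl h2, sum_comm]
  refine sum_congr rfl fun W hW => sum_congr rfl fun π hπ => ?_
  have h3 := xb_mem A N h π W hπ hW
  by_cases h4 : π ∈ Fintype.piFinset (fun _ : Fin h => nrow A N (univ.image W))
  · by_cases h5 : R π W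
    · rw [if_pos ⟨h3.2 h4, h5⟩, if_pos ⟨h4, h5⟩]
    · rw [if_neg (fun h6 => h5 h6.2), if_neg (fun h6 => h5 h6.2)]
  · rw [if_neg (fun h6 => h4 (h3.1 h6.1)), if_neg (fun h6 => h4 h6.1)]

theorem double_count (A : Finset (ℕ × ℕ)) (L h : ℕ) :
    SS A L h h = ∑ W ∈ Fintype.piFinset (fun _ : Fin h => range (2 ^ L)),
      (nrow A (2 ^ L) (univ.image W)).card ^ h := by
  have h1 := xb_comm A (2 ^ L) h (fun _ _ => True)
  simp only [filter_true, Fintype.card_piFinset, prod_const, card_univ, Fintype.card_fin] at h1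
  exact h1

open Classical in
theorem bad_count (A : Finset (ℕ × ℕ)) (L K h : ℕ) (hh : 1 ≤ h) :
    ∑ W ∈ Fintype.piFinset (fun _ : Fin h => range (2 ^ L)),
      ((Fintype.piFinset (fun _ : Fin h => nrow A (2 ^ L) (univ.image W))).filter
        (fun π => ¬ (Function.Injective W ∧
          GoodT L K (ncol A (2 ^ L) (univ.image π)) (univ.image W)))).card
      ≤ (h ^ 2 + 2 * h * BB L K + h ^ 2 * (L * BB L K)) * SS A L h (h - 1) := by
  rw [← xb_comm A (2 ^ L) h (fun π W => ¬ (Function.Injective W ∧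
    GoodT L K (ncol A (2 ^ L) (univ.image π)) (univ.image W)))]
  unfold SS
  rw [mul_sum]
  refine sum_le_sum fun π _ => ?_
  exact card_bad_le L K h hh _ (filter_subset _ _)

end Pool.Agent.OTR
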