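import Pool.Agent.OTR.XA
import Pool.Agent.OTR.XB

/-!
# [OTR-XC] an h-set W of columns with many common rows, almost all tuples of which are good

PROOF. `N = 2 ^ L`, `S j = SS A L h j`, `r(W) = |nrow A N (univ.image W)|`, `bad(W)` = the number in
`bad_count`, for `W` in `piFinset (fun _ : Fin h => range N)`. Suppose that for every `W` either
`r(W) < M₀` or `δ * r(W) ^ h < bad(W)`. Then
`S h = ∑_W r(W) ^ h ≤ ∑_W (M₀ ^ h + bad(W) / δ) ≤ N ^ h * M₀ ^ h + (β / δ) * S (h-1)`, and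
`S (h-1) ≤ S h / D` (`SS_lower`), `β / (δ D) ≤ 1/2`; so `S h ≤ 2 * N ^ h * M₀ ^ h < D ^ h * N ^ h ≤ S h`
(`SS_pow`), a contradiction. So there is a tuple `W` with `M₀ ≤ r(W)` and `bad(W) ≤ δ * r(W) ^ h`.
`W` is injective: otherwise all the `r(W) ^ h` tuples `π` are bad, and
`r(W) ^ h ≤ δ r(W) ^ h < r(W) ^ h` (`r(W) ≥ M₀ ≥ 1`). The set `univ.image W` has `h` elements and is the set
wanted.
-/

namespace Pool.Agent.OTR

open Finset

open Classical in
theorem exists_W (L K h : ℕ) (hh : 1 ≤ h) (A : Finset (ℕ × ℕ))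
    (hA : A ⊆ range (2 ^ L) ×ˢ range (2 ^ L)) (β : ℝ)
    (hβ : ((h ^ 2 + 2 * h * BB L K + h ^ 2 * (L * BB L K) : ℕ) : ℝ) ≤ β)
    (M₀ : ℕ) (hM : 1 ≤ M₀) (δ D : ℝ) (hδ : 0 < δ) (hδ1 : δ < 1) (hD0 : 0 < D)
    (hD : D * ((2 : ℝ) ^ L) ^ (2 * h - 1) ≤ (A.card : ℝ) ^ h)
    (h1 : 2 * β ≤ δ * D) (h2 : 2 * (M₀ : ℝ) ^ h < D ^ h) :
    ∃ W ⊆ range (2 ^ L), W.card = h ∧ M₀ ≤ (nrow A (2 ^ L) W).card ∧
      (((Fintype.piFinset (fun _ : Fin h => nrow A (2 ^ L) W)).filter
        (fun π => ¬ GoodT L K (ncol A (2 ^ L) (univ.image π)) W)).card : ℝ)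
        ≤ δ * ((nrow A (2 ^ L) W).card : ℝ) ^ h := by
  set P : Finset (Fin h → ℕ) := Fintype.piFinset (fun _ : Fin h => range (2 ^ L)) with hP
  set r : (Fin h → ℕ) → ℕ := fun W => (nrow A (2 ^ L) (univ.image W)).card with hr
  set bad : (Fin h → ℕ) → ℕ := fun W =>
    ((Fintype.piFinset (fun _ : Fin h => nrow A (2 ^ L) (univ.image W))).filter
        (fun π => ¬ (Function.Injective W ∧
          GoodT L K (ncol A (2 ^ L) (univ.image π)) (univ.image W)))).card with hbad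
  have hex : ∃ W ∈ P, M₀ ≤ r W ∧ (bad W : ℝ) ≤ δ * (r W : ℝ) ^ h := by
    by_contra hcon
    push Not at hcon
    have hterm : ∀ W ∈ P, ((r W : ℝ)) ^ h ≤ (M₀ : ℝ) ^ h + (bad W : ℝ) / δ := by
      intro W hW
      by_cases h3 : M₀ ≤ r W
      · have h4 := hcon W hW h3
        have h5 : (r W : ℝ) ^ h < (bad W : ℝ) / δ := by
          rw [lt_div_iff₀ hδ, mul_comm]
          exact h4
        have h6 : (0 : ℝ) ≤ (M₀ : ℝ) ^ h := by positivity
        linarith
      · have h4 : (r W : ℝ) ≤ M₀ := by exact_mod_cast (not_le.1 h3).le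
        have h5 : (r W : ℝ) ^ h ≤ (M₀ : ℝ) ^ h := pow_le_pow_left₀ (Nat.cast_nonneg _) h4 h
        have h6 : (0 : ℝ) ≤ (bad W : ℝ) / δ := by positivity
        linarith
    have hsum : (SS A L h h : ℝ) ≤ ((2 : ℝ) ^ L) ^ h * (M₀ : ℝ) ^ h + (∑ W ∈ P, (bad W : ℝ)) / δ := by
      have e1 : (SS A L h h : ℝ) = ∑ W ∈ P, (r W : ℝ) ^ h := by
        rw [double_count]
        push_cast
        rfl
      rw [e1]
      refine (Finset.sum_le_sum hterm).trans (le_of_eq ?_)
      rw [Finset.sum_add_distrib, Finset.sum_const, nsmul_eq_mul, Finset.sum_div]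
      congr 2
      rw [hP, Fintype.card_piFinset, Finset.prod_const, Finset.card_range, Finset.card_univ,
        Fintype.card_fin]
      push_cast
      rfl
    have hb : (∑ W ∈ P, (bad W : ℝ)) ≤ β * (SS A L h (h - 1) : ℝ) := by
      have h3 := bad_count A L K h hh
      have h4 : (((∑ W ∈ P, bad W : ℕ)) : ℝ) ≤
          (((h ^ 2 + 2 * h * BB L K + h ^ 2 * (L * BB L K)) * SS A L h (h - 1) : ℕ) : ℝ) := by
        exact_mod_cast h3
      rw [Nat.cast_sum, Nat.cast_mul] at h4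
      exact h4.trans (mul_le_mul_of_nonneg_right hβ (Nat.cast_nonneg _))
    have hlow := SS_lower A L h hh hA D hD0 hD (h - 1)
    rw [Nat.sub_add_cancel hh] at hlow
    have hpow := SS_pow A L h hh hA D hD0 hD h
    have hS0 : (0 : ℝ) ≤ (SS A L h (h - 1) : ℝ) := Nat.cast_nonneg _
    have h5 : 2 * (β * (SS A L h (h - 1) : ℝ)) ≤ δ * (SS A L h h : ℝ) := by
      calc 2 * (β * (SS A L h (h - 1) : ℝ)) = (2 * β) * (SS A L h (h - 1) : ℝ) := by ring
        _ ≤ (δ * D) * (SS A L h (h - 1) : ℝ) := mul_le_mul_of_nonneg_right h1 hS0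
        _ = δ * (D * (SS A L h (h - 1) : ℝ)) := by ring
        _ ≤ δ * (SS A L h h : ℝ) := mul_le_mul_of_nonneg_left hlow hδ.le
    have h6 : (∑ W ∈ P, (bad W : ℝ)) / δ ≤ (SS A L h h : ℝ) / 2 := by
      rw [div_le_div_iff₀ hδ (by norm_num)]
      linarith
    have h7 : (SS A L h h : ℝ) ≤ 2 * (((2 : ℝ) ^ L) ^ h * (M₀ : ℝ) ^ h) := by linarith
    have hN0 : (0 : ℝ) < ((2 : ℝ) ^ L) ^ h := by positivity
    have h8 : ((2 : ℝ) ^ L) ^ h * (2 * (M₀ : ℝ) ^ h) < ((2 : ℝ) ^ L) ^ h * D ^ h :=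
      mul_lt_mul_of_pos_left h2 hN0
    nlinarith
  obtain ⟨W, hW, hM1, hbW⟩ := hex
  have hr1 : (1 : ℝ) ≤ (r W : ℝ) := by exact_mod_cast hM.trans hM1
  have hrp : (0 : ℝ) < (r W : ℝ) ^ h := by positivity
  have hinj : Function.Injective W := by
    by_contra hni
    have h3 : bad W = r W ^ h := by
      have e : ((Fintype.piFinset (fun _ : Fin h => nrow A (2 ^ L) (univ.image W))).filter
          (fun π => ¬ (Function.Injective W ∧
            GoodT L K (ncol A (2 ^ L) (univ.image π)) (univ.image W)))) =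
          Fintype.piFinset (fun _ : Fin h => nrow A (2 ^ L) (univ.image W)) := by
        ext π
        rw [Finset.mem_filter]
        exact ⟨fun h4 => h4.1, fun h4 => ⟨h4, fun h5 => hni h5.1⟩⟩
      simp only [hbad]
      rw [e, Fintype.card_piFinset, Finset.prod_const, Finset.card_univ, Fintype.card_fin]
    rw [h3, Nat.cast_pow] at hbW
    have h4 : δ * (r W : ℝ) ^ h < 1 * (r W : ℝ) ^ h := mul_lt_mul_of_pos_right hδ1 hrp
    linarith
  refine ⟨univ.image W, ?_, ?_, hM1, ?_⟩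
  · intro x hx
    obtain ⟨i, -, rfl⟩ := Finset.mem_image.1 hx
    rw [hP, Fintype.mem_piFinset] at hW
    exact hW i
  · rw [Finset.card_image_of_injective _ hinj, Finset.card_univ, Fintype.card_fin]
  · have e : ((Fintype.piFinset (fun _ : Fin h => nrow A (2 ^ L) (univ.image W))).filter
        (fun π => ¬ GoodT L K (ncol A (2 ^ L) (univ.image π)) (univ.image W))) =
        ((Fintype.piFinset (fun _ : Fin h => nrow A (2 ^ L) (univ.image W))).filter
        (fun π => ¬ (Function.Injective W ∧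
          GoodT L K (ncol A (2 ^ L) (univ.image π)) (univ.image W)))) := by
      apply Finset.filter_congr
      intro π _
      constructor
      · intro h3 h4
        exact h3 h4.2
      · intro h3 h4
        exact h3 ⟨hinj, h4⟩
    rw [e]
    exact hbW

end Pool.Agent.OTR
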