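import Pool.Agent.OTR.S2
import Pool.Agent.OTR.S5
import Pool.Agent.OTR.S6
import Pool.Agent.OTR.XC
import Pool.Agent.OTR.E1

/-!
# The matrix form of the h-index theorem
-/

namespace Pool.Agent.OTR

open Finset

theorem lev_subset_range (L : ℕ) (T : Finset ℕ) (w : ℕ → ℕ) (k g : ℕ) :
    lev L T w k g ⊆ range L := by
  unfold lev
  split_ifs
  · exact filter_subset _ _
  · exact (filter_subset _ _).trans (filter_subset _ _)
  · exact filter_subset _ _

theorem block_lt {L J l : ℕ} (hJ : 1 ≤ J) (hl : l < L) : l / (L / J + 1) < J := by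
  refine Nat.div_lt_of_lt_mul ?_
  have h1 := Nat.div_add_mod L J
  have h2 := Nat.mod_lt L (show 0 < J by omega)
  have h3 : (L / J + 1) * J = J * (L / J) + J := by ring
  omega

theorem nat_le_two_rpow (ε : ℝ) (hε : 0 < ε) (L : ℕ) :
    (L : ℝ) ≤ (1 / (ε * Real.log 2)) * (2 : ℝ) ^ (ε * (L : ℝ)) := by
  have hlog : 0 < Real.log 2 := Real.log_pos (by norm_num)
  have h1 : (2 : ℝ) ^ (ε * (L : ℝ)) = Real.exp (Real.log 2 * (ε * L)) := by
    rw [Real.rpow_def_of_pos (by norm_num)]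
  have h2 : Real.log 2 * (ε * L) ≤ Real.exp (Real.log 2 * (ε * L)) := by
    have := Real.add_one_le_exp (Real.log 2 * (ε * L))
    linarith
  rw [h1, div_mul_eq_mul_div, one_mul, le_div_iff₀ (by positivity)]
  linarith

open Classical in
theorem matrix_theorem_aux {a b h : ℕ} (hh : 1 ≤ h) (Q : Fin a → Fin b → Prop)
    (E : Finset (Fin b)) (hE1 : 1 ≤ E.card) (hEh : E.card ≤ h)
    (hQ : ∀ j ∉ E, {i | Q i j}.ncard ≤ h) (ε : ℝ) (hε : 0 < ε) :
    ∃ C : ℝ, 0 ≤ C ∧ ∀ (L : ℕ) (A : Finset (ℕ × ℕ)), A ⊆ range (2 ^ L) ×ˢ range (2 ^ L) →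
      ¬ MContains Q A → (A.card : ℝ) ≤ C * ((2 : ℝ) ^ L) ^ (2 - 1 / (h : ℝ) + ε) := by
  have hhR : (1 : ℝ) ≤ h := by exact_mod_cast hh
  set ε₁ : ℝ := h * ε / 4 with hε₁
  have hε₁0 : 0 < ε₁ := by positivity
  obtain ⟨J, hJ, C₁, hC₁, hBB⟩ := BB_bound b ε₁ hε₁0
  obtain ⟨M₁, hM₁⟩ := ramsey_finset (Fin (E.card + 1) → Finset (Fin J)) h (a + h)
  set M : ℕ := max M₁ 1 with hMdef
  have hM1 : 1 ≤ M := le_max_right _ _
  have hMR : (1 : ℝ) ≤ M := by exact_mod_cast hM1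
  have hMh : (1 : ℝ) ≤ (M : ℝ) ^ h := one_le_pow₀ hMR
  set δ : ℝ := 1 / (4 * (M : ℝ) ^ h) with hδ
  have hδ0 : 0 < δ := by positivity
  have hδ1 : δ < 1 := by
    rw [hδ, div_lt_one (by positivity)]
    linarith
  set M₀ : ℕ := 2 * M ^ 2 + 1 with hM₀
  have hlog : 0 < Real.log 2 := Real.log_pos (by norm_num)
  set C₂ : ℝ := (h : ℝ) ^ 2 + 2 * h * C₁ + h ^ 2 * (1 / (ε₁ * Real.log 2) * C₁) with hC₂
  have hC₂0 : 0 < C₂ := by positivity
  set C : ℝ := 1 + 2 * C₂ / δ + 2 * M₀ with hC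
  have hC1 : 1 ≤ C := by
    have : 0 ≤ 2 * C₂ / δ := by positivity
    have : (0 : ℝ) ≤ 2 * (M₀ : ℝ) := by positivity
    linarith
  refine ⟨C, by linarith, ?_⟩
  intro L A hA hnot
  by_contra hcon
  push Not at hcon
  apply hnot
  set q : ℕ := L / J + 1 with hq
  set K : ℕ := b * q with hK
  -- the numbers
  set x : ℝ := (2 : ℝ) ^ (ε₁ * (L : ℝ)) with hx
  have hx1 : 1 ≤ x := Real.one_le_rpow (by norm_num) (by positivity)
  have hBBL : (BB L K : ℝ) ≤ C₁ * x := hBB L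
  have hLx : (L : ℝ) ≤ (1 / (ε₁ * Real.log 2)) * x := nat_le_two_rpow ε₁ hε₁0 L
  set β : ℝ := C₂ * x ^ 2 with hβdef
  have hβ : ((h ^ 2 + 2 * h * BB L K + h ^ 2 * (L * BB L K) : ℕ) : ℝ) ≤ β := by
    push_cast
    have h1 : (L : ℝ) * BB L K ≤ (1 / (ε₁ * Real.log 2) * x) * (C₁ * x) :=
      mul_le_mul hLx hBBL (by positivity) (by positivity)
    have h2 : x ≤ x ^ 2 := by nlinarith
    have h3 : (1 : ℝ) ≤ x ^ 2 := by nlinarith
    calc (h : ℝ) ^ 2 + 2 * h * BB L K + h ^ 2 * (L * BB L K)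
        ≤ (h : ℝ) ^ 2 * x ^ 2 + 2 * h * (C₁ * x ^ 2)
          + h ^ 2 * ((1 / (ε₁ * Real.log 2) * x) * (C₁ * x)) := by
          gcongr
          · exact le_mul_of_one_le_right (by positivity) h3
          · exact hBBL.trans (mul_le_mul_of_nonneg_left h2 hC₁.le)
      _ = β := by rw [hβdef, hC₂]; ring
  set D : ℝ := C ^ h * x ^ 4 with hD
  have hD0 : 0 < D := by positivity
  have hx4 : x ^ 4 = ((2 : ℝ) ^ L) ^ ((h : ℝ) * ε) := by
    rw [hx, ← Real.rpow_natCast, ← Real.rpow_mul (by norm_num), ← Real.rpow_natCast,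
      ← Real.rpow_mul (by norm_num)]
    congr 1
    rw [hε₁]
    push_cast
    ring
  have hN0 : (0 : ℝ) < (2 : ℝ) ^ L := by positivity
  have hDA : D * ((2 : ℝ) ^ L) ^ (2 * h - 1) ≤ (A.card : ℝ) ^ h := by
    have h1 : (C * ((2 : ℝ) ^ L) ^ (2 - 1 / (h : ℝ) + ε)) ^ h ≤ (A.card : ℝ) ^ h :=
      pow_le_pow_left₀ (by positivity) hcon.le h
    refine le_of_eq_of_le ?_ h1
    rw [mul_pow, hD, mul_assoc, hx4]
    congr 1
    rw [← Real.rpow_natCast (((2 : ℝ) ^ L) ^ (2 - 1 / (h : ℝ) + ε)) h, ← Real.rpow_mul hN0.le,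
      ← Real.rpow_natCast ((2 : ℝ) ^ L) (2 * h - 1), ← Real.rpow_add hN0]
    congr 1
    rw [Nat.cast_sub (by omega)]
    push_cast
    field_simp
    ring
  have hCh : C ≤ C ^ h := le_self_pow₀ hC1 (by omega)
  have hx4' : x ^ 2 ≤ x ^ 4 := pow_le_pow_right₀ hx1 (by norm_num)
  have h1 : 2 * β ≤ δ * D := by
    have h2 : 2 * C₂ ≤ δ * C := by
      rw [hC]
      have : δ * (2 * C₂ / δ) = 2 * C₂ := by field_simp
      nlinarith [mul_nonneg hδ0.le (show (0 : ℝ) ≤ 1 + 2 * M₀ by positivity)]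
    calc 2 * β = (2 * C₂) * x ^ 2 := by rw [hβdef]; ring
      _ ≤ (δ * C ^ h) * x ^ 4 := by
          apply mul_le_mul _ hx4' (by positivity) (by positivity)
          exact h2.trans (mul_le_mul_of_nonneg_left hCh hδ0.le)
      _ = δ * D := by rw [hD]; ring
  have h2 : 2 * (M₀ : ℝ) ^ h < D ^ h := by
    have h3 : 2 * (M₀ : ℝ) < D := by
      have h4 : 2 * (M₀ : ℝ) < C := by
        rw [hC]
        have : 0 ≤ 2 * C₂ / δ := by positivity
        linarith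
      have h5 : C ^ h ≤ D := by
        rw [hD]
        exact le_mul_of_one_le_right (by positivity) (one_le_pow₀ hx1)
      linarith
    have h6 : (2 * (M₀ : ℝ)) ^ h < D ^ h := pow_lt_pow_left₀ h3 (by positivity) (by omega)
    have h7 : 2 * (M₀ : ℝ) ^ h ≤ (2 * (M₀ : ℝ)) ^ h := by
      rw [mul_pow]
      exact mul_le_mul_of_nonneg_right (le_self_pow₀ (by norm_num) (by omega)) (by positivity)
    linarith
  obtain ⟨W, hWN, hWc, hWM, hWbad⟩ := exists_W L K h hh A hA β hβ M₀ (by omega) δ D hδ0 hδ1 hD0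
    hDA h1 h2
  set R := nrow A (2 ^ L) W with hR
  set bad := (Fintype.piFinset (fun _ : Fin h => R)).filter
        (fun π => ¬ GoodT L K (ncol A (2 ^ L) (univ.image π)) W) with hbaddef
  have hRpos : (0 : ℝ) < (R.card : ℝ) ^ h := by
    have : 0 < R.card := by omega
    positivity
  have hbad : 2 * M ^ h * bad.card < R.card ^ h := by
    have h3 : (2 * (M : ℝ) ^ h * bad.card) < (R.card : ℝ) ^ h := by
      calc 2 * (M : ℝ) ^ h * bad.card ≤ 2 * (M : ℝ) ^ h * (δ * (R.card : ℝ) ^ h) := by gcongr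
        _ = (R.card : ℝ) ^ h / 2 := by rw [hδ]; field_simp; ring
        _ < (R.card : ℝ) ^ h := by linarith
    exact_mod_cast h3
  obtain ⟨Z, hZR, hZc, hZ⟩ := exists_pool M h R bad
    (fun π hπ i => by
      have := (mem_filter.1 hπ).1
      exact Fintype.mem_piFinset.1 this i) hbad (by omega)
  obtain ⟨Z', hZ'Z, hZ'c, c, hc⟩ := hM₁ Z (by rw [hZc]; exact le_max_left _ _)
    (fun σ g => univ.filter (fun c : Fin J =>
      ∃ l ∈ lev L (ncol A (2 ^ L) σ) (enumW W) E.card g, l / q = c))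
  refine embed Q E hE1 hEh hQ L K q (Nat.le_add_left 1 _) le_rfl A W hWc Z' (hZ'Z.trans hZR) hZ'c.ge ?_ ?_
  · intro σ hσ hσc
    have h3 := hZ (fun i => σ.orderEmbOfFin hσc i) (σ.orderEmbOfFin hσc).injective
      (fun i => hZ'Z (hσ (Finset.orderEmbOfFin_mem σ hσc i)))
    have h4 : univ.image (fun i => σ.orderEmbOfFin hσc i) = σ := by
      have := Finset.image_orderEmbOfFin_univ σ hσc
      simp
    by_contra h5
    apply h3
    rw [hbaddef, mem_filter]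
    refine ⟨Fintype.mem_piFinset.2 (fun i =>
      hZR (hZ'Z (hσ (Finset.orderEmbOfFin_mem σ hσc i)))), ?_⟩
    rw [h4]
    exact h5
  · intro σ hσ σ' hσ' hσc hσ'c g hg
    have key : ∀ τ : Finset ℕ, τ ⊆ Z' → τ.card = h → ∀ n : ℕ,
        n ∈ (lev L (ncol A (2 ^ L) τ) (enumW W) E.card g).image (fun l => l / q) ↔
        ∃ hn : n < J, (⟨n, hn⟩ : Fin J) ∈ c ⟨g, by omega⟩ := by
      intro τ hτ hτc n
      have h3 := congrFun (hc τ hτ hτc) ⟨g, by omega⟩
      rw [← h3]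
      constructor
      · intro hn
        obtain ⟨l, hl, rfl⟩ := mem_image.1 hn
        have hlL := mem_range.1 (lev_subset_range _ _ _ _ _ hl)
        refine ⟨block_lt hJ hlL, ?_⟩
        simp only [mem_filter, mem_univ, true_and]
        exact ⟨l, hl, rfl⟩
      · rintro ⟨hn, hn'⟩
        simp only [mem_filter, mem_univ, true_and] at hn'
        obtain ⟨l, hl, hl'⟩ := hn'
        exact mem_image.2 ⟨l, hl, hl'⟩
    ext n
    rw [key σ hσ hσc n, key σ' hσ' hσ'c n]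

/-- **Matrix form.** If all but at most `h` columns of the pattern have at most `h` entries, then
matrices of side `2 ^ L` avoiding it have at most `C (2 ^ L) ^ (2 - 1/h + ε)` entries. -/
theorem matrix_theorem {a b h : ℕ} (hh : 1 ≤ h) (hb : 1 ≤ b) (Q : Fin a → Fin b → Prop)
    (E : Finset (Fin b)) (hEh : E.card ≤ h)
    (hQ : ∀ j ∉ E, {i | Q i j}.ncard ≤ h) (ε : ℝ) (hε : 0 < ε) :
    ∃ C : ℝ, 0 ≤ C ∧ ∀ (L : ℕ) (A : Finset (ℕ × ℕ)), A ⊆ range (2 ^ L) ×ˢ range (2 ^ L) →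
      ¬ MContains Q A → (A.card : ℝ) ≤ C * ((2 : ℝ) ^ L) ^ (2 - 1 / (h : ℝ) + ε) := by
  classical
  rcases Nat.eq_zero_or_pos E.card with h0 | h1
  · refine matrix_theorem_aux hh Q {⟨0, hb⟩} (by simp) (by simpa using hh) ?_ ε hε
    intro j _
    rw [card_eq_zero.1 h0] at hQ
    exact hQ j (by simp)
  · exact matrix_theorem_aux hh Q E h1 hEh hQ ε hε

end Pool.Agent.OTR
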