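import Pool.Agent.OTR.Z0
import Pool.Agent.OTR.E1
import Pool.Agent.OTR.S6
import Pool.Agent.OTR.M1

/-!
# The embedding for the non-leaf h-index theorem

If a matrix avoids the pattern, then for every tuple `ρ` of rows and every common column `y` whose
levels hit all `M` intervals there is an `h`-tuple `η` of common columns, near `y`, for which the rows
of `ρ` are badly placed inside `Tset … y η`.
-/

namespace Pool.Agent.OTR

open Finset

theorem enumW_surj (W : Finset ℕ) {u : ℕ} (hu : u ∈ W) : ∃ i < W.card, enumW W i = u := by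
  have h1 : u ∈ (univ : Finset (Fin W.card)).image (W.orderEmbOfFin rfl) := by
    rw [Finset.image_orderEmbOfFin_univ]
    exact hu
  obtain ⟨i, -, hi⟩ := mem_image.1 h1
  refine ⟨i, i.2, ?_⟩
  rw [enumW, dif_pos i.2]
  exact hi

theorem Hits.mono' {T T' : Finset ℕ} (h : T ⊆ T') {o l M : ℕ} (hT : Hits T o l M) :
    Hits T' o l M := by
  intro u hu
  obtain ⟨t, ht, h1⟩ := hT u hu
  exact ⟨t, h ht, h1⟩

theorem TL_mono {C C' : Finset ℕ} (h : C ⊆ C') (w₀ d y : ℕ) : TL C w₀ d y ⊆ TL C' w₀ d y := by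
  intro t ht
  simp only [TL, mem_filter] at ht ⊢
  obtain ⟨h1, h2, z, hz, h3⟩ := ht
  exact ⟨h1, h2, z, h hz, h3⟩

/-- the main entries of a row: the columns that have at least two entries -/
def mainRow {a b : ℕ} (Q : Fin a → Fin b → Prop) (i : Fin a) : Set (Fin b) :=
  {j | Q i j ∧ 2 ≤ {i' | Q i' j}.ncard}

theorem embed2_core {a b h : ℕ} (Q : Fin a → Fin b → Prop) (E : Finset (Fin a))
    (hE1 : 1 ≤ E.card) (hQ : ∀ i ∉ E, (mainRow Q i).ncard ≤ h)
    (L K q : ℕ) (hq : 1 ≤ q) (hK : a * q ≤ K) (A : Finset (ℕ × ℕ))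
    (W : Finset ℕ) (hW : W.card = E.card)
    (o l M y : ℕ) (hM : 1 ≤ M) (c t : ℕ → ℕ)
    (hc : ∀ u < M, ∀ w ∈ W, (w, c u) ∈ A)
    (ht : ∀ u < M, o + u * l ≤ t u ∧ t u < o + (u + 1) * l ∧ y / 2 ^ t u % 2 = 0 ∧
      c u / 2 ^ t u = y / 2 ^ t u + 1)
    (H : Finset ℕ) (hH : H ⊆ range M) (hHc : b + h ≤ H.card)
    (T : Finset ℕ → Finset ℕ)
    (hT : ∀ σ ⊆ H, σ.card = h → ∀ x ∈ T σ, (∀ u ∈ σ, (x, c u) ∈ A) ∧
      ∀ u < M, ∃ s z, o + u * l ≤ s ∧ s < o + (u + 1) * l ∧ y / 2 ^ s % 2 = 0 ∧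
        (x, z) ∈ A ∧ z / 2 ^ s = y / 2 ^ s + 1)
    (hgood : ∀ σ ⊆ H, σ.card = h → GoodT L K (T σ) W)
    (hcol : ∀ σ ⊆ H, ∀ σ' ⊆ H, σ.card = h → σ'.card = h → ∀ g ≤ E.card,
      (lev L (T σ) (enumW W) E.card g).image (fun l => l / q) =
      (lev L (T σ') (enumW W) E.card g).image (fun l => l / q)) :
    MContains Q A := by
  classical
  obtain ⟨σ₀, hσ₀, hσ₀c⟩ := exists_subset_card_eq (show h ≤ H.card by omega)
  set Bs : ℕ → Finset ℕ := fun g =>
    (lev L (T σ₀) (enumW W) E.card g).image (fun l => l / q) with hBs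
  have hBc : ∀ g ≤ E.card, a ≤ (Bs g).card := by
    intro g hg
    refine blocks_card _ a q hq ?_
    have := lev_card (hgood σ₀ hσ₀ hσ₀c) hE1 (by omega) hg
    omega
  -- the block assigned to row `r` in gap `g`
  set blk : ℕ → ℕ → ℕ := fun g r =>
    if g = 0 then enumW (Bs g) ((Bs g).card - 1 - r) else enumW (Bs g) r with hblk
  have hblk_mem : ∀ g ≤ E.card, ∀ r < a, blk g r ∈ Bs g := by
    intro g hg r hr
    have := hBc g hg
    simp only [hblk]
    split_ifs
    · exact enumW_mem _ (by omega)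
    · exact enumW_mem _ (by omega)
  have hblk0 : ∀ r r', r < r' → r' < a → blk 0 r' < blk 0 r := by
    intro r r' hrr hr'
    have := hBc 0 (by omega)
    simp only [hblk, if_true]
    exact enumW_lt _ (by omega) (by omega)
  have hblk1 : ∀ g, 1 ≤ g → g ≤ E.card → ∀ r r', r < r' → r' < a → blk g r < blk g r' := by
    intro g hg1 hg r r' hrr hr'
    have := hBc g hg
    simp only [hblk, if_neg (show g ≠ 0 by omega)]
    exact enumW_lt _ hrr (by omega)
  -- the sub-blocks of the columns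
  set v : Fin b → ℕ := fun j => enumW H j with hv
  have hvH : ∀ j, v j ∈ H := fun j => enumW_mem H (by have := j.2; omega)
  have hvM : ∀ j, v j < M := fun j => mem_range.1 (hH (hvH j))
  have hvmono : ∀ j j' : Fin b, j < j' → v j < v j' := by
    intro j j' hjj
    exact enumW_lt H hjj (by have := j'.2; omega)
  -- the rows outside E
  have hex : ∀ i : Fin a, i ∉ E → ∃ σ : Finset ℕ, ∃ x s : ℕ, σ ⊆ H ∧ σ.card = h ∧
      (∀ j, Q i j → 2 ≤ {i' | Q i' j}.ncard → v j ∈ σ) ∧ x ∈ T σ ∧ s / q = blk (gapIdx E i) i ∧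
      (gapIdx E i = 0 → enumW W 0 / 2 ^ s % 2 = 1 ∧ x / 2 ^ s + 1 = enumW W 0 / 2 ^ s) ∧
      (1 ≤ gapIdx E i → enumW W (gapIdx E i - 1) / 2 ^ s % 2 = 0 ∧
        x / 2 ^ s = enumW W (gapIdx E i - 1) / 2 ^ s + 1 ∧
        (gapIdx E i < E.card → enumW W (gapIdx E i - 1) / 2 ^ (s + 1) <
          enumW W (gapIdx E i) / 2 ^ (s + 1))) := by
    intro i hi
    have hsub : (mainRow Q i).toFinset.image v ⊆ H := by
      intro x hx
      obtain ⟨j, -, rfl⟩ := mem_image.1 hx
      exact hvH j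
    have hcard : ((mainRow Q i).toFinset.image v).card ≤ h := by
      refine card_image_le.trans ?_
      have := hQ i hi
      rwa [Set.ncard_eq_toFinset_card'] at this
    obtain ⟨σ, h1, h2, h3⟩ := exists_subsuperset_card_eq hsub hcard (by omega : h ≤ H.card)
    have hb := hblk_mem (gapIdx E i) (gapIdx_le E i) i i.2
    simp only [hBs] at hb
    rw [hcol σ₀ hσ₀ σ h2 hσ₀c h3 _ (gapIdx_le E i)] at hb
    obtain ⟨s, hs, hsq⟩ := mem_image.1 hb
    obtain ⟨x, hx, h4, h5⟩ := lev_spec hs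
    refine ⟨σ, x, s, h2, h3, ?_, hx, hsq, h4, h5⟩
    intro j hj hj2
    refine h1 (mem_image_of_mem v ?_)
    rw [Set.mem_toFinset]
    exact ⟨hj, hj2⟩
  choose! σ x s hσH hσc hσQ hxσ hsq hleft hright using hex
  have hf := placement E (enumW W) (fun i j hij hj => enumW_lt W hij (by omega)) x
    (fun j hj hjk => ?_) (fun j hj hj1 => ?_) (fun j hj j' hj' hjj hgap => ?_)
  · set f : Fin a → ℕ := fun i => if i ∈ E then enumW W (gapIdx E i) else x i with hfdef
    have hfE : ∀ i ∈ E, f i ∈ W := by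
      intro i hi
      simp only [hfdef, if_pos hi]
      exact enumW_mem W (by have := gapIdx_lt E hi; omega)
    have hfx : ∀ i, i ∉ E → f i = x i := by
      intro i hi
      simp only [hfdef, if_neg hi]
    obtain ⟨w₀, hw₀⟩ : ∃ w, w ∈ W := card_pos.1 (by omega)
    have hcolumn : ∀ j : Fin b, ∃ z τ : ℕ, o + v j * l ≤ τ ∧ τ < o + (v j + 1) * l ∧
        y / 2 ^ τ % 2 = 0 ∧ z / 2 ^ τ = y / 2 ^ τ + 1 ∧ (∃ u, (u, z) ∈ A) ∧
        ∀ i, Q i j → (f i, z) ∈ A := by
      intro j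
      obtain ⟨e1, e2, e3, e4⟩ := ht (v j) (hvM j)
      by_cases hmain : 2 ≤ {i' | Q i' j}.ncard
      · refine ⟨c (v j), t (v j), e1, e2, e3, e4, ⟨w₀, hc _ (hvM j) _ hw₀⟩, ?_⟩
        intro i hij
        by_cases hi : i ∈ E
        · exact hc _ (hvM j) _ (hfE i hi)
        · rw [hfx i hi]
          exact (hT (σ i) (hσH i hi) (hσc i hi) _ (hxσ i hi)).1 _ (hσQ i hi j hij hmain)
      · have huniq : ∀ i i', Q i j → Q i' j → i = i' := by
          intro i i' h1 h2
          by_contra hne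
          apply hmain
          have h3 : ({i, i'} : Set (Fin a)) ⊆ {i' | Q i' j} := by
            intro z hz
            rcases hz with rfl | hz
            · exact h1
            · rw [Set.mem_singleton_iff] at hz
              rw [hz]
              exact h2
          have h4 := Set.ncard_le_ncard h3 (Set.toFinite _)
          rwa [Set.ncard_pair hne] at h4
        by_cases hsome : ∃ i, i ∉ E ∧ Q i j
        · obtain ⟨i, hi, hij⟩ := hsome
          obtain ⟨τ, z, h1, h2, h3, h4, h5⟩ :=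
            (hT (σ i) (hσH i hi) (hσc i hi) _ (hxσ i hi)).2 (v j) (hvM j)
          refine ⟨z, τ, h1, h2, h3, h5, ⟨x i, h4⟩, ?_⟩
          intro i' hi'
          rw [huniq i' i hi' hij, hfx i hi]
          exact h4
        · push Not at hsome
          refine ⟨c (v j), t (v j), e1, e2, e3, e4, ⟨w₀, hc _ (hvM j) _ hw₀⟩, ?_⟩
          intro i hij
          have hi : i ∈ E := by
            by_contra hi
            exact hsome i hi hij
          exact hc _ (hvM j) _ (hfE i hi)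
    choose g τ hg1 hg2 hg3 hg4 hg5 hg6 using hcolumn
    refine ⟨f, g, hf, ?_, ?_, hg5, fun i j hij => hg6 j i hij⟩
    · intro j j' hjj
      refine right_order y (g j) (g j') (τ j) (τ j') ?_ (hg3 j) (hg4 j) (hg4 j')
      have h1 : (v j + 1) * l ≤ v j' * l := Nat.mul_le_mul_right l (hvmono j j' hjj)
      have h2 := hg2 j
      have h3 := hg1 j'
      omega
    · intro i
      by_cases hi : i ∈ E
      · exact ⟨c 0, hc 0 (by omega) _ (hfE i hi)⟩
      · rw [hfx i hi]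
        obtain ⟨τ, z, -, -, -, h4, -⟩ :=
          (hT (σ i) (hσH i hi) (hσc i hi) _ (hxσ i hi)).2 0 (by omega)
        exact ⟨z, h4⟩
  · -- x j < w (gapIdx E j)
    rcases Nat.eq_zero_or_pos (gapIdx E j) with h0 | h1
    · obtain ⟨h2, h3⟩ := hleft j hj h0
      rw [h0]
      exact left_lt _ _ _ h3
    · obtain ⟨h2, h3, h4⟩ := hright j hj h1
      exact gap_lt _ _ _ _ h2 h3 (h4 hjk)
  · obtain ⟨h2, h3, h4⟩ := hright j hj hj1
    exact right_lt _ _ _ h2 h3
  · -- the same gap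
    have hjj' : (j : ℕ) < j' := hjj
    rcases Nat.eq_zero_or_pos (gapIdx E j) with h0 | h1
    · obtain ⟨h2, h3⟩ := hleft j hj h0
      have h0' : gapIdx E j' = 0 := by omega
      obtain ⟨h2', h3'⟩ := hleft j' hj' h0'
      have hlt : s j' < s j := by
        by_contra hcon
        have e1 := hsq j hj
        have e2 := hsq j' hj'
        rw [h0] at e1
        rw [h0'] at e2
        have e3 := hblk0 j j' hjj' j'.2
        have : s j / q ≤ s j' / q := Nat.div_le_div_right (by omega)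
        omega
      exact left_order _ _ _ _ _ hlt h2' h3' h3
    · obtain ⟨h2, h3, -⟩ := hright j hj h1
      obtain ⟨h2', h3', -⟩ := hright j' hj' (by omega)
      have hlt : s j < s j' := by
        by_contra hcon
        have e1 := hsq j hj
        have e2 := hsq j' hj'
        rw [← hgap] at e2
        have e3 := hblk1 (gapIdx E j) h1 (gapIdx_le E j) j j' hjj' j'.2
        have : s j' / q ≤ s j / q := Nat.div_le_div_right (by omega)
        omega
      rw [← hgap] at h3'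
      exact right_order _ _ _ _ _ hlt h2 h3 h3'

/-- **Embedding.** `M` is a Ramsey number. -/
theorem embed2 {a b h p : ℕ} (Q : Fin a → Fin b → Prop) (E : Finset (Fin a)) (hEp : E.card = p)
    (hp : 1 ≤ p) (hQ : ∀ i ∉ E, (mainRow Q i).ncard ≤ h) (J M : ℕ) (hJ : 1 ≤ J) (hM1 : 1 ≤ M)
    (hM : ∀ Z : Finset ℕ, M ≤ Z.card → ∀ col : Finset ℕ → (Fin (p + 1) → Finset (Fin J)),
      ∃ Z' ⊆ Z, Z'.card = b + h ∧ ∃ k, ∀ σ ⊆ Z', σ.card = h → col σ = k)
    (L : ℕ) (A : Finset (ℕ × ℕ)) (hnot : ¬ MContains Q A)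
    (ρ : Fin p → ℕ) (hρ : ∀ k, ρ k < 2 ^ L) (w₀ d o l y : ℕ)
    (hhit : Hits (TL (ncol A (2 ^ L) (univ.image ρ)) w₀ d y) o l M) :
    ∃ η : Fin h → ℕ, (∀ i, η i ∈ ncol A (2 ^ L) (univ.image ρ) ∧
        η i / 2 ^ (w₀ + d) = y / 2 ^ (w₀ + d)) ∧
      (∀ k, ρ k ∈ Tset A L w₀ d o l M y η) ∧
      ¬ (Function.Injective ρ ∧
        GoodT L (a * (L / J + 1)) (Tset A L w₀ d o l M y η) (univ.image ρ)) := by
  classical
  by_contra hcon
  apply hnot
  -- the columns `c u`
  have hcu : ∀ u < M, ∃ c t : ℕ, c ∈ ncol A (2 ^ L) (univ.image ρ) ∧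
      c / 2 ^ (w₀ + d) = y / 2 ^ (w₀ + d) ∧ o + u * l ≤ t ∧ t < o + (u + 1) * l ∧
      y / 2 ^ t % 2 = 0 ∧ c / 2 ^ t = y / 2 ^ t + 1 := by
    intro u hu
    obtain ⟨t, ht, h1, h2⟩ := hhit u hu
    simp only [TL, mem_filter, mem_Ico] at ht
    obtain ⟨⟨h3, h4⟩, h5, c, hc, h6⟩ := ht
    refine ⟨c, t, hc, ?_, h1, h2, h5, h6⟩
    have h7 := right_parent y c t h5 h6
    obtain ⟨m, hm⟩ : ∃ m, w₀ + d = (t + 1) + m := ⟨w₀ + d - (t + 1), by omega⟩
    rw [hm, pow_add, ← Nat.div_div_eq_div_mul, ← Nat.div_div_eq_div_mul, h7]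
  choose! c t hcC hcV ht1 ht2 ht3 ht4 using hcu
  -- the tuples
  set η : Finset ℕ → Fin h → ℕ := fun σ i => c (enumW σ i) with hη
  set T : Finset ℕ → Finset ℕ := fun σ => Tset A L w₀ d o l M y (η σ) with hT
  have hgoodσ : ∀ σ ⊆ range M, σ.card = h → Function.Injective ρ ∧
      GoodT L (a * (L / J + 1)) (T σ) (univ.image ρ) := by
    intro σ hσ hσc
    by_contra h1
    apply hcon
    have hmem : ∀ i : Fin h, enumW σ i < M := fun i =>
      mem_range.1 (hσ (enumW_mem σ (by rw [hσc]; exact i.2)))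
    refine ⟨η σ, fun i => ⟨hcC _ (hmem i), hcV _ (hmem i)⟩, ?_, h1⟩
    intro k
    simp only [Tset, mem_filter]
    refine ⟨?_, ?_⟩
    · simp only [nrow, mem_filter, mem_range]
      refine ⟨hρ k, ?_⟩
      intro w hw
      obtain ⟨i, -, rfl⟩ := mem_image.1 hw
      have h2 := hcC _ (hmem i)
      simp only [ncol, mem_filter] at h2
      exact h2.2 _ (mem_image_of_mem ρ (mem_univ k))
    · refine Hits.mono' (TL_mono ?_ _ _ _) hhit
      intro z hz
      simp only [ncol, mem_filter] at hz ⊢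
      refine ⟨hz.1, ?_⟩
      intro u hu
      rw [mem_singleton.1 hu]
      exact hz.2 _ (mem_image_of_mem ρ (mem_univ k))
  obtain ⟨H, hH, hHc, κ, hκ⟩ := hM (range M) (by rw [card_range])
    (fun σ g => univ.filter (fun c : Fin J =>
      ∃ l ∈ lev L (T σ) (enumW (univ.image ρ)) p g, l / (L / J + 1) = c))
  -- `ρ` is injective
  obtain ⟨σ₁, hσ₁, hσ₁c⟩ := exists_subset_card_eq (show h ≤ H.card by omega)
  have hinj := (hgoodσ σ₁ (hσ₁.trans hH) hσ₁c).1
  have hWc : (univ.image ρ).card = E.card := by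
    rw [card_image_of_injective _ hinj, card_univ, Fintype.card_fin, hEp]
  refine embed2_core Q E (by omega) hQ L (a * (L / J + 1)) (L / J + 1) (Nat.le_add_left 1 _) le_rfl A
    (univ.image ρ) hWc o l M y hM1 c t ?_ ?_ H hH hHc.ge T ?_ ?_ ?_
  · intro u hu w hw
    have h2 := hcC u hu
    simp only [ncol, mem_filter] at h2
    exact h2.2 w hw
  · intro u hu
    exact ⟨ht1 u hu, ht2 u hu, ht3 u hu, ht4 u hu⟩
  · intro σ hσ hσc x hx
    simp only [hT, Tset, mem_filter, nrow] at hx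
    obtain ⟨⟨-, h1⟩, h2⟩ := hx
    refine ⟨?_, ?_⟩
    · intro u hu
      obtain ⟨i, hi, hiu⟩ := enumW_surj σ hu
      apply h1
      rw [mem_image]
      refine ⟨⟨i, by omega⟩, mem_univ _, ?_⟩
      simp only [hη]
      rw [hiu]
    · intro u hu
      obtain ⟨s, hs, h3, h4⟩ := h2 u hu
      simp only [TL, mem_filter, mem_Ico] at hs
      obtain ⟨-, h5, z, hz, h6⟩ := hs
      refine ⟨s, z, h3, h4, h5, ?_, h6⟩
      simp only [ncol, mem_filter] at hz
      exact hz.2 x (mem_singleton_self x)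
  · intro σ hσ hσc
    exact (hgoodσ σ (hσ.trans hH) hσc).2
  · intro σ hσ σ' hσ' hσc hσ'c g hg
    rw [hEp] at hg ⊢
    have key : ∀ τ : Finset ℕ, τ ⊆ H → τ.card = h → ∀ n : ℕ,
        n ∈ (lev L (T τ) (enumW (univ.image ρ)) p g).image (fun l => l / (L / J + 1)) ↔
        ∃ hn : n < J, (⟨n, hn⟩ : Fin J) ∈ κ ⟨g, by omega⟩ := by
      intro τ hτ hτc n
      have h3 := congrFun (hκ τ hτ hτc) ⟨g, by omega⟩
      rw [← h3]
      constructor
      · intro hn
        obtain ⟨l, hl, rfl⟩ := mem_image.1 hn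
        have hlL := mem_range.1 (lev_subset_range _ _ _ _ _ hl)
        refine ⟨block_lt hJ hlL, ?_⟩
        simp only [mem_filter, mem_univ, true_and]
        exact ⟨l, hl, rfl⟩
      · rintro ⟨hn, hn'⟩
        simp only [mem_filter, mem_univ, true_and] at hn'
        obtain ⟨l, hl, hl'⟩ := hn'
        exact mem_image.2 ⟨l, hl, hl'⟩
    ext n
    rw [key σ hσ hσc n, key σ' hσ' hσ'c n]

end Pool.Agent.OTR
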