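import Pool.Agent.OTR.Defs

/-!
# [OTR-S9] from ordered graphs to matrices

PROOF. Put `Q i j := P.Adj (castAdd b i) (natAdd a j)`, and let `G` on `Fin n` avoid `P`.
Let `E : Finset (ℕ × ℕ)` be the set of all pairs `(x, y)` with `x < y < n` and `G.Adj x y`.
For `s L : ℕ` let `e s L` be the number of pairs `(x, y) ∈ E` with `s ≤ x` and `y < s + 2 ^ L`.
Claim: `e s L ≤ C₁ * (2 ^ L) ^ α` with `C₁ = C / (2 ^ α - 2)`; induction on `L`.
`e s 0 = 0` (as `x < y`).  `e s (L+1) = e s L + e (s + 2 ^ L) L + |A|` (`≤` suffices) where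
`A = {(x - s, y - s - 2 ^ L) : (x, y) ∈ E, s ≤ x < s + 2 ^ L ≤ y < s + 2 ^ (L + 1)}`, a subset of
`range (2 ^ L) ×ˢ range (2 ^ L)` (the map is injective on these pairs). `A` does not contain `Q`: from
`f, g` as in `MContains` define `φ : Fin (a + b) → Fin n` by `φ (castAdd b i) = s + f i` and
`φ (natAdd a j) = s + 2 ^ L + g j` (`Fin.addCases` / `Fin.append`); these values are `< n` because
the row `f i` and the column `g j` of `A` are nonempty, i.e. they are endpoints of edges of `G`;
`f i < 2 ^ L` for the same reason, so `φ` is strictly monotone; every edge `x < y` of `P` has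
`x < a ≤ y` by `hP`, so it goes to an edge of `G`. Hence `|A| ≤ C (2 ^ L) ^ α` and
`e s (L+1) ≤ (2 C₁ + C) (2 ^ L) ^ α = C₁ (2 ^ (L + 1)) ^ α`.
The theorem: for `n ≥ 1` take `L` with `n ≤ 2 ^ L < 2 n` (`Nat.clog 2 n`), then
`G.edgeSet.ncard = |E| = e 0 L ≤ C₁ (2 ^ L) ^ α ≤ C₁ 2 ^ α n ^ α`; for `n = 0` there are no edges. Then
`exLt P n ≤ C' n ^ α` with `C' = C₁ * 2 ^ α` by `csSup_le'`-type arguments (the set is a set of natural
numbers; if it is empty, `sSup ∅ = 0`; otherwise use `csSup_le` after bounding by the natural number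
`⌊C' n ^ α⌋₊`, or note that `sSup` of a nonempty bounded set of naturals is attained
(`Nat.sSup_mem`)).
-/

namespace Pool.Agent.OTR

open Finset

open Classical in
/-- the edges as pairs of numbers -/
noncomputable def s9E {n : ℕ} (G : SimpleGraph (Fin n)) : Finset (ℕ × ℕ) :=
  (range n ×ˢ range n).filter (fun q => ∃ x y : Fin n, G.Adj x y ∧ x < y ∧ x.val = q.1 ∧ y.val = q.2)

open Classical in
/-- the edges inside the interval `[s, s + 2 ^ L)` -/
noncomputable def s9e {n : ℕ} (G : SimpleGraph (Fin n)) (s L : ℕ) : Finset (ℕ × ℕ) :=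
  (s9E G).filter (fun q => s ≤ q.1 ∧ q.2 < s + 2 ^ L)

open Classical in
/-- the matrix of the edges from the left half to the right half -/
noncomputable def s9A {n : ℕ} (G : SimpleGraph (Fin n)) (s L : ℕ) : Finset (ℕ × ℕ) :=
  (range (2 ^ L) ×ˢ range (2 ^ L)).filter (fun q => (s + q.1, s + 2 ^ L + q.2) ∈ s9E G)

theorem s9_mem {n : ℕ} (G : SimpleGraph (Fin n)) (x y : ℕ) : (x, y) ∈ s9E G ↔
    ∃ (hx : x < n) (hy : y < n), G.Adj ⟨x, hx⟩ ⟨y, hy⟩ ∧ x < y := by
  classical
  unfold s9E
  rw [mem_filter, mem_product, mem_range, mem_range]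
  constructor
  · rintro ⟨⟨h1, h2⟩, a, b, h3, h4, h5, h6⟩
    simp only at h5 h6
    subst h5
    subst h6
    exact ⟨h1, h2, h3, h4⟩
  · rintro ⟨hx, hy, h3, h4⟩
    exact ⟨⟨hx, hy⟩, _, _, h3, h4, rfl, rfl⟩

theorem s9_lt {n : ℕ} (G : SimpleGraph (Fin n)) (q : ℕ × ℕ) (hq : q ∈ s9E G) : q.1 < q.2 := by
  obtain ⟨_, _, _, h⟩ := (s9_mem G q.1 q.2).1 hq
  exact h

theorem s9_split {n : ℕ} (G : SimpleGraph (Fin n)) (s L : ℕ) :
    (s9e G s (L + 1)).card ≤ (s9e G s L).card + (s9e G (s + 2 ^ L) L).card + (s9A G s L).card := by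
  classical
  set X := (s9e G s (L + 1)).filter (fun q => q.2 < s + 2 ^ L) with hX
  set Y := (s9e G s (L + 1)).filter (fun q => ¬ q.2 < s + 2 ^ L) with hY
  have h0 : X.card + Y.card = (s9e G s (L + 1)).card := card_filter_add_card_filter_not _
  have h1 : X.card ≤ (s9e G s L).card := by
    refine card_le_card fun q hq => ?_
    rw [hX, s9e, mem_filter, mem_filter] at hq
    rw [s9e, mem_filter]
    exact ⟨hq.1.1, hq.1.2.1, hq.2⟩
  have h2 : Y.card ≤ (s9e G (s + 2 ^ L) L).card + (s9A G s L).card := by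
    set Y1 := Y.filter (fun q => s + 2 ^ L ≤ q.1) with hY1
    set Y2 := Y.filter (fun q => ¬ s + 2 ^ L ≤ q.1) with hY2
    have h3 : Y1.card + Y2.card = Y.card := card_filter_add_card_filter_not _
    have h4 : Y1.card ≤ (s9e G (s + 2 ^ L) L).card := by
      refine card_le_card fun q hq => ?_
      rw [hY1, hY, s9e, mem_filter, mem_filter, mem_filter] at hq
      rw [s9e, mem_filter]
      refine ⟨hq.1.1.1, hq.2, ?_⟩
      have := hq.1.1.2.2
      rw [pow_succ] at this
      omega
    have h5 : Y2.card ≤ (s9A G s L).card := by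
      refine card_le_card_of_injOn (fun q => (q.1 - s, q.2 - (s + 2 ^ L))) ?_ ?_
      · intro q hq
        rw [mem_coe, hY2, hY, s9e, mem_filter, mem_filter, mem_filter] at hq
        obtain ⟨⟨⟨h6, h7, h8⟩, h9⟩, h10⟩ := hq
        rw [pow_succ] at h8
        rw [mem_coe, s9A, mem_filter, mem_product, mem_range, mem_range]
        refine ⟨⟨?_, ?_⟩, ?_⟩
        · simp only
          omega
        · simp only
          omega
        · have e1 : s + (q.1 - s) = q.1 := by omega
          have e2 : s + 2 ^ L + (q.2 - (s + 2 ^ L)) = q.2 := by omega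
          simp only [e1, e2]
          exact h6
      · intro q hq q' hq' he
        rw [mem_coe, hY2, hY, s9e, mem_filter, mem_filter, mem_filter] at hq hq'
        obtain ⟨⟨⟨h6, h7, h8⟩, h9⟩, h10⟩ := hq
        obtain ⟨⟨⟨h6', h7', h8'⟩, h9'⟩, h10'⟩ := hq'
        simp only [Prod.mk.injEq] at he
        refine Prod.ext ?_ ?_ <;> omega
    omega
  omega

theorem s9_avoid {a b : ℕ} (P : SimpleGraph (Fin (a + b)))
    (hP : ∀ x y : Fin (a + b), P.Adj x y → x < y → x.val < a ∧ a ≤ y.val)
    {n : ℕ} (G : SimpleGraph (Fin n)) (hG : ¬ OContains P G) (s L : ℕ) :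
    ¬ MContains (fun (i : Fin a) (j : Fin b) => P.Adj (Fin.castAdd b i) (Fin.natAdd a j)) (s9A G s L) := by
  rintro ⟨f, g, hf, hg, h1, h2, h3⟩
  apply hG
  have hfn : ∀ i, f i < 2 ^ L ∧ s + f i < n := by
    intro i
    obtain ⟨w, hw⟩ := h1 i
    rw [s9A, mem_filter, mem_product, mem_range, s9_mem] at hw
    exact ⟨hw.1.1, hw.2.1⟩
  have hgn : ∀ j, s + 2 ^ L + g j < n := by
    intro j
    obtain ⟨u, hu⟩ := h2 j
    rw [s9A, mem_filter, mem_product, mem_range, s9_mem] at hu
    exact hu.2.2.1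
  set φ : Fin (a + b) → Fin n := Fin.addCases (fun i => ⟨s + f i, (hfn i).2⟩)
    (fun j => ⟨s + 2 ^ L + g j, hgn j⟩) with hφ
  have e1 : ∀ i, φ (Fin.castAdd b i) = ⟨s + f i, (hfn i).2⟩ := fun i => by
    simp only [hφ, Fin.addCases_left]
  have e2 : ∀ j, φ (Fin.natAdd a j) = ⟨s + 2 ^ L + g j, hgn j⟩ := fun j => by
    simp only [hφ, Fin.addCases_right]
  have hadj : ∀ i j, P.Adj (Fin.castAdd b i) (Fin.natAdd a j) →
      G.Adj (φ (Fin.castAdd b i)) (φ (Fin.natAdd a j)) := by
    intro i j hij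
    have h4 := h3 i j hij
    rw [s9A, mem_filter, s9_mem] at h4
    obtain ⟨-, hx, hy, h5, -⟩ := h4
    rw [e1, e2]
    exact h5
  refine ⟨φ, ?_, ?_⟩
  · intro x y hxy
    induction x using Fin.addCases with
    | left i =>
      induction y using Fin.addCases with
      | left i' =>
        rw [e1, e1, Fin.mk_lt_mk]
        have h4 : i < i' := hxy
        have := hf h4
        omega
      | right j =>
        rw [e1, e2, Fin.mk_lt_mk]
        have := (hfn i).1
        omega
    | right j =>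
      induction y using Fin.addCases with
      | left i' =>
        exfalso
        have h4 : (Fin.natAdd a j).val < (Fin.castAdd b i').val := hxy
        rw [Fin.val_natAdd, Fin.val_castAdd] at h4
        have := i'.2
        omega
      | right j' =>
        rw [e2, e2, Fin.mk_lt_mk]
        have h4 : (Fin.natAdd a j).val < (Fin.natAdd a j').val := hxy
        rw [Fin.val_natAdd, Fin.val_natAdd] at h4
        have h5 : j < j' := by
          rw [Fin.lt_def]
          omega
        have := hg h5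
        omega
  · have key : ∀ x y : Fin (a + b), P.Adj x y → x < y → G.Adj (φ x) (φ y) := by
      intro x y hxy hlt
      obtain ⟨h4, h5⟩ := hP x y hxy hlt
      induction x using Fin.addCases with
      | left i =>
        induction y using Fin.addCases with
        | left i' =>
          rw [Fin.val_castAdd] at h5
          have := i'.2
          omega
        | right j => exact hadj i j hxy
      | right j =>
        rw [Fin.val_natAdd] at h4
        omega
    intro x y hxy
    rcases lt_trichotomy x y with h | h | h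
    · exact key x y hxy h
    · exact absurd h hxy.ne
    · exact (key y x hxy.symm h).symm

theorem s9_ncard {n : ℕ} (G : SimpleGraph (Fin n)) (L : ℕ) (hn : n ≤ 2 ^ L) :
    G.edgeSet.ncard ≤ (s9e G 0 L).card := by
  classical
  rw [← Set.ncard_coe_finset]
  refine Set.ncard_le_ncard_of_injOn (fun e : Sym2 (Fin n) => ((e.inf : Fin n).val, (e.sup : Fin n).val))
    ?_ ?_ (Finset.finite_toSet _)
  · intro e he
    induction e using Sym2.inductionOn with | hf x y => ?_
    rw [SimpleGraph.mem_edgeSet] at he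
    rw [mem_coe, s9e, mem_filter]
    have h2 : ((s(x, y).inf : Fin n).val, (s(x, y).sup : Fin n).val) ∈ s9E G := by
      rw [s9_mem, Sym2.inf_mk, Sym2.sup_mk]
      rcases lt_trichotomy x y with h | h | h
      · rw [inf_eq_left.2 h.le, sup_eq_right.2 h.le]
        exact ⟨x.2, y.2, he, h⟩
      · exact absurd h he.ne
      · rw [inf_eq_right.2 h.le, sup_eq_left.2 h.le]
        exact ⟨y.2, x.2, he.symm, h⟩
    refine ⟨h2, Nat.zero_le _, ?_⟩
    have := (s(x, y).sup : Fin n).2
    simp only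
    omega
  · intro e he e' he' heq
    induction e using Sym2.inductionOn with | hf x y => ?_
    induction e' using Sym2.inductionOn with | hf z w => ?_
    simp only [Sym2.inf_mk, Sym2.sup_mk, Prod.mk.injEq] at heq
    rw [Sym2.eq_iff]
    obtain ⟨h1, h2⟩ := heq
    have h1' := Fin.ext h1
    have h2' := Fin.ext h2
    rcases le_total x y with h | h <;> rcases le_total z w with h' | h'
    · rw [inf_eq_left.2 h, inf_eq_left.2 h'] at h1'
      rw [sup_eq_right.2 h, sup_eq_right.2 h'] at h2'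
      exact Or.inl ⟨h1', h2'⟩
    · rw [inf_eq_left.2 h, inf_eq_right.2 h'] at h1'
      rw [sup_eq_right.2 h, sup_eq_left.2 h'] at h2'
      exact Or.inr ⟨h1', h2'⟩
    · rw [inf_eq_right.2 h, inf_eq_left.2 h'] at h1'
      rw [sup_eq_left.2 h, sup_eq_right.2 h'] at h2'
      exact Or.inr ⟨h2', h1'⟩
    · rw [inf_eq_right.2 h, inf_eq_right.2 h'] at h1'
      rw [sup_eq_left.2 h, sup_eq_left.2 h'] at h2'
      exact Or.inl ⟨h2', h1'⟩

theorem exLt_le_of_matrix {a b : ℕ} (P : SimpleGraph (Fin (a + b)))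
    (hP : ∀ x y : Fin (a + b), P.Adj x y → x < y → x.val < a ∧ a ≤ y.val)
    (α C : ℝ) (hα : 1 < α) (hC : 0 ≤ C)
    (hmat : ∀ (L : ℕ) (A : Finset (ℕ × ℕ)), A ⊆ range (2 ^ L) ×ˢ range (2 ^ L) →
      ¬ MContains (fun (i : Fin a) (j : Fin b) => P.Adj (Fin.castAdd b i) (Fin.natAdd a j)) A →
      (A.card : ℝ) ≤ C * ((2 : ℝ) ^ L) ^ α) :
    ∃ C' : ℝ, 0 ≤ C' ∧ ∀ n : ℕ, (exLt P n : ℝ) ≤ C' * (n : ℝ) ^ α := by
  set γ : ℝ := (2 : ℝ) ^ α with hγ
  have hγ2 : 2 < γ := by
    have h := Real.rpow_lt_rpow_of_exponent_lt (x := 2) one_lt_two hα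
    rwa [Real.rpow_one] at h
  set C₁ : ℝ := C / (γ - 2) with hC₁
  have hC₁0 : 0 ≤ C₁ := div_nonneg hC (by linarith)
  have hC₁e : 2 * C₁ + C = C₁ * γ := by
    have : C₁ * (γ - 2) = C := div_mul_cancel₀ C (by linarith : γ - 2 ≠ 0)
    linarith
  have hpow : ∀ L : ℕ, ((2 : ℝ) ^ (L + 1)) ^ α = γ * ((2 : ℝ) ^ L) ^ α := by
    intro L
    rw [pow_succ, Real.mul_rpow (by positivity) (by norm_num), mul_comm]
  have hclaim : ∀ (n : ℕ) (G : SimpleGraph (Fin n)), ¬ OContains P G → ∀ (L s : ℕ),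
      ((s9e G s L).card : ℝ) ≤ C₁ * ((2 : ℝ) ^ L) ^ α := by
    intro n G hG L
    induction L with
    | zero =>
      intro s
      have h0 : s9e G s 0 = ∅ := by
        rw [s9e, filter_eq_empty_iff]
        rintro q hq ⟨h1, h2⟩
        have := s9_lt G q hq
        rw [pow_zero] at h2
        omega
      rw [h0, card_empty, Nat.cast_zero]
      positivity
    | succ L ih =>
      intro s
      have h1 : ((s9e G s (L + 1)).card : ℝ) ≤ (s9e G s L).card + (s9e G (s + 2 ^ L) L).card +
          (s9A G s L).card := by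
        exact_mod_cast s9_split G s L
      have h2 := ih s
      have h3 := ih (s + 2 ^ L)
      have h4 := hmat L (s9A G s L) (filter_subset _ _) (s9_avoid P hP G hG s L)
      rw [hpow]
      have h5 : C₁ * (γ * ((2 : ℝ) ^ L) ^ α) = (2 * C₁ + C) * ((2 : ℝ) ^ L) ^ α := by
        rw [hC₁e]
        ring
      rw [h5]
      linarith
  refine ⟨C₁ * γ, by positivity, fun n => ?_⟩
  have hbound : ∀ G : SimpleGraph (Fin n), ¬ OContains P G →
      (G.edgeSet.ncard : ℝ) ≤ C₁ * γ * (n : ℝ) ^ α := by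
    intro G hG
    rcases Nat.eq_zero_or_pos n with h0 | h0
    · subst h0
      have h1 : G.edgeSet = ∅ := by
        rw [Set.eq_empty_iff_forall_notMem]
        intro e _
        induction e using Sym2.inductionOn with | hf x y => exact x.elim0
      rw [h1, Set.ncard_empty, Nat.cast_zero]
      positivity
    · set L := Nat.clog 2 n with hL
      have h1 : n ≤ 2 ^ L := Nat.le_pow_clog (by norm_num) n
      have h2 : 2 ^ L ≤ 2 * n := by
        rcases Nat.lt_or_ge n 2 with h3 | h3
        · have h4 : n = 1 := by omega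
          rw [hL, h4, Nat.clog_one_right]
          norm_num
        · have h4 := Nat.pow_pred_clog_lt_self (b := 2) (by norm_num) (x := n) (by omega)
          have h5 : 1 ≤ Nat.clog 2 n := Nat.clog_pos (by norm_num) h3
          have h6 : 2 ^ L = 2 * 2 ^ (L - 1) := by
            rw [← pow_succ', Nat.sub_add_cancel h5]
          rw [h6]
          have h7 : 2 ^ (L - 1) < n := h4
          omega
      have h3 : (G.edgeSet.ncard : ℝ) ≤ ((s9e G 0 L).card : ℝ) := by
        exact_mod_cast s9_ncard G L h1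
      have h4 := hclaim n G hG L 0
      have h5 : ((2 : ℝ) ^ L) ^ α ≤ γ * (n : ℝ) ^ α := by
        rw [hγ, ← Real.mul_rpow (by norm_num) (Nat.cast_nonneg _)]
        refine Real.rpow_le_rpow (by positivity) ?_ (by linarith)
        exact_mod_cast h2
      calc (G.edgeSet.ncard : ℝ) ≤ C₁ * ((2 : ℝ) ^ L) ^ α := h3.trans h4
        _ ≤ C₁ * (γ * (n : ℝ) ^ α) := mul_le_mul_of_nonneg_left h5 hC₁0
        _ = C₁ * γ * (n : ℝ) ^ α := by ring
  unfold exLt
  set Z := {m | ∃ G : SimpleGraph (Fin n), ¬ OContains P G ∧ G.edgeSet.ncard = m} with hZ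
  rcases Z.eq_empty_or_nonempty with h | h
  · rw [h, csSup_empty]
    simp only [bot_eq_zero', Nat.cast_zero]
    positivity
  · have hbdd : BddAbove Z := by
      refine ⟨⌊C₁ * γ * (n : ℝ) ^ α⌋₊, ?_⟩
      rintro m ⟨G, hG, rfl⟩
      exact Nat.le_floor (hbound G hG)
    obtain ⟨G, hG, hm⟩ := Nat.sSup_mem h hbdd
    rw [← hm]
    exact hbound G hG

end Pool.Agent.OTR
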