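import Pool.Agent.OTR.M1
import Pool.Agent.OTR.S9

/-!
# The h-index theorem for ordered bipartite graphs
-/

namespace Pool.Agent.OTR

open Finset

/-- `P` is ordered bipartite with first class the vertices `< m` and second class the vertices
`≥ m`: every edge joins the two classes. -/
def OrderedBipartite {k : ℕ} (P : SimpleGraph (Fin k)) (m : ℕ) : Prop :=
  ∀ x y : Fin k, P.Adj x y → x < y → x.val < m ∧ m ≤ y.val

/-- All but at most `h` vertices of the first class have degree at most `h`, or all but at most `h`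
vertices of the second class have degree at most `h`. -/
def HIndexLe {k : ℕ} (P : SimpleGraph (Fin k)) (m h : ℕ) : Prop :=
  (∃ E : Finset (Fin k), E.card ≤ h ∧
    ∀ x, x ∉ E → x.val < m → (P.neighborSet x).ncard ≤ h) ∨
  (∃ E : Finset (Fin k), E.card ≤ h ∧
    ∀ x, x ∉ E → m ≤ x.val → (P.neighborSet x).ncard ≤ h)

theorem mcontains_transpose {a b : ℕ} (Q : Fin a → Fin b → Prop) (A : Finset (ℕ × ℕ))
    (h : MContains (fun (j : Fin b) (i : Fin a) => Q i j) (A.image Prod.swap)) :
    MContains Q A := by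
  obtain ⟨f, g, hf, hg, h1, h2, h3⟩ := h
  have key : ∀ x y : ℕ, (x, y) ∈ A.image Prod.swap ↔ (y, x) ∈ A := by
    intro x y
    rw [mem_image]
    constructor
    · rintro ⟨⟨u, v⟩, huv, h⟩
      simp only [Prod.swap_prod_mk, Prod.mk.injEq] at h
      rw [← h.1, ← h.2]
      exact huv
    · intro h
      exact ⟨(y, x), h, rfl⟩
  refine ⟨g, f, hg, hf, fun i => ?_, fun j => ?_, fun i j hij => ?_⟩
  · obtain ⟨u, hu⟩ := h2 i
    exact ⟨u, (key _ _).1 hu⟩
  · obtain ⟨w, hw⟩ := h1 j
    exact ⟨w, (key _ _).1 hw⟩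
  · exact (key _ _).1 (h3 j i hij)

theorem upper_aux {a b h : ℕ} (hh : 1 ≤ h) (ha : 1 ≤ a) (hb : 1 ≤ b)
    (P : SimpleGraph (Fin (a + b))) (hP : OrderedBipartite P a) (hH : HIndexLe P a h)
    (ε : ℝ) (hε : 0 < ε) :
    ∃ C : ℝ, 0 ≤ C ∧ ∀ n : ℕ, (exLt P n : ℝ) ≤ C * (n : ℝ) ^ (2 - 1 / (h : ℝ) + ε) := by
  classical
  have hhR : (1 : ℝ) ≤ h := by exact_mod_cast hh
  have hinv : 1 / (h : ℝ) ≤ 1 := by
    rw [div_le_one (by linarith)]
    exact hhR
  have hα : 1 < 2 - 1 / (h : ℝ) + ε := by linarith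
  rcases hH with ⟨E, hE, hdeg⟩ | ⟨E, hE, hdeg⟩
  · -- exceptional vertices in the first class: transpose
    have hQ : ∀ i ∉ (univ.filter (fun i : Fin a => Fin.castAdd b i ∈ E)),
        {j : Fin b | P.Adj (Fin.castAdd b i) (Fin.natAdd a j)}.ncard ≤ h := by
      intro i hi
      simp only [mem_filter, mem_univ, true_and] at hi
      refine le_trans ?_ (hdeg _ hi (by simp))
      refine Set.ncard_le_ncard_of_injOn (fun j => Fin.natAdd a j) (fun j hj => hj) ?_ ?_
      · intro j _ j' _ hjj
        exact Fin.natAdd_injective _ _ hjj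
      · exact Set.toFinite _
    have hEc : (univ.filter (fun i : Fin a => Fin.castAdd b i ∈ E)).card ≤ h := by
      refine le_trans ?_ hE
      refine card_le_card_of_injOn (fun i => Fin.castAdd b i) ?_ ?_
      · intro i hi
        simpa using hi
      · intro i _ i' _ hii
        exact Fin.castAdd_injective _ _ hii
    obtain ⟨C, hC0, hC⟩ := matrix_theorem hh ha
      (fun (j : Fin b) (i : Fin a) => P.Adj (Fin.castAdd b i) (Fin.natAdd a j)) _ hEc hQ ε hε
    refine exLt_le_of_matrix P hP _ C hα hC0 ?_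
    intro L A hA hnot
    have h1 : (A.image Prod.swap).card = A.card := card_image_of_injective _ Prod.swap_injective
    rw [← h1]
    apply hC L
    · intro x hx
      obtain ⟨y, hy, rfl⟩ := mem_image.1 hx
      have := hA hy
      rw [mem_product] at this
      simp only [mem_product, Prod.fst_swap, Prod.snd_swap]
      exact ⟨this.2, this.1⟩
    · intro hcon
      exact hnot (mcontains_transpose _ A hcon)
  · have hQ : ∀ j ∉ (univ.filter (fun j : Fin b => Fin.natAdd a j ∈ E)),
        {i : Fin a | P.Adj (Fin.castAdd b i) (Fin.natAdd a j)}.ncard ≤ h := by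
      intro j hj
      simp only [mem_filter, mem_univ, true_and] at hj
      refine le_trans ?_ (hdeg _ hj (by simp))
      refine Set.ncard_le_ncard_of_injOn (fun i => Fin.castAdd b i) (fun i hi => ?_) ?_ ?_
      · exact SimpleGraph.Adj.symm hi
      · intro i _ i' _ hii
        exact Fin.castAdd_injective _ _ hii
      · exact Set.toFinite _
    have hEc : (univ.filter (fun j : Fin b => Fin.natAdd a j ∈ E)).card ≤ h := by
      refine le_trans ?_ hE
      refine card_le_card_of_injOn (fun j => Fin.natAdd a j) ?_ ?_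
      · intro j hj
        simpa using hj
      · intro j _ j' _ hjj
        exact Fin.natAdd_injective _ _ hjj
    obtain ⟨C, hC0, hC⟩ := matrix_theorem hh hb
      (fun (i : Fin a) (j : Fin b) => P.Adj (Fin.castAdd b i) (Fin.natAdd a j)) _ hEc hQ ε hε
    exact exLt_le_of_matrix P hP _ C hα hC0 hC

/-- **The h-index theorem.** -/
theorem hindex_theorem {k : ℕ} (P : SimpleGraph (Fin k)) (m h : ℕ) (hh : 1 ≤ h)
    (hP : OrderedBipartite P m) (hne : P.edgeSet.Nonempty) (hH : HIndexLe P m h)
    (ε : ℝ) (hε : 0 < ε) :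
    ∃ C : ℝ, 0 ≤ C ∧ ∀ n : ℕ, (exLt P n : ℝ) ≤ C * (n : ℝ) ^ (2 - 1 / (h : ℝ) + ε) := by
  obtain ⟨e, he⟩ := hne
  induction e using Sym2.ind with
  | _ x y =>
    rw [SimpleGraph.mem_edgeSet] at he
    have hxy : 1 ≤ m ∧ m < k := by
      rcases lt_trichotomy x y with h1 | h1 | h1
      · have := hP x y he h1
        have := y.2
        omega
      · exact absurd h1 he.ne
      · have := hP y x he.symm h1
        have := x.2
        omega
    obtain ⟨b, rfl⟩ : ∃ b, k = m + b := ⟨k - m, by omega⟩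
    exact upper_aux hh hxy.1 (by omega) P hP hH ε hε

end Pool.Agent.OTR
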