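import Pool.Agent.OTR.Defs

/-!
# [OTR-LB1] a graph with two edges has extremal number at least n/2

PROOF. `P` has two different edges. If two different edges of `P` share a vertex (a vertex `x` with two
different neighbours `y, z`), then the perfect matching `2i ~ 2i+1` on `Fin n` (`i < n / 2`) does not
contain `P` (a copy of `P` would give a vertex with two different neighbours), and it has `n / 2` edges.
Otherwise `P` has two disjoint edges `x y`, `z w` (four different vertices); the star with centre `0`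
on `Fin n` does not contain `P`, and it has `n - 1 ≥ n / 2` edges for `n ≥ 1` (`n = 0` is trivial).
Use `SimpleGraph.card_edgeFinset_le_extremalNumber` (`Free`, `IsContained`, `Copy`).
-/

namespace Pool.Agent.OTR

open Finset

/-- the perfect matching `2i ~ 2i+1` -/
def lb1M (n : ℕ) : SimpleGraph (Fin n) where
  Adj x y := x ≠ y ∧ x.val / 2 = y.val / 2
  symm := ⟨fun _ _ h => ⟨h.1.symm, h.2.symm⟩⟩
  loopless := ⟨fun _ h => h.1 rfl⟩

/-- the star with centre `0` -/
def lb1S (n : ℕ) : SimpleGraph (Fin n) where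
  Adj x y := x ≠ y ∧ (x.val = 0 ∨ y.val = 0)
  symm := ⟨fun _ _ h => ⟨h.1.symm, h.2.symm⟩⟩
  loopless := ⟨fun _ h => h.1 rfl⟩

open Classical in
theorem lb1_M_card (n : ℕ) : n / 2 ≤ (lb1M n).edgeFinset.card := by
  have h1 : ∀ i : Fin (n / 2), 2 * i.val < n := fun i => by have := i.2; omega
  have h2 : ∀ i : Fin (n / 2), 2 * i.val + 1 < n := fun i => by have := i.2; omega
  have h3 := card_le_card_of_injOn (s := (univ : Finset (Fin (n / 2)))) (t := (lb1M n).edgeFinset)
    (fun i => s(⟨2 * i.val, h1 i⟩, ⟨2 * i.val + 1, h2 i⟩)) ?_ ?_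
  · rwa [card_univ, Fintype.card_fin] at h3
  · intro i _
    rw [mem_coe, SimpleGraph.mem_edgeFinset, SimpleGraph.mem_edgeSet]
    refine ⟨?_, ?_⟩
    · intro h
      have h4 := congrArg Fin.val h
      simp only at h4
      omega
    · simp only
      omega
  · intro i _ j _ hij
    simp only [Sym2.eq_iff, Fin.mk.injEq] at hij
    apply Fin.ext
    omega

open Classical in
theorem lb1_S_card (n : ℕ) : n / 2 ≤ (lb1S n).edgeFinset.card := by
  rcases Nat.eq_zero_or_pos n with h0 | h0
  · subst h0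
    exact Nat.zero_le _
  have h1 : ∀ i : Fin (n - 1), i.val + 1 < n := fun i => by have := i.2; omega
  have h3 := card_le_card_of_injOn (s := (univ : Finset (Fin (n - 1)))) (t := (lb1S n).edgeFinset)
    (fun i => s(⟨0, h0⟩, ⟨i.val + 1, h1 i⟩)) ?_ ?_
  · rw [card_univ, Fintype.card_fin] at h3
    omega
  · intro i _
    rw [mem_coe, SimpleGraph.mem_edgeFinset, SimpleGraph.mem_edgeSet]
    refine ⟨?_, Or.inl rfl⟩
    intro h
    have h4 := congrArg Fin.val h
    simp only at h4
    omega
  · intro i _ j _ hij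
    simp only [Sym2.eq_iff, Fin.mk.injEq] at hij
    apply Fin.ext
    omega

theorem lb1_M_free {k : ℕ} (P : SimpleGraph (Fin k)) (n : ℕ) {x y z : Fin k} (hxy : P.Adj x y)
    (hxz : P.Adj x z) (hyz : y ≠ z) : P.Free (lb1M n) := by
  rintro ⟨f⟩
  have h1 : (lb1M n).Adj (f x) (f y) := f.toHom.map_adj hxy
  have h2 : (lb1M n).Adj (f x) (f z) := f.toHom.map_adj hxz
  have h3 : f y ≠ f z := fun h => hyz (f.injective h)
  obtain ⟨h4, h5⟩ := h1
  obtain ⟨h6, h7⟩ := h2
  have h8 : (f x).val ≠ (f y).val := fun h => h4 (Fin.ext h)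
  have h9 : (f x).val ≠ (f z).val := fun h => h6 (Fin.ext h)
  have h10 : (f y).val ≠ (f z).val := fun h => h3 (Fin.ext h)
  omega

theorem lb1_S_free {k : ℕ} (P : SimpleGraph (Fin k)) (n : ℕ) {x y z w : Fin k} (hxy : P.Adj x y)
    (hzw : P.Adj z w) (hxz : x ≠ z) (hxw : x ≠ w) (hyz : y ≠ z) (hyw : y ≠ w) : P.Free (lb1S n) := by
  rintro ⟨f⟩
  have h1 : (lb1S n).Adj (f x) (f y) := f.toHom.map_adj hxy
  have h2 : (lb1S n).Adj (f z) (f w) := f.toHom.map_adj hzw
  have hne : ∀ a b : Fin k, a ≠ b → (f a).val = 0 → (f b).val = 0 → False := by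
    intro a b hab ha hb
    exact hab (f.injective (Fin.ext (ha.trans hb.symm)))
  rcases h1.2 with h3 | h3 <;> rcases h2.2 with h4 | h4
  · exact hne _ _ hxz h3 h4
  · exact hne _ _ hxw h3 h4
  · exact hne _ _ hyz h3 h4
  · exact hne _ _ hyw h3 h4

theorem half_le_extremalNumber {k : ℕ} (P : SimpleGraph (Fin k)) (h2 : 2 ≤ P.edgeSet.ncard) (n : ℕ) :
    n / 2 ≤ SimpleGraph.extremalNumber n P := by
  classical
  obtain ⟨e1, e2, h1, h3, hne⟩ := (Set.one_lt_ncard_iff (Set.toFinite _)).1 (by omega : 1 < P.edgeSet.ncard)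
  induction e1 using Sym2.inductionOn with | hf x y => ?_
  induction e2 using Sym2.inductionOn with | hf z w => ?_
  rw [SimpleGraph.mem_edgeSet] at h1 h3
  have key : ∀ a b c : Fin k, P.Adj a b → P.Adj a c → b ≠ c → n / 2 ≤ SimpleGraph.extremalNumber n P := by
    intro a b c hab hac hbc
    have h4 := SimpleGraph.card_edgeFinset_le_extremalNumber (lb1_M_free P n hab hac hbc)
    rw [Fintype.card_fin] at h4
    exact (lb1_M_card n).trans h4
  by_cases hxz : x = z
  · subst hxz
    exact key x y w h1 h3 (fun h => hne (by rw [h]))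
  by_cases hxw : x = w
  · subst hxw
    exact key x y z h1 h3.symm (fun h => hne (by rw [h]; exact Sym2.eq_swap))
  by_cases hyz : y = z
  · subst hyz
    exact key y x w h1.symm h3 (fun h => hne (by rw [h]; exact Sym2.eq_swap))
  by_cases hyw : y = w
  · subst hyw
    exact key y x z h1.symm h3.symm (fun h => hne (by rw [h]))
  have h4 := SimpleGraph.card_edgeFinset_le_extremalNumber (lb1_S_free P n h1 h3 hxz hxw hyz hyw)
  rw [Fintype.card_fin] at h4
  exact (lb1_S_card n).trans h4

end Pool.Agent.OTR
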