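import Pool.Agent.OTR.Defs

/-!
# [OTR-LB2] ex(C_4, n) ≥ c n^(3/2)

PROOF. Let `p` be a prime. The graph `G_p` on `(ZMod p × ZMod p) ⊕ (ZMod p × ZMod p)` in which `inl (x, y)`
and `inr (a, b)` are adjacent iff `y + b = x * a` has `p ^ 3` edges and no 4-cycle: two different
left vertices `(x, y), (x', y')` with two different common neighbours `(a, b), (a', b')` give
`(x - x') a = y - y' = (x - x') a'`, so `x = x'` (then `y = y'`) or `a = a'` (then `b = b'`).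
(A copy of `cycleGraph 4` in a bipartite graph has the vertices `0, 2` on one side and `1, 3` on the
other side.) For `n ≥ 8` choose by Bertrand's postulate (`Nat.exists_prime_lt_and_le_two_mul`) a prime
`p` with `2 p ^ 2 ≤ n` and `p ≥ c₀ sqrt n`: take `t = sqrt (n / 8)` (`Nat.sqrt`), `t ≥ 1`, and
`t < p ≤ 2 t`, so `2 p ^ 2 ≤ 8 t ^ 2 ≤ n` and `p ≥ t + 1 > sqrt (n / 8)`. Embed `G_p` in `Fin n`
(an injection of the vertex type into `Fin n`, `SimpleGraph.map`; extra vertices are isolated) or use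
monotonicity of the extremal number in `n` if it is in Mathlib. The image is `C_4`-free with `p ^ 3 ≥
(n / 8) ^ (3/2)` edges. For `2 ≤ n < 8`: the graph with one edge is `C_4`-free, so the extremal number is
`≥ 1 ≥ (n / 8) ^ (3/2)`. So `c = 8 ^ (-3/2)` works (any positive `c` is fine).
-/

namespace Pool.Agent.OTR

open Finset

theorem lb2_free {V : Type*} (G : SimpleGraph V)
    (h : ∀ v0 v1 v2 v3, G.Adj v0 v1 → G.Adj v1 v2 → G.Adj v2 v3 → G.Adj v3 v0 → v0 = v2 ∨ v1 = v3) :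
    (SimpleGraph.cycleGraph 4).Free G := by
  rintro ⟨f⟩
  have h01 : (SimpleGraph.cycleGraph 4).Adj 0 1 := by decide
  have h12 : (SimpleGraph.cycleGraph 4).Adj 1 2 := by decide
  have h23 : (SimpleGraph.cycleGraph 4).Adj 2 3 := by decide
  have h30 : (SimpleGraph.cycleGraph 4).Adj 3 0 := by decide
  rcases h (f 0) (f 1) (f 2) (f 3) (f.toHom.map_adj h01) (f.toHom.map_adj h12)
    (f.toHom.map_adj h23) (f.toHom.map_adj h30) with h1 | h1
  · exact absurd (f.injective h1) (by decide)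
  · exact absurd (f.injective h1) (by decide)

/-- One edge. -/
def lb2_E {V : Type*} (a b : V) (hab : a ≠ b) : SimpleGraph V where
  Adj u v := (u = a ∧ v = b) ∨ (u = b ∧ v = a)
  symm := ⟨fun u v h => by
    rcases h with ⟨h1, h2⟩ | ⟨h1, h2⟩
    · exact Or.inr ⟨h2, h1⟩
    · exact Or.inl ⟨h2, h1⟩⟩
  loopless := ⟨fun u h => by
    rcases h with ⟨h1, h2⟩ | ⟨h1, h2⟩
    · exact hab (h1.symm.trans h2)
    · exact hab (h2.symm.trans h1)⟩

theorem lb2_one {n : ℕ} (hn : 2 ≤ n) :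
    1 ≤ SimpleGraph.extremalNumber n (SimpleGraph.cycleGraph 4) := by
  classical
  have hab : (⟨0, by omega⟩ : Fin n) ≠ ⟨1, by omega⟩ := by
    intro h
    have := congrArg Fin.val h
    simp at this
  set G := lb2_E (⟨0, by omega⟩ : Fin n) ⟨1, by omega⟩ hab with hG
  have hfree : (SimpleGraph.cycleGraph 4).Free G := by
    refine lb2_free G fun v0 v1 v2 v3 h01 h12 _ _ => ?_
    left
    rcases h01 with ⟨h1, h2⟩ | ⟨h1, h2⟩
    · rcases h12 with ⟨h3, h4⟩ | ⟨h3, h4⟩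
      · exact absurd (h3.symm.trans h2) hab
      · rw [h1, h4]
    · rcases h12 with ⟨h3, h4⟩ | ⟨h3, h4⟩
      · rw [h1, h4]
      · exact absurd (h2.symm.trans h3) hab
  have h := SimpleGraph.card_edgeFinset_le_extremalNumber hfree
  rw [Fintype.card_fin] at h
  refine le_trans ?_ h
  refine Finset.card_pos.2 ⟨s(⟨0, by omega⟩, ⟨1, by omega⟩), ?_⟩
  rw [SimpleGraph.mem_edgeFinset, SimpleGraph.mem_edgeSet]
  exact Or.inl ⟨rfl, rfl⟩

/-- The incidence graph of points and lines, with `r` isolated vertices. -/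
def lb2_G (p r : ℕ) : SimpleGraph ((ZMod p × ZMod p) ⊕ ((ZMod p × ZMod p) ⊕ Fin r)) where
  Adj u v := ∃ x y a b : ZMod p, y + b = x * a ∧
    ((u = Sum.inl (x, y) ∧ v = Sum.inr (Sum.inl (a, b))) ∨
      (v = Sum.inl (x, y) ∧ u = Sum.inr (Sum.inl (a, b))))
  symm := ⟨fun u v h => by
    obtain ⟨x, y, a, b, h, h1⟩ := h
    exact ⟨x, y, a, b, h, h1.symm⟩⟩
  loopless := ⟨fun u h => by
    obtain ⟨x, y, a, b, h, ⟨h1, h2⟩ | ⟨h1, h2⟩⟩ := h
    · rw [h1] at h2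
      exact absurd h2 (by simp)
    · rw [h1] at h2
      exact absurd h2 (by simp)⟩

theorem lb2_l {p r : ℕ} {x y : ZMod p} {v : (ZMod p × ZMod p) ⊕ ((ZMod p × ZMod p) ⊕ Fin r)}
    (h : (lb2_G p r).Adj (Sum.inl (x, y)) v) :
    ∃ a b : ZMod p, y + b = x * a ∧ v = Sum.inr (Sum.inl (a, b)) := by
  obtain ⟨x', y', a, b, h, ⟨h1, h2⟩ | ⟨h1, h2⟩⟩ := h
  · have h3 := Sum.inl.inj h1
    rw [Prod.mk.injEq] at h3
    obtain ⟨rfl, rfl⟩ := h3
    exact ⟨a, b, h, h2⟩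
  · exact absurd h2 (by simp)

theorem lb2_r {p r : ℕ} {a b : ZMod p} {v : (ZMod p × ZMod p) ⊕ ((ZMod p × ZMod p) ⊕ Fin r)}
    (h : (lb2_G p r).Adj (Sum.inr (Sum.inl (a, b))) v) :
    ∃ x y : ZMod p, y + b = x * a ∧ v = Sum.inl (x, y) := by
  obtain ⟨x, y, a', b', h, ⟨h1, h2⟩ | ⟨h1, h2⟩⟩ := h
  · exact absurd h1 (by simp)
  · have h3 := Sum.inl.inj (Sum.inr.inj h2)
    rw [Prod.mk.injEq] at h3
    obtain ⟨rfl, rfl⟩ := h3
    exact ⟨x, y, h, h1⟩

theorem lb2_alg {F : Type*} [Field F] {x y a b x' y' a' b' : F} (h1 : y + b = x * a)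
    (h2 : y' + b = x' * a) (h3 : y' + b' = x' * a') (h4 : y + b' = x * a') :
    (x, y) = (x', y') ∨ (a, b) = (a', b') := by
  have h : (x - x') * (a - a') = 0 := by linear_combination -h1 + h2 - h3 + h4
  rcases mul_eq_zero.1 h with h5 | h5
  · left
    have h6 : x = x' := sub_eq_zero.1 h5
    subst h6
    rw [Prod.mk.injEq]
    exact ⟨rfl, by linear_combination h1 - h2⟩
  · right
    have h6 : a = a' := sub_eq_zero.1 h5
    subst h6
    rw [Prod.mk.injEq]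
    exact ⟨rfl, by linear_combination h1 - h4⟩

theorem lb2_c4 {p : ℕ} (hp : p.Prime) (r : ℕ) : (SimpleGraph.cycleGraph 4).Free (lb2_G p r) := by
  have hf : Fact p.Prime := ⟨hp⟩
  refine lb2_free _ fun v0 v1 v2 v3 h01 h12 h23 h30 => ?_
  obtain ⟨x, y, a, b, h, ⟨h1, h2⟩ | ⟨h1, h2⟩⟩ := h01
  · subst h1 h2
    obtain ⟨x', y', e2, rfl⟩ := lb2_r h12
    obtain ⟨a', b', e3, rfl⟩ := lb2_l h23
    obtain ⟨x'', y'', e4, e5⟩ := lb2_r h30
    have e6 := Sum.inl.inj e5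
    rw [Prod.mk.injEq] at e6
    obtain ⟨rfl, rfl⟩ := e6
    rcases lb2_alg h e2 e3 e4 with h7 | h7
    · exact Or.inl (congrArg Sum.inl h7)
    · exact Or.inr (congrArg (fun z => Sum.inr (Sum.inl z)) h7)
  · subst h1 h2
    obtain ⟨a', b', e2, rfl⟩ := lb2_l h12
    obtain ⟨x', y', e3, rfl⟩ := lb2_r h23
    obtain ⟨a'', b'', e4, e5⟩ := lb2_l h30
    have e6 := Sum.inl.inj (Sum.inr.inj e5)
    rw [Prod.mk.injEq] at e6
    obtain ⟨rfl, rfl⟩ := e6
    rcases lb2_alg h e4 e3 e2 with h7 | h7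
    · exact Or.inr (congrArg Sum.inl h7)
    · exact Or.inl (congrArg (fun z => Sum.inr (Sum.inl z)) h7)

theorem lb2_cube {p n : ℕ} (hp : p.Prime) (hpn : 2 * (p * p) ≤ n) :
    p ^ 3 ≤ SimpleGraph.extremalNumber n (SimpleGraph.cycleGraph 4) := by
  classical
  have hf : Fact p.Prime := ⟨hp⟩
  have h := SimpleGraph.card_edgeFinset_le_extremalNumber (lb2_c4 hp (n - 2 * (p * p)))
  have hc : Fintype.card ((ZMod p × ZMod p) ⊕ ((ZMod p × ZMod p) ⊕ Fin (n - 2 * (p * p)))) = n := by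
    rw [Fintype.card_sum, Fintype.card_sum, Fintype.card_prod, ZMod.card, Fintype.card_fin]
    omega
  rw [hc] at h
  refine le_trans ?_ h
  have h3 : p ^ 3 = (Finset.univ : Finset (ZMod p × ZMod p × ZMod p)).card := by
    rw [Finset.card_univ, Fintype.card_prod, Fintype.card_prod, ZMod.card]
    ring
  rw [h3]
  refine Finset.card_le_card_of_injOn
    (fun z => s(Sum.inl (z.1, z.2.1), Sum.inr (Sum.inl (z.2.2, z.1 * z.2.2 - z.2.1)))) ?_ ?_
  · intro z _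
    rw [Finset.mem_coe, SimpleGraph.mem_edgeFinset, SimpleGraph.mem_edgeSet]
    exact ⟨z.1, z.2.1, z.2.2, z.1 * z.2.2 - z.2.1, by ring, Or.inl ⟨rfl, rfl⟩⟩
  · rintro ⟨x, y, a⟩ _ ⟨x', y', a'⟩ _ hz
    simp only [Sym2.eq_iff, Sum.inl.injEq, Sum.inr.injEq, Prod.mk.injEq, reduceCtorEq,
      and_false, or_false] at hz
    obtain ⟨⟨h1, h2⟩, h4, _⟩ := hz
    rw [h1, h2, h4]

theorem c4_lower : ∃ c : ℝ, 0 < c ∧ ∀ n : ℕ, 2 ≤ n →
    c * (n : ℝ) ^ ((3 : ℝ) / 2) ≤ (SimpleGraph.extremalNumber n (SimpleGraph.cycleGraph 4) : ℝ) := by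
  refine ⟨(1 / 8 : ℝ) ^ ((3 : ℝ) / 2), Real.rpow_pos_of_pos (by norm_num) _, fun n hn => ?_⟩
  rw [← Real.mul_rpow (by norm_num) (Nat.cast_nonneg n)]
  by_cases h8 : n < 8
  · have h1 : (1 / 8 * (n : ℝ)) ^ ((3 : ℝ) / 2) ≤ 1 := by
      refine Real.rpow_le_one (by positivity) ?_ (by norm_num)
      have h2 : (n : ℝ) ≤ 8 := by exact_mod_cast h8.le
      linarith
    have h2 : 1 ≤ SimpleGraph.extremalNumber n (SimpleGraph.cycleGraph 4) := lb2_one hn
    have h3 : (1 : ℝ) ≤ (SimpleGraph.extremalNumber n (SimpleGraph.cycleGraph 4) : ℝ) := by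
      exact_mod_cast h2
    exact h1.trans h3
  · have hn8 : 8 ≤ n := not_lt.1 h8
    set t : ℕ := Nat.sqrt (n / 8) with ht
    have ht0 : t ≠ 0 := by
      have h1 : 1 ≤ n / 8 := (Nat.le_div_iff_mul_le (by norm_num)).2 (by omega)
      have h2 : 0 < t := by
        rw [ht]
        exact Nat.sqrt_pos.2 h1
      omega
    obtain ⟨p, hp, htp, hpt⟩ := Nat.exists_prime_lt_and_le_two_mul t ht0
    have htt : t * t ≤ n / 8 := Nat.sqrt_le (n / 8)
    have hlt : n / 8 < (t + 1) * (t + 1) := Nat.lt_succ_sqrt (n / 8)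
    have hpn : 2 * (p * p) ≤ n := by
      have h1 : p * p ≤ (2 * t) * (2 * t) := Nat.mul_le_mul hpt hpt
      have h2 : 8 * (n / 8) ≤ n := Nat.mul_div_le n 8
      nlinarith
    have hcube := lb2_cube hp hpn
    have h1 : (n : ℝ) ≤ 8 * ((p : ℝ) ^ 2) := by
      have h2 : n / 8 + 1 ≤ p * p := by
        have h3 : (t + 1) * (t + 1) ≤ p * p := Nat.mul_le_mul htp htp
        omega
      have h4 : n ≤ 8 * (p * p) := by
        have h5 := Nat.div_add_mod n 8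
        have h6 := Nat.mod_lt n (show 8 > 0 by norm_num)
        omega
      have h5 : (n : ℝ) ≤ ((8 * (p * p) : ℕ) : ℝ) := Nat.cast_le.2 h4
      push_cast at h5
      nlinarith
    have hp0 : (0 : ℝ) ≤ p := Nat.cast_nonneg p
    calc (1 / 8 * (n : ℝ)) ^ ((3 : ℝ) / 2) ≤ ((p : ℝ) ^ 2) ^ ((3 : ℝ) / 2) := by
          refine Real.rpow_le_rpow (by positivity) (by linarith) (by norm_num)
      _ = (p : ℝ) ^ 3 := by
          rw [← Real.rpow_natCast, ← Real.rpow_mul hp0, ← Real.rpow_natCast]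
          norm_num
      _ ≤ _ := by exact_mod_cast hcube

end Pool.Agent.OTR
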