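import Pool.Agent.OTR.Defs

/-!
# [OTR-LB3] the deletion method: ex(H, n) ≥ c n^(2 - (k-2)/(e-1))

PROOF. Let `H` be a graph on `Fin k` with `e ≥ 2` edges (so `k ≥ 3`). Let `n ≥ 2`, and let `q ≥ 1` be a
natural number. Consider all colourings `χ` of the edge set of the complete graph on `Fin n`
(`Sym2 (Fin n)`, or all of `Sym2 (Fin n)` for simplicity) with `q` colours (`χ : Sym2 (Fin n) → Fin q`).
A copy of `H` is an injective map `φ : Fin k → Fin n`; there are at most `n ^ k` of them. It is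
monochromatic if all the pairs `φ x φ y` (`x y` an edge of `H`) have the same colour; for a fixed `φ`
the number of colourings `χ` for which `φ` is monochromatic is `q * q ^ (N - e)`, `N = |Sym2 (Fin n)|`.
Averaging over `χ`: some `χ` has at most `n ^ k * q ^ (1 - e)` monochromatic copies `φ`. The `q` colour
classes `G_c` together have `n (n - 1) / 2` edges, so for some colour `c`:
`e(G_c) - #{φ : copy in G_c} ≥ (n (n - 1) / 2 - n ^ k * q ^ (1 - e)) / q`.
Deleting from `G_c` one edge of each copy leaves an `H`-free graph (here `e ≥ 1` is used), so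
`ex(n, H) ≥ (n (n - 1) / 2 - n ^ k / q ^ (e - 1)) / q` for all `q ≥ 1`.
Choose `q = ⌈A * n ^ ((k - 2) / (e - 1))⌉` with a constant `A ≥ 1` such that
`n ^ k / q ^ (e - 1) ≤ n ^ 2 / A ^ (e - 1) ≤ n ^ 2 / 8 ≤ n (n - 1) / 4` (e.g. `A = 8`), and
`q ≤ 2 A n ^ ((k-2)/(e-1))`; this gives `ex(n, H) ≥ n (n-1) / (4 q) ≥ n ^ 2 / (16 A n ^ ((k-2)/(e-1)))`.
(Any other proof of the same bound is fine.)
-/

namespace Pool.Agent.OTR

open Finset

/-- the graph of the pairs of colour `c` -/
def lb3G {n q : ℕ} (χ : Sym2 (Fin n) → Fin q) (c : Fin q) : SimpleGraph (Fin n) where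
  Adj x y := x ≠ y ∧ χ s(x, y) = c
  symm := ⟨fun x y h => ⟨h.1.symm, by rw [Sym2.eq_swap]; exact h.2⟩⟩
  loopless := ⟨fun _ h => h.1 rfl⟩

/-- the copies of `H` in colour `c` -/
def lb3C {k n q : ℕ} (H : SimpleGraph (Fin k)) (χ : Sym2 (Fin n) → Fin q) (c : Fin q) :
    Set (Fin k → Fin n) :=
  {φ | Function.Injective φ ∧ ∀ x y, H.Adj x y → χ s(φ x, φ y) = c}

open Classical in
theorem lb3_del {k n q : ℕ} (H : SimpleGraph (Fin k)) {x0 y0 : Fin k} (h0 : H.Adj x0 y0)
    (χ : Sym2 (Fin n) → Fin q) (c : Fin q) :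
    (lb3G χ c).edgeFinset.card ≤ SimpleGraph.extremalNumber n H + (lb3C H χ c).toFinset.card := by
  set R : Finset (Sym2 (Fin n)) := (lb3C H χ c).toFinset.image (fun φ => s(φ x0, φ y0)) with hR
  have hfree : H.Free ((lb3G χ c).deleteEdges R) := by
    rintro ⟨f⟩
    have h1 : (f : Fin k → Fin n) ∈ lb3C H χ c := by
      refine ⟨f.injective, fun x y hxy => ?_⟩
      have h2 : ((lb3G χ c).deleteEdges R).Adj (f x) (f y) := f.toHom.map_adj hxy
      rw [SimpleGraph.deleteEdges_adj] at h2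
      exact h2.1.2
    have h2 : ((lb3G χ c).deleteEdges R).Adj (f x0) (f y0) := f.toHom.map_adj h0
    rw [SimpleGraph.deleteEdges_adj] at h2
    apply h2.2
    exact mem_coe.2 (mem_image.2 ⟨f, Set.mem_toFinset.2 h1, rfl⟩)
  have h1 := SimpleGraph.card_edgeFinset_le_extremalNumber hfree
  rw [Fintype.card_fin] at h1
  have h2 : (lb3G χ c).edgeFinset ⊆ ((lb3G χ c).deleteEdges R).edgeFinset ∪ R := by
    intro e he
    rw [SimpleGraph.mem_edgeFinset] at he
    rw [mem_union, SimpleGraph.mem_edgeFinset, SimpleGraph.edgeSet_deleteEdges]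
    by_cases heR : e ∈ R
    · exact Or.inr heR
    · exact Or.inl ⟨he, heR⟩
  have h3 := (card_le_card h2).trans (card_union_le _ _)
  have h4 : R.card ≤ (lb3C H χ c).toFinset.card := card_image_le
  omega

open Classical in
theorem lb3_edges {n q : ℕ} (χ : Sym2 (Fin n) → Fin q) :
    ∑ c : Fin q, (lb3G χ c).edgeFinset.card = n.choose 2 := by
  have h1 : (⊤ : SimpleGraph (Fin n)).edgeFinset.card = n.choose 2 := by
    rw [SimpleGraph.card_edgeFinset_top_eq_card_choose_two, Fintype.card_fin]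
  rw [← h1, card_eq_sum_card_fiberwise (f := χ) (t := univ) (fun _ _ => mem_univ _)]
  refine sum_congr rfl fun c _ => ?_
  congr 1
  ext e
  induction e using Sym2.inductionOn with | hf x y => ?_
  rw [mem_filter, SimpleGraph.mem_edgeFinset, SimpleGraph.mem_edgeFinset, SimpleGraph.mem_edgeSet,
    SimpleGraph.mem_edgeSet, SimpleGraph.top_adj]
  exact Iff.rfl

open Classical in
theorem lb3_mono {α : Type} [Fintype α] [DecidableEq α] (q : ℕ) (hq : 1 ≤ q) (E : Finset α) (e : ℕ)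
    (he : E.card = e) (h1 : 1 ≤ e) :
    ((univ : Finset (α → Fin q)).filter (fun χ => ∃ c, ∀ a ∈ E, χ a = c)).card ≤
      q * q ^ (Fintype.card α - e) := by
  have hq0 : Fin q := ⟨0, hq⟩
  obtain ⟨a0, ha0⟩ := card_pos.1 (by omega : 0 < E.card)
  have h2 := card_le_card_of_injOn
    (s := (univ : Finset (α → Fin q)).filter (fun χ => ∃ c, ∀ a ∈ E, χ a = c))
    (t := (univ : Finset (Fin q × ({a : α // a ∉ E} → Fin q))))
    (fun χ => (χ a0, fun a => χ a)) (fun _ _ => mem_coe.2 (mem_univ _)) ?_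
  · rw [card_univ, Fintype.card_prod, Fintype.card_fin, Fintype.card_fun, Fintype.card_fin] at h2
    have h3 : Fintype.card {a : α // a ∉ E} = Fintype.card α - e := by
      rw [Fintype.card_subtype_compl, Fintype.card_coe, he]
    rw [h3] at h2
    exact h2
  · intro χ hχ χ' hχ' heq
    rw [mem_coe, mem_filter] at hχ hχ'
    obtain ⟨-, c, hc⟩ := hχ
    obtain ⟨-, c', hc'⟩ := hχ'
    simp only [Prod.mk.injEq] at heq
    funext a
    by_cases ha : a ∈ E
    · rw [hc a ha, hc' a ha, ← hc a0 ha0, ← hc' a0 ha0]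
      exact heq.1
    · exact congrFun heq.2 ⟨a, ha⟩

open Classical in
theorem lb3_count {k n q : ℕ} (H : SimpleGraph (Fin k)) (e : ℕ) (he : H.edgeSet.ncard = e) (h1 : 1 ≤ e)
    (hq : 1 ≤ q) :
    ∑ χ : Sym2 (Fin n) → Fin q, ∑ c : Fin q, (lb3C H χ c).toFinset.card ≤
      n ^ k * (q * q ^ (Fintype.card (Sym2 (Fin n)) - e)) := by
  have hE : H.edgeFinset.card = e := by
    rw [← he, ← SimpleGraph.coe_edgeFinset, Set.ncard_coe_finset]
  obtain ⟨e0, he0⟩ := card_pos.1 (by omega : 0 < H.edgeFinset.card)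
  -- the images of the edges
  have hmap : ∀ φ : Fin k → Fin n, Function.Injective φ → (H.edgeFinset.image (Sym2.map φ)).card = e := by
    intro φ hφ
    rw [card_image_of_injective _ (Sym2.map.injective hφ), hE]
  have h2 : ∀ χ : Sym2 (Fin n) → Fin q, ∑ c : Fin q, (lb3C H χ c).toFinset.card ≤
      ∑ φ : Fin k → Fin n, if (Function.Injective φ ∧ ∃ c, ∀ a ∈ H.edgeFinset.image (Sym2.map φ), χ a = c)
        then 1 else 0 := by
    intro χ
    rw [← card_filter, ← card_biUnion]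
    · refine card_le_card fun φ hφ => ?_
      rw [mem_biUnion] at hφ
      obtain ⟨c, -, hc⟩ := hφ
      rw [Set.mem_toFinset] at hc
      rw [mem_filter]
      refine ⟨mem_univ _, hc.1, c, fun a ha => ?_⟩
      obtain ⟨b, hb, rfl⟩ := mem_image.1 ha
      induction b using Sym2.inductionOn with | hf x y => ?_
      rw [SimpleGraph.mem_edgeFinset, SimpleGraph.mem_edgeSet] at hb
      rw [Sym2.map_mk]
      exact hc.2 x y hb
    · intro c _ c' _ hne
      rw [Function.onFun, disjoint_left]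
      intro φ h3 h4
      rw [Set.mem_toFinset] at h3 h4
      apply hne
      induction e0 using Sym2.inductionOn with | hf x y => ?_
      rw [SimpleGraph.mem_edgeFinset, SimpleGraph.mem_edgeSet] at he0
      rw [← h3.2 x y he0, ← h4.2 x y he0]
  refine (sum_le_sum fun χ _ => h2 χ).trans ?_
  rw [sum_comm]
  refine (sum_le_card_nsmul univ _ (q * q ^ (Fintype.card (Sym2 (Fin n)) - e)) fun φ _ => ?_).trans ?_
  · by_cases hφ : Function.Injective φ
    · rw [← card_filter]
      refine le_trans (card_le_card ?_) (lb3_mono q hq (H.edgeFinset.image (Sym2.map φ)) e (hmap φ hφ) h1)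
      intro χ hχ
      rw [mem_filter] at hχ
      rw [mem_filter]
      exact ⟨mem_univ _, hχ.2.2⟩
    · rw [sum_eq_zero fun χ _ => if_neg fun h => hφ h.1]
      exact Nat.zero_le _
  · rw [card_univ, Fintype.card_fun, Fintype.card_fin, Fintype.card_fin, smul_eq_mul]

theorem lb3_main {k : ℕ} (H : SimpleGraph (Fin k)) (e : ℕ) (he : H.edgeSet.ncard = e) (h1 : 1 ≤ e)
    (n q : ℕ) (hq : 1 ≤ q) :
    (n.choose 2 : ℝ) - (n : ℝ) ^ k / (q : ℝ) ^ (e - 1) ≤ q * (SimpleGraph.extremalNumber n H : ℝ) := by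
  classical
  have hq0 : (0 : ℝ) < q := by exact_mod_cast hq
  by_cases hN : e ≤ Fintype.card (Sym2 (Fin n))
  · have hE : H.edgeFinset.card = e := by
      rw [← he, ← SimpleGraph.coe_edgeFinset, Set.ncard_coe_finset]
    obtain ⟨e0, he0⟩ := card_pos.1 (by omega : 0 < H.edgeFinset.card)
    induction e0 using Sym2.inductionOn with | hf x0 y0 => ?_
    rw [SimpleGraph.mem_edgeFinset, SimpleGraph.mem_edgeSet] at he0
    set N := Fintype.card (Sym2 (Fin n)) with hNd
    set X := SimpleGraph.extremalNumber n H with hX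
    have h2 : ∀ χ : Sym2 (Fin n) → Fin q, n.choose 2 ≤ q * X + ∑ c : Fin q, (lb3C H χ c).toFinset.card := by
      intro χ
      rw [← lb3_edges χ]
      refine (sum_le_sum fun c _ => lb3_del H he0 χ c).trans (le_of_eq ?_)
      rw [sum_add_distrib, sum_const, card_univ, Fintype.card_fin, smul_eq_mul]
    have h3 : q ^ N * n.choose 2 ≤ q ^ N * (q * X) + n ^ k * (q * q ^ (N - e)) := by
      have h4 := sum_le_sum fun χ (_ : χ ∈ (univ : Finset (Sym2 (Fin n) → Fin q))) => h2 χ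
      rw [sum_add_distrib, sum_const, sum_const, card_univ, Fintype.card_fun, Fintype.card_fin,
        smul_eq_mul, smul_eq_mul] at h4
      exact h4.trans (Nat.add_le_add_left (lb3_count H e he h1 hq) _)
    have h4 : (q : ℝ) ^ N * (n.choose 2 : ℝ) ≤ (q : ℝ) ^ N * (q * (X : ℝ)) +
        (n : ℝ) ^ k * (q * (q : ℝ) ^ (N - e)) := by exact_mod_cast h3
    have h5 : (q : ℝ) ^ N * ((n : ℝ) ^ k / (q : ℝ) ^ (e - 1)) = (n : ℝ) ^ k * (q * (q : ℝ) ^ (N - e)) := by
      have h6 : (q : ℝ) ^ N = (q : ℝ) ^ (N - e) * ((q : ℝ) ^ (e - 1) * q) := by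
        rw [← pow_succ, ← pow_add]
        congr 1
        omega
      rw [h6]
      field_simp
    have h6 : (q : ℝ) ^ N * ((n.choose 2 : ℝ) - (n : ℝ) ^ k / (q : ℝ) ^ (e - 1)) ≤
        (q : ℝ) ^ N * (q * (X : ℝ)) := by
      rw [mul_sub, h5]
      linarith
    exact le_of_mul_le_mul_left h6 (by positivity)
  · -- `e` is larger than the number of pairs: every coloring is fine, one colour
    have hE : H.edgeFinset.card = e := by
      rw [← he, ← SimpleGraph.coe_edgeFinset, Set.ncard_coe_finset]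
    have hfree : H.Free (⊤ : SimpleGraph (Fin n)) := by
      rintro ⟨f⟩
      apply hN
      rw [← hE, ← card_image_of_injective _ (Sym2.map.injective f.injective)]
      exact card_le_univ _
    have h2 := SimpleGraph.card_edgeFinset_le_extremalNumber hfree
    rw [SimpleGraph.card_edgeFinset_top_eq_card_choose_two, Fintype.card_fin] at h2
    have h3 : (n.choose 2 : ℝ) ≤ (SimpleGraph.extremalNumber n H : ℝ) := by exact_mod_cast h2
    have h4 : (1 : ℝ) ≤ q := by exact_mod_cast hq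
    have h5 : (0 : ℝ) ≤ (n : ℝ) ^ k / (q : ℝ) ^ (e - 1) := by positivity
    have h6 : (0 : ℝ) ≤ (SimpleGraph.extremalNumber n H : ℝ) := Nat.cast_nonneg _
    nlinarith

theorem deletion_lower {k : ℕ} (H : SimpleGraph (Fin k)) (e : ℕ) (he : H.edgeSet.ncard = e)
    (h2 : 2 ≤ e) : ∃ c : ℝ, 0 < c ∧ ∀ n : ℕ, 2 ≤ n →
    c * (n : ℝ) ^ (2 - ((k : ℝ) - 2) / ((e : ℝ) - 1)) ≤ (SimpleGraph.extremalNumber n H : ℝ) := by
  classical
  have hk : 2 ≤ k := by
    by_contra hc
    have h0 : H.edgeSet = ∅ := by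
      rw [Set.eq_empty_iff_forall_notMem]
      intro a ha
      induction a using Sym2.inductionOn with | hf x y => ?_
      rw [SimpleGraph.mem_edgeSet] at ha
      have h1 := x.2
      have h3 := y.2
      exact ha.ne (Fin.ext (by omega))
    rw [h0, Set.ncard_empty] at he
    omega
  set s : ℝ := ((k : ℝ) - 2) / ((e : ℝ) - 1) with hs
  have he1 : (0 : ℝ) < (e : ℝ) - 1 := by
    have : (2 : ℝ) ≤ e := by exact_mod_cast h2
    linarith
  have hk2 : (0 : ℝ) ≤ (k : ℝ) - 2 := by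
    have : (2 : ℝ) ≤ k := by exact_mod_cast hk
    linarith
  have hs0 : 0 ≤ s := div_nonneg hk2 he1.le
  refine ⟨1 / 128, by norm_num, fun n hn => ?_⟩
  have hn2 : (2 : ℝ) ≤ n := by exact_mod_cast hn
  have hn0 : (0 : ℝ) < n := by linarith
  set r : ℝ := (n : ℝ) ^ s with hr
  have hr1 : 1 ≤ r := Real.one_le_rpow (by linarith) hs0
  set q : ℕ := ⌈8 * r⌉₊ with hq
  have hq1 : 8 * r ≤ q := Nat.le_ceil _
  have hq2 : (q : ℝ) ≤ 16 * r := by
    have h3 : (q : ℝ) < 8 * r + 1 := Nat.ceil_lt_add_one (by positivity)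
    linarith
  have hq0 : (0 : ℝ) < q := by linarith
  have hq3 : 1 ≤ q := by exact_mod_cast (show (1 : ℝ) ≤ q by linarith)
  have h3 := lb3_main H e he (by omega) n q hq3
  -- the power of r
  have h4 : r ^ (e - 1) = (n : ℝ) ^ (k - 2) := by
    have h5 : ((e - 1 : ℕ) : ℝ) = (e : ℝ) - 1 := by
      rw [Nat.cast_sub (by omega), Nat.cast_one]
    have h6 : ((k - 2 : ℕ) : ℝ) = (k : ℝ) - 2 := by
      rw [Nat.cast_sub hk]
      norm_num
    rw [hr, ← Real.rpow_natCast, ← Real.rpow_mul hn0.le, h5, hs, div_mul_cancel₀ _ he1.ne', ← h6,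
      Real.rpow_natCast]
  have h5 : (n : ℝ) ^ k / (q : ℝ) ^ (e - 1) ≤ (n : ℝ) ^ 2 / 8 := by
    have h6 : (8 : ℝ) * (n : ℝ) ^ (k - 2) ≤ (q : ℝ) ^ (e - 1) := by
      calc (8 : ℝ) * (n : ℝ) ^ (k - 2) ≤ (8 : ℝ) ^ (e - 1) * r ^ (e - 1) := by
            rw [h4]
            refine mul_le_mul_of_nonneg_right ?_ (by positivity)
            exact le_self_pow₀ (by norm_num) (by omega)
        _ = (8 * r) ^ (e - 1) := by rw [mul_pow]
        _ ≤ (q : ℝ) ^ (e - 1) := pow_le_pow_left₀ (by positivity) hq1 _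
    rw [div_le_div_iff₀ (by positivity) (by norm_num)]
    have h7 : (n : ℝ) ^ k = (n : ℝ) ^ 2 * (n : ℝ) ^ (k - 2) := by
      rw [← pow_add]
      congr 1
      omega
    rw [h7]
    have h8 := mul_le_mul_of_nonneg_left h6 (show (0 : ℝ) ≤ (n : ℝ) ^ 2 by positivity)
    linarith
  have h6 : (n : ℝ) ^ 2 / 4 ≤ (n.choose 2 : ℝ) := by
    rw [Nat.cast_choose_two]
    nlinarith
  have h7 : (n : ℝ) ^ 2 / 8 ≤ q * (SimpleGraph.extremalNumber n H : ℝ) := by linarith
  have h8 : (n : ℝ) ^ (2 - s) = (n : ℝ) ^ 2 / r := by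
    rw [Real.rpow_sub hn0]
    norm_num
    rfl
  rw [h8]
  have h9 : (0 : ℝ) ≤ (SimpleGraph.extremalNumber n H : ℝ) := Nat.cast_nonneg _
  have h10 : q * (SimpleGraph.extremalNumber n H : ℝ) ≤ 16 * r * (SimpleGraph.extremalNumber n H : ℝ) :=
    mul_le_mul_of_nonneg_right hq2 h9
  have h11 : 1 / 128 * ((n : ℝ) ^ 2 / r) = ((n : ℝ) ^ 2 / 8) / (16 * r) := by
    field_simp
    norm_num
  rw [h11, div_le_iff₀ (by positivity)]
  linarith

end Pool.Agent.OTR
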