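import Pool.Agent.OTR.F1
import Pool.Agent.OTR.LB1
import Pool.Agent.OTR.LB2
import Pool.Agent.OTR.LB3

/-!
# Consequences of the h-index theorem for the ratio `r_P`
-/

namespace Pool.Agent.OTR

open Finset

/-- `r_P(n) = ex_<(P, n) / ex(P̄, n)`; the underlying graph of the ordered graph `P` is `P` itself as
a simple graph. -/
noncomputable def rP {k : ℕ} (P : SimpleGraph (Fin k)) (n : ℕ) : ℝ :=
  (exLt P n : ℝ) / (SimpleGraph.extremalNumber n P : ℝ)

/-- `r_P(n) = Ω(n^(1/3))`. -/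
def OmegaThird {k : ℕ} (P : SimpleGraph (Fin k)) : Prop :=
  ∃ c : ℝ, 0 < c ∧ ∃ n₀ : ℕ, ∀ n : ℕ, n₀ ≤ n → c * (n : ℝ) ^ ((1 : ℝ) / 3) ≤ rP P n

theorem rP_nonneg {k : ℕ} (P : SimpleGraph (Fin k)) (n : ℕ) : 0 ≤ rP P n := by
  unfold rP; positivity

/-- from a lower bound for the extremal number of the underlying graph to an upper bound for
`r_P` -/
theorem rP_le_of_lower {k : ℕ} (P : SimpleGraph (Fin k)) (α β C : ℝ)
    (hC : ∀ n : ℕ, (exLt P n : ℝ) ≤ C * (n : ℝ) ^ α) (hC0 : 0 ≤ C) (c : ℝ) (hc : 0 < c)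
    (hlow : ∀ n : ℕ, 2 ≤ n → c * (n : ℝ) ^ β ≤ (SimpleGraph.extremalNumber n P : ℝ)) :
    ∃ C' : ℝ, 0 ≤ C' ∧ ∀ n : ℕ, 2 ≤ n → rP P n ≤ C' * (n : ℝ) ^ (α - β) := by
  refine ⟨C / c, by positivity, ?_⟩
  intro n hn
  have hn0 : (0 : ℝ) < n := by
    have : 0 < n := by omega
    exact_mod_cast this
  have h1 := hlow n hn
  have h2 : 0 < c * (n : ℝ) ^ β := by positivity
  unfold rP
  rw [div_le_iff₀ (h2.trans_le h1)]
  calc (exLt P n : ℝ) ≤ C * (n : ℝ) ^ α := hC n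
    _ = C / c * (n : ℝ) ^ (α - β) * (c * (n : ℝ) ^ β) := by
        rw [Real.rpow_sub hn0]
        field_simp
    _ ≤ _ := by
        apply mul_le_mul_of_nonneg_left h1
        positivity

/-- `r_P(n) = O(n^(1/3 - δ))` for some `δ > 0`. -/
def SmallRatio {k : ℕ} (P : SimpleGraph (Fin k)) : Prop :=
  ∃ δ : ℝ, 0 < δ ∧ ∃ C : ℝ, ∀ n : ℕ, 2 ≤ n → rP P n ≤ C * (n : ℝ) ^ ((1 : ℝ) / 3 - δ)

theorem smallRatio_of {k : ℕ} (P : SimpleGraph (Fin k)) (γ C : ℝ) (hγ : γ < 1 / 3)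
    (h : ∀ n : ℕ, 2 ≤ n → rP P n ≤ C * (n : ℝ) ^ γ) : SmallRatio P := by
  refine ⟨1 / 3 - γ, by linarith, C, fun n hn => ?_⟩
  have := h n hn
  convert this using 3
  ring

/-- if `r_P(n) ≤ C n ^ γ` with `γ < 1/3` then `r_P` is not `Ω(n^(1/3))` -/
theorem not_omega {k : ℕ} (P : SimpleGraph (Fin k)) (γ C : ℝ) (hγ : γ < 1 / 3)
    (h : ∀ n : ℕ, 2 ≤ n → rP P n ≤ C * (n : ℝ) ^ γ) : ¬ OmegaThird P := by
  rintro ⟨c, hc, n₀, hn₀⟩
  have htend : Filter.Tendsto (fun n : ℕ => (n : ℝ) ^ ((1 : ℝ) / 3 - γ)) Filter.atTop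
      Filter.atTop :=
    (tendsto_rpow_atTop (by linarith)).comp tendsto_natCast_atTop_atTop
  obtain ⟨N, hN⟩ := Filter.eventually_atTop.1 (htend.eventually_gt_atTop (C / c))
  set n := max (max n₀ N) 2 with hn
  have hn2 : 2 ≤ n := le_max_right _ _
  have hn0 : (0 : ℝ) < n := by
    have : 0 < n := by omega
    exact_mod_cast this
  have h1 := hn₀ n (le_trans (le_max_left _ _) (le_max_left _ _))
  have h2 := h n hn2
  have h3 := hN n (le_trans (le_max_right _ _) (le_max_left _ _))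
  have h4 : c * (n : ℝ) ^ ((1 : ℝ) / 3) ≤ C * (n : ℝ) ^ γ := h1.trans h2
  rw [Real.rpow_sub hn0, lt_div_iff₀ (by positivity), div_mul_eq_mul_div, div_lt_iff₀ hc] at h3
  linarith

/-- the sum of the degrees of the first class is at most the number of edges -/
theorem sum_degree_first {k : ℕ} (P : SimpleGraph (Fin k)) (m : ℕ) (hP : OrderedBipartite P m) :
    ∑ x ∈ univ.filter (fun x : Fin k => x.val < m), (P.neighborSet x).ncard
      ≤ P.edgeSet.ncard := by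
  classical
  have h1 : ∑ x ∈ univ.filter (fun x : Fin k => x.val < m), (P.neighborSet x).ncard
      = ((univ.filter (fun x : Fin k => x.val < m)).sigma
          (fun x => univ.filter (fun y => P.Adj x y))).card := by
    rw [card_sigma]
    refine sum_congr rfl (fun x _ => ?_)
    rw [Set.ncard_eq_toFinset_card']
    congr 1
    ext y
    simp
  rw [h1, Set.ncard_eq_toFinset_card']
  refine card_le_card_of_injOn (fun p => s(p.1, p.2)) ?_ ?_
  · rintro ⟨x, y⟩ hxy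
    simp only [coe_sigma, Set.mem_sigma_iff, mem_coe, mem_filter, mem_univ, true_and] at hxy
    simp only [Set.coe_toFinset, SimpleGraph.mem_edgeSet]
    exact hxy.2
  · rintro ⟨x, y⟩ hxy ⟨x', y'⟩ hxy' heq
    simp only [coe_sigma, Set.mem_sigma_iff, mem_coe, mem_filter, mem_univ, true_and] at hxy hxy'
    simp only [Sym2.eq_iff] at heq
    rcases heq with ⟨h2, h3⟩ | ⟨h2, h3⟩
    · rw [h2, h3]
    · exfalso
      -- x = y', y = x': both x and x' = y are in the first class, but x y is an edge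
      rcases lt_trichotomy x y with h4 | h4 | h4
      · have := (hP x y hxy.2 h4).2
        have h5 := hxy'.1
        rw [← h3] at h5
        omega
      · exact absurd h4 hxy.2.ne
      · have := (hP y x hxy.2.symm h4).2
        have h5 := hxy.1
        omega

/-- fewer than `(s+1)^2` edges give `h`-index at most `s` -/
theorem hindex_of_card {k : ℕ} (P : SimpleGraph (Fin k)) (m s : ℕ) (hP : OrderedBipartite P m)
    (he : P.edgeSet.ncard < (s + 1) ^ 2) : HIndexLe P m s := by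
  classical
  left
  set F := univ.filter (fun x : Fin k => x.val < m ∧ s < (P.neighborSet x).ncard) with hF
  refine ⟨F, ?_, ?_⟩
  · by_contra hcon
    push Not at hcon
    have h1 : (s + 1) * (s + 1) ≤ ∑ x ∈ F, (P.neighborSet x).ncard := by
      calc (s + 1) * (s + 1) ≤ F.card * (s + 1) := Nat.mul_le_mul_right _ hcon
        _ = ∑ x ∈ F, (s + 1) := by rw [sum_const, smul_eq_mul]
        _ ≤ _ := by
            refine sum_le_sum (fun x hx => ?_)
            simp only [hF, mem_filter, mem_univ, true_and] at hx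
            exact hx.2
    have h2 : ∑ x ∈ F, (P.neighborSet x).ncard ≤
        ∑ x ∈ univ.filter (fun x : Fin k => x.val < m), (P.neighborSet x).ncard := by
      refine sum_le_sum_of_subset ?_
      intro x hx
      simp only [hF, mem_filter, mem_univ, true_and] at hx ⊢
      exact hx.1
    have h3 := sum_degree_first P m hP
    nlinarith
  · intro x hx hxm
    simp only [hF, mem_filter, mem_univ, true_and, not_and, not_lt] at hx
    exact hx hxm

/-- the trivial lower bound -/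
theorem linear_lower {k : ℕ} (P : SimpleGraph (Fin k)) (h2 : 2 ≤ P.edgeSet.ncard) :
    ∀ n : ℕ, 2 ≤ n → (1 / 4 : ℝ) * (n : ℝ) ^ (1 : ℝ) ≤ (SimpleGraph.extremalNumber n P : ℝ) := by
  intro n hn
  have h1 := half_le_extremalNumber P h2 n
  have h3 : n ≤ 4 * SimpleGraph.extremalNumber n P := by omega
  have h4 : (n : ℝ) ≤ 4 * SimpleGraph.extremalNumber n P := by exact_mod_cast h3
  rw [Real.rpow_one]
  linarith

theorem nonempty_edges {k : ℕ} (P : SimpleGraph (Fin k)) (h2 : 2 ≤ P.edgeSet.ncard) :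
    P.edgeSet.Nonempty := by
  rw [← Set.ncard_pos]
  omega

/-- general upper bound with any `h` -/
theorem rP_le_general {k : ℕ} (P : SimpleGraph (Fin k)) (m h : ℕ) (hh : 1 ≤ h)
    (hP : OrderedBipartite P m) (h2 : 2 ≤ P.edgeSet.ncard) (hH : HIndexLe P m h)
    (ε : ℝ) (hε : 0 < ε) :
    ∃ C : ℝ, 0 ≤ C ∧ ∀ n : ℕ, 2 ≤ n → rP P n ≤ C * (n : ℝ) ^ (1 - 1 / (h : ℝ) + ε) := by
  obtain ⟨C, hC0, hC⟩ := hindex_theorem P m h hh hP (nonempty_edges P h2) hH ε hε
  obtain ⟨C', hC'0, hC'⟩ := rP_le_of_lower P _ 1 C hC hC0 (1 / 4) (by norm_num) (linear_lower P h2)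
  refine ⟨C', hC'0, fun n hn => ?_⟩
  have := hC' n hn
  convert this using 3
  ring

/-- `r_P(n) ≤ C n ^ (1 - 1/√e(P) + ε)` for every ordered bipartite `P` with at least two edges -/
theorem rP_le_sqrt {k : ℕ} (P : SimpleGraph (Fin k)) (m : ℕ) (hP : OrderedBipartite P m)
    (h2 : 2 ≤ P.edgeSet.ncard) (ε : ℝ) (hε : 0 < ε) :
    ∃ C : ℝ, 0 ≤ C ∧ ∀ n : ℕ, 2 ≤ n →
      rP P n ≤ C * (n : ℝ) ^ (1 - 1 / Real.sqrt (P.edgeSet.ncard : ℝ) + ε) := by
  set e := P.edgeSet.ncard with he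
  have hs1 : 1 ≤ Nat.sqrt e := Nat.le_sqrt.2 (by omega)
  obtain ⟨C, hC0, hC⟩ := rP_le_general P m (Nat.sqrt e) hs1 hP h2
    (hindex_of_card P m _ hP (by rw [pow_two]; exact Nat.lt_succ_sqrt e)) ε hε
  refine ⟨C, hC0, fun n hn => (hC n hn).trans ?_⟩
  have hn1 : (1 : ℝ) ≤ n := by
    have : 1 ≤ n := by omega
    exact_mod_cast this
  have h3 : ((Nat.sqrt e : ℕ) : ℝ) ≤ Real.sqrt (e : ℝ) := Real.nat_sqrt_le_real_sqrt
  have h4 : (0 : ℝ) < (Nat.sqrt e : ℕ) := by exact_mod_cast hs1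
  have h5 : 1 / Real.sqrt (e : ℝ) ≤ 1 / ((Nat.sqrt e : ℕ) : ℝ) := one_div_le_one_div_of_le h4 h3
  apply mul_le_mul_of_nonneg_left _ hC0
  exact Real.rpow_le_rpow_of_exponent_le hn1 (by linarith)

/-- the bound with the density of a subgraph `H` -/
theorem rP_le_subgraph {k v : ℕ} (P : SimpleGraph (Fin k)) (m h : ℕ) (hh : 1 ≤ h)
    (hP : OrderedBipartite P m) (hH : HIndexLe P m h) (H : SimpleGraph (Fin v))
    (hHP : H.IsContained P) (h2 : 2 ≤ H.edgeSet.ncard) (ε : ℝ) (hε : 0 < ε) :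
    ∃ C : ℝ, 0 ≤ C ∧ ∀ n : ℕ, 2 ≤ n →
      rP P n ≤ C * (n : ℝ) ^ (((v : ℝ) - 2) / ((H.edgeSet.ncard : ℝ) - 1) - 1 / (h : ℝ) + ε) := by
  have hne : P.edgeSet.Nonempty := by
    obtain ⟨e, he⟩ := nonempty_edges H h2
    obtain ⟨f⟩ := hHP
    induction e using Sym2.ind with
    | _ x y =>
      refine ⟨s(f x, f y), ?_⟩
      rw [SimpleGraph.mem_edgeSet] at he ⊢
      exact f.toHom.map_adj he
  obtain ⟨C, hC0, hC⟩ := hindex_theorem P m h hh hP hne hH ε hε
  obtain ⟨c, hc, hlow⟩ := deletion_lower H _ rfl h2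
  obtain ⟨C', hC'0, hC'⟩ := rP_le_of_lower P _ _ C hC hC0 c hc (fun n hn =>
    (hlow n hn).trans (by exact_mod_cast hHP.extremalNumber_le))
  refine ⟨C', hC'0, fun n hn => ?_⟩
  have := hC' n hn
  convert this using 3
  ring

/-- the bound for patterns with a 4-cycle -/
theorem rP_le_c4 {k : ℕ} (P : SimpleGraph (Fin k)) (m h : ℕ) (hh : 1 ≤ h)
    (hP : OrderedBipartite P m) (hH : HIndexLe P m h)
    (hHP : (SimpleGraph.cycleGraph 4).IsContained P) (ε : ℝ) (hε : 0 < ε) :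
    ∃ C : ℝ, 0 ≤ C ∧ ∀ n : ℕ, 2 ≤ n →
      rP P n ≤ C * (n : ℝ) ^ (1 / 2 - 1 / (h : ℝ) + ε) := by
  have hne : P.edgeSet.Nonempty := by
    obtain ⟨f⟩ := hHP
    refine ⟨s(f 0, f 1), ?_⟩
    rw [SimpleGraph.mem_edgeSet]
    exact f.toHom.map_adj (by decide)
  obtain ⟨C, hC0, hC⟩ := hindex_theorem P m h hh hP hne hH ε hε
  obtain ⟨c, hc, hlow⟩ := c4_lower
  obtain ⟨C', hC'0, hC'⟩ := rP_le_of_lower P _ _ C hC hC0 c hc (fun n hn =>
    (hlow n hn).trans (by exact_mod_cast hHP.extremalNumber_le))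
  refine ⟨C', hC'0, fun n hn => ?_⟩
  have := hC' n hn
  convert this using 3
  ring

theorem SmallRatio.not_omega {k : ℕ} {P : SimpleGraph (Fin k)} (h : SmallRatio P) :
    ¬ OmegaThird P := by
  obtain ⟨δ, hδ, C, hC⟩ := h
  exact Pool.Agent.OTR.not_omega P _ C (by linarith) hC

/-! ## Q1 -/

/-- `h = 1` -/
theorem q1_h1 {k : ℕ} (P : SimpleGraph (Fin k)) (m : ℕ) (hP : OrderedBipartite P m)
    (h2 : 2 ≤ P.edgeSet.ncard) (hH : HIndexLe P m 1) : SmallRatio P := by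
  obtain ⟨C, hC0, hC⟩ := rP_le_general P m 1 le_rfl hP h2 hH (1 / 4) (by norm_num)
  exact smallRatio_of P _ C (by norm_num) hC

/-- density of a subgraph -/
theorem q1_subgraph {k v : ℕ} (P : SimpleGraph (Fin k)) (m h : ℕ) (hh : 1 ≤ h)
    (hP : OrderedBipartite P m) (hH : HIndexLe P m h) (H : SimpleGraph (Fin v))
    (hHP : H.IsContained P) (h2 : 2 ≤ H.edgeSet.ncard)
    (hdens : ((v : ℝ) - 2) / ((H.edgeSet.ncard : ℝ) - 1) < 1 / 3 + 1 / (h : ℝ)) :
    SmallRatio P := by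
  obtain ⟨C, hC0, hC⟩ := rP_le_subgraph P m h hh hP hH H hHP h2
    ((1 / 3 + 1 / (h : ℝ) - ((v : ℝ) - 2) / ((H.edgeSet.ncard : ℝ) - 1)) / 2) (by linarith)
  exact smallRatio_of P _ C (by linarith) hC

/-- a 4-cycle and `h ≤ 5` -/
theorem q1_c4 {k : ℕ} (P : SimpleGraph (Fin k)) (m : ℕ)
    (hP : OrderedBipartite P m) (hH : HIndexLe P m 5)
    (hHP : (SimpleGraph.cycleGraph 4).IsContained P) : SmallRatio P := by
  obtain ⟨C, hC0, hC⟩ := rP_le_c4 P m 5 (by norm_num) hP hH hHP (1 / 60) (by norm_num)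
  exact smallRatio_of P _ C (by norm_num) hC

/-- a 4-cycle and at most 35 edges -/
theorem q1_c4_edges {k : ℕ} (P : SimpleGraph (Fin k)) (m : ℕ)
    (hP : OrderedBipartite P m) (he : P.edgeSet.ncard < 36)
    (hHP : (SimpleGraph.cycleGraph 4).IsContained P) : SmallRatio P :=
  q1_c4 P m hP (hindex_of_card P m 5 hP (by norm_num; exact he)) hHP

/-- a subgraph of minimum degree 3 and `h ≤ 3` -/
theorem q1_mindeg {k v : ℕ} (P : SimpleGraph (Fin k)) (m : ℕ)
    (hP : OrderedBipartite P m) (hH : HIndexLe P m 3) (H : SimpleGraph (Fin v)) (hv : 0 < v)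
    (hHP : H.IsContained P) (hdeg : ∀ x, 3 ≤ (H.neighborSet x).ncard) : SmallRatio P := by
  classical
  have h1 : 3 * v ≤ 2 * H.edgeSet.ncard := by
    have h2 := H.sum_degrees_eq_twice_card_edges
    have h3 : ∑ x : Fin v, 3 ≤ ∑ x : Fin v, H.degree x := by
      refine sum_le_sum (fun x _ => ?_)
      have := hdeg x
      rwa [Set.ncard_eq_toFinset_card', ← SimpleGraph.neighborFinset_def,
        SimpleGraph.card_neighborFinset_eq_degree] at this
    rw [h2, ← SimpleGraph.coe_edgeFinset, Set.ncard_coe_finset] at *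
    simpa [mul_comm] using h3
  have hR : (3 : ℝ) * v ≤ 2 * (H.edgeSet.ncard : ℝ) := by exact_mod_cast h1
  have hv1 : (1 : ℝ) ≤ v := by exact_mod_cast hv
  have h2 : 2 ≤ H.edgeSet.ncard := by omega
  have h2R : (2 : ℝ) ≤ (H.edgeSet.ncard : ℝ) := by exact_mod_cast h2
  refine q1_subgraph P m 3 (by norm_num) hP hH H hHP h2 ?_
  rw [div_lt_iff₀ (by linarith)]
  push_cast
  linarith

end Pool.Agent.OTR
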