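import Pool.Agent.OTR.M3
import Pool.Agent.OTR.F2

/-!
# The non-leaf h-index theorem for ordered bipartite graphs
-/

namespace Pool.Agent.OTR

open Finset

/-- The neighbours of `x` that have degree at least `2`. -/
def mainNbr {k : ℕ} (P : SimpleGraph (Fin k)) (x : Fin k) : Set (Fin k) :=
  {y | P.Adj x y ∧ 2 ≤ (P.neighborSet y).ncard}

/-- All but at most `h` vertices of the first class have at most `h` neighbours of degree at least `2`,
or all but at most `h` vertices of the second class have at most `h` neighbours of degree at least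
`2`. -/
def NLIndexLe {k : ℕ} (P : SimpleGraph (Fin k)) (m h : ℕ) : Prop :=
  (∃ E : Finset (Fin k), E.card ≤ h ∧
    ∀ x, x ∉ E → x.val < m → (mainNbr P x).ncard ≤ h) ∨
  (∃ E : Finset (Fin k), E.card ≤ h ∧
    ∀ x, x ∉ E → m ≤ x.val → (mainNbr P x).ncard ≤ h)

theorem mainNbr_le {k : ℕ} (P : SimpleGraph (Fin k)) (x : Fin k) :
    (mainNbr P x).ncard ≤ (P.neighborSet x).ncard :=
  Set.ncard_le_ncard (fun _ hy => hy.1) (Set.toFinite _)

theorem HIndexLe.nl {k : ℕ} {P : SimpleGraph (Fin k)} {m h : ℕ} (hH : HIndexLe P m h) :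
    NLIndexLe P m h := by
  rcases hH with ⟨E, hE, hd⟩ | ⟨E, hE, hd⟩
  · exact Or.inl ⟨E, hE, fun x hx hm => (mainNbr_le P x).trans (hd x hx hm)⟩
  · exact Or.inr ⟨E, hE, fun x hx hm => (mainNbr_le P x).trans (hd x hx hm)⟩

theorem upper2_aux {a b h : ℕ} (hh : 1 ≤ h) (ha : 1 ≤ a) (hb : 1 ≤ b)
    (P : SimpleGraph (Fin (a + b))) (hP : OrderedBipartite P a) (hH : NLIndexLe P a h)
    (ε : ℝ) (hε : 0 < ε) :
    ∃ C : ℝ, 0 ≤ C ∧ ∀ n : ℕ, (exLt P n : ℝ) ≤ C * (n : ℝ) ^ (2 - 1 / (h : ℝ) + ε) := by
  classical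
  have hhR : (1 : ℝ) ≤ h := by exact_mod_cast hh
  have hinv : 1 / (h : ℝ) ≤ 1 := by
    rw [div_le_one (by linarith)]
    exact hhR
  have hα : 1 < 2 - 1 / (h : ℝ) + ε := by linarith
  rcases hH with ⟨E, hE, hdeg⟩ | ⟨E, hE, hdeg⟩
  · have hQ : ∀ i ∉ (univ.filter (fun i : Fin a => Fin.castAdd b i ∈ E)),
        (mainRow (fun (i : Fin a) (j : Fin b) => P.Adj (Fin.castAdd b i) (Fin.natAdd a j)) i).ncard
          ≤ h := by
      intro i hi
      simp only [mem_filter, mem_univ, true_and] at hi
      refine le_trans ?_ (hdeg _ hi (by simp))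
      refine Set.ncard_le_ncard_of_injOn (fun j => Fin.natAdd a j) (fun j hj => ⟨hj.1, ?_⟩) ?_ ?_
      · refine hj.2.trans ?_
        refine Set.ncard_le_ncard_of_injOn (fun i => Fin.castAdd b i) (fun i hi => ?_) ?_ ?_
        · exact SimpleGraph.Adj.symm hi
        · intro i _ i' _ hii
          exact Fin.castAdd_injective _ _ hii
        · exact Set.toFinite _
      · intro j _ j' _ hjj
        exact Fin.natAdd_injective _ _ hjj
      · exact Set.toFinite _
    have hEc : (univ.filter (fun i : Fin a => Fin.castAdd b i ∈ E)).card ≤ h := by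
      refine le_trans ?_ hE
      refine card_le_card_of_injOn (fun i => Fin.castAdd b i) ?_ ?_
      · intro i hi
        simpa using hi
      · intro i _ i' _ hii
        exact Fin.castAdd_injective _ _ hii
    obtain ⟨C, hC0, hC⟩ := matrix2_theorem hh ha
      (fun (i : Fin a) (j : Fin b) => P.Adj (Fin.castAdd b i) (Fin.natAdd a j)) _ hEc hQ ε hε
    exact exLt_le_of_matrix P hP _ C hα hC0 hC
  · -- exceptional vertices in the second class: transpose
    have hQ : ∀ j ∉ (univ.filter (fun j : Fin b => Fin.natAdd a j ∈ E)),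
        (mainRow (fun (j : Fin b) (i : Fin a) => P.Adj (Fin.castAdd b i) (Fin.natAdd a j)) j).ncard
          ≤ h := by
      intro j hj
      simp only [mem_filter, mem_univ, true_and] at hj
      refine le_trans ?_ (hdeg _ hj (by simp))
      refine Set.ncard_le_ncard_of_injOn (fun i => Fin.castAdd b i)
        (fun i hi => ⟨SimpleGraph.Adj.symm hi.1, ?_⟩) ?_ ?_
      · refine hi.2.trans ?_
        refine Set.ncard_le_ncard_of_injOn (fun j => Fin.natAdd a j) (fun j hj => hj) ?_ ?_
        · intro j _ j' _ hjj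
          exact Fin.natAdd_injective _ _ hjj
        · exact Set.toFinite _
      · intro i _ i' _ hii
        exact Fin.castAdd_injective _ _ hii
      · exact Set.toFinite _
    have hEc : (univ.filter (fun j : Fin b => Fin.natAdd a j ∈ E)).card ≤ h := by
      refine le_trans ?_ hE
      refine card_le_card_of_injOn (fun j => Fin.natAdd a j) ?_ ?_
      · intro j hj
        simpa using hj
      · intro j _ j' _ hjj
        exact Fin.natAdd_injective _ _ hjj
    obtain ⟨C, hC0, hC⟩ := matrix2_theorem hh hb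
      (fun (j : Fin b) (i : Fin a) => P.Adj (Fin.castAdd b i) (Fin.natAdd a j)) _ hEc hQ ε hε
    refine exLt_le_of_matrix P hP _ C hα hC0 ?_
    intro L A hA hnot
    have h1 : (A.image Prod.swap).card = A.card := card_image_of_injective _ Prod.swap_injective
    rw [← h1]
    apply hC L
    · intro x hx
      obtain ⟨y, hy, rfl⟩ := mem_image.1 hx
      have := hA hy
      rw [mem_product] at this
      simp only [mem_product, Prod.fst_swap, Prod.snd_swap]
      exact ⟨this.2, this.1⟩
    · intro hcon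
      exact hnot (mcontains_transpose _ A hcon)

/-- **The non-leaf h-index theorem.** -/
theorem nonleaf_theorem {k : ℕ} (P : SimpleGraph (Fin k)) (m h : ℕ) (hh : 1 ≤ h)
    (hP : OrderedBipartite P m) (hne : P.edgeSet.Nonempty) (hH : NLIndexLe P m h)
    (ε : ℝ) (hε : 0 < ε) :
    ∃ C : ℝ, 0 ≤ C ∧ ∀ n : ℕ, (exLt P n : ℝ) ≤ C * (n : ℝ) ^ (2 - 1 / (h : ℝ) + ε) := by
  obtain ⟨e, he⟩ := hne
  induction e using Sym2.ind with
  | _ x y =>
    rw [SimpleGraph.mem_edgeSet] at he
    have hxy : 1 ≤ m ∧ m < k := by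
      rcases lt_trichotomy x y with h1 | h1 | h1
      · have := hP x y he h1
        have := y.2
        omega
      · exact absurd h1 he.ne
      · have := hP y x he.symm h1
        have := x.2
        omega
    obtain ⟨b, rfl⟩ : ∃ b, k = m + b := ⟨k - m, by omega⟩
    exact upper2_aux hh hxy.1 (by omega) P hP hH ε hε

end Pool.Agent.OTR
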