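import Pool.Agent.OTR.F3

/-!
# Consequences of the non-leaf h-index theorem for the ratio `r_P`
-/

namespace Pool.Agent.OTR

open Finset

/-- The edges of `P` both of whose ends have degree at least `2`. -/
def coreEdges {k : ℕ} (P : SimpleGraph (Fin k)) : Set (Sym2 (Fin k)) :=
  {e | e ∈ P.edgeSet ∧ ∀ v ∈ e, 2 ≤ (P.neighborSet v).ncard}

theorem sum_main_first {k : ℕ} (P : SimpleGraph (Fin k)) (m : ℕ) (hP : OrderedBipartite P m)
    (F : Finset (Fin k)) (hF : ∀ x ∈ F, x.val < m ∧ 2 ≤ (P.neighborSet x).ncard) :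
    ∑ x ∈ F, (mainNbr P x).ncard ≤ (coreEdges P).ncard := by
  classical
  have h1 : ∑ x ∈ F, (mainNbr P x).ncard = (F.sigma (fun x => (mainNbr P x).toFinset)).card := by
    rw [card_sigma]
    refine sum_congr rfl (fun x _ => ?_)
    rw [Set.ncard_eq_toFinset_card']
  rw [h1, Set.ncard_eq_toFinset_card']
  refine card_le_card_of_injOn (fun p => s(p.1, p.2)) ?_ ?_
  · rintro ⟨x, y⟩ hxy
    simp only [coe_sigma, Set.mem_sigma_iff, mem_coe, Set.mem_toFinset] at hxy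
    simp only [Set.coe_toFinset]
    refine ⟨hxy.2.1, ?_⟩
    intro v hv
    rw [Sym2.mem_iff] at hv
    rcases hv with rfl | rfl
    · exact (hF _ hxy.1).2
    · exact hxy.2.2
  · rintro ⟨x, y⟩ hxy ⟨x', y'⟩ hxy' heq
    simp only [coe_sigma, Set.mem_sigma_iff, mem_coe, Set.mem_toFinset] at hxy hxy'
    simp only [Sym2.eq_iff] at heq
    rcases heq with ⟨h2, h3⟩ | ⟨h2, h3⟩
    · rw [h2, h3]
    · exfalso
      have hx := (hF _ hxy.1).1
      have hx' := (hF _ hxy'.1).1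
      have hadj : P.Adj x y := hxy.2.1
      rcases lt_trichotomy x y with h4 | h4 | h4
      · have := (hP x y hadj h4).2
        rw [← h3] at hx'
        omega
      · exact absurd h4 hadj.ne
      · have := (hP y x hadj.symm h4).2
        omega

/-- fewer than `(s+1)^2` edges between vertices of degree at least `2` give index at most `s` -/
theorem nlindex_of_card {k : ℕ} (P : SimpleGraph (Fin k)) (m s : ℕ) (hs : 1 ≤ s)
    (hP : OrderedBipartite P m) (he : (coreEdges P).ncard < (s + 1) ^ 2) : NLIndexLe P m s := by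
  classical
  left
  set F := univ.filter (fun x : Fin k => x.val < m ∧ s < (mainNbr P x).ncard) with hF
  refine ⟨F, ?_, ?_⟩
  · by_contra hcon
    push Not at hcon
    have h1 : (s + 1) * (s + 1) ≤ ∑ x ∈ F, (mainNbr P x).ncard := by
      calc (s + 1) * (s + 1) ≤ F.card * (s + 1) := Nat.mul_le_mul_right _ hcon
        _ = ∑ x ∈ F, (s + 1) := by rw [sum_const, smul_eq_mul]
        _ ≤ _ := by
            refine sum_le_sum (fun x hx => ?_)
            simp only [hF, mem_filter, mem_univ, true_and] at hx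
            exact hx.2
    have h3 := sum_main_first P m hP F (by
      intro x hx
      simp only [hF, mem_filter, mem_univ, true_and] at hx
      refine ⟨hx.1, ?_⟩
      have := mainNbr_le P x
      omega)
    nlinarith
  · intro x hx hxm
    simp only [hF, mem_filter, mem_univ, true_and, not_and, not_lt] at hx
    exact hx hxm

/-- general upper bound with any `h` -/
theorem rP_le_nl {k : ℕ} (P : SimpleGraph (Fin k)) (m h : ℕ) (hh : 1 ≤ h)
    (hP : OrderedBipartite P m) (h2 : 2 ≤ P.edgeSet.ncard) (hH : NLIndexLe P m h)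
    (ε : ℝ) (hε : 0 < ε) :
    ∃ C : ℝ, 0 ≤ C ∧ ∀ n : ℕ, 2 ≤ n → rP P n ≤ C * (n : ℝ) ^ (1 - 1 / (h : ℝ) + ε) := by
  obtain ⟨C, hC0, hC⟩ := nonleaf_theorem P m h hh hP (nonempty_edges P h2) hH ε hε
  obtain ⟨C', hC'0, hC'⟩ := rP_le_of_lower P _ 1 C hC hC0 (1 / 4) (by norm_num) (linear_lower P h2)
  refine ⟨C', hC'0, fun n hn => ?_⟩
  have := hC' n hn
  convert this using 3
  ring

/-- `r_P(n) ≤ C n ^ (1 - 1/√e° + ε)`, `e°` the number of edges between vertices of degree at least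
`2` (at least `1`), for every ordered bipartite `P` with at least two edges -/
theorem rP_le_core {k : ℕ} (P : SimpleGraph (Fin k)) (m : ℕ) (hP : OrderedBipartite P m)
    (h2 : 2 ≤ P.edgeSet.ncard) (ε : ℝ) (hε : 0 < ε) :
    ∃ C : ℝ, 0 ≤ C ∧ ∀ n : ℕ, 2 ≤ n →
      rP P n ≤ C * (n : ℝ) ^ (1 - 1 / Real.sqrt ((max 1 (coreEdges P).ncard : ℕ) : ℝ) + ε) := by
  set e := max 1 (coreEdges P).ncard with he
  have he1 : 1 ≤ e := le_max_left _ _
  have hs1 : 1 ≤ Nat.sqrt e := Nat.le_sqrt.2 (by omega)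
  have hlt : (coreEdges P).ncard < (Nat.sqrt e + 1) ^ 2 := by
    have h3 : e < (Nat.sqrt e + 1) ^ 2 := by
      rw [pow_two]
      exact Nat.lt_succ_sqrt e
    exact lt_of_le_of_lt (le_max_right _ _) h3
  obtain ⟨C, hC0, hC⟩ := rP_le_nl P m (Nat.sqrt e) hs1 hP h2
    (nlindex_of_card P m _ hs1 hP hlt) ε hε
  refine ⟨C, hC0, fun n hn => (hC n hn).trans ?_⟩
  have hn1 : (1 : ℝ) ≤ n := by
    have : 1 ≤ n := by omega
    exact_mod_cast this
  have h3 : ((Nat.sqrt e : ℕ) : ℝ) ≤ Real.sqrt (e : ℝ) := Real.nat_sqrt_le_real_sqrt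
  have h4 : (0 : ℝ) < (Nat.sqrt e : ℕ) := by exact_mod_cast hs1
  have h5 : 1 / Real.sqrt (e : ℝ) ≤ 1 / ((Nat.sqrt e : ℕ) : ℝ) := one_div_le_one_div_of_le h4 h3
  apply mul_le_mul_of_nonneg_left _ hC0
  exact Real.rpow_le_rpow_of_exponent_le hn1 (by linarith)

/-- the bound with the density of a subgraph `H` -/
theorem rP_le_subgraph_nl {k v : ℕ} (P : SimpleGraph (Fin k)) (m h : ℕ) (hh : 1 ≤ h)
    (hP : OrderedBipartite P m) (hH : NLIndexLe P m h) (H : SimpleGraph (Fin v))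
    (hHP : H.IsContained P) (h2 : 2 ≤ H.edgeSet.ncard) (ε : ℝ) (hε : 0 < ε) :
    ∃ C : ℝ, 0 ≤ C ∧ ∀ n : ℕ, 2 ≤ n →
      rP P n ≤ C * (n : ℝ) ^ (((v : ℝ) - 2) / ((H.edgeSet.ncard : ℝ) - 1) - 1 / (h : ℝ) + ε) := by
  have hne : P.edgeSet.Nonempty := by
    obtain ⟨e, he⟩ := nonempty_edges H h2
    obtain ⟨f⟩ := hHP
    induction e using Sym2.ind with
    | _ x y =>
      refine ⟨s(f x, f y), ?_⟩
      rw [SimpleGraph.mem_edgeSet] at he ⊢
      exact f.toHom.map_adj he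
  obtain ⟨C, hC0, hC⟩ := nonleaf_theorem P m h hh hP hne hH ε hε
  obtain ⟨c, hc, hlow⟩ := deletion_lower H _ rfl h2
  obtain ⟨C', hC'0, hC'⟩ := rP_le_of_lower P _ _ C hC hC0 c hc (fun n hn =>
    (hlow n hn).trans (by exact_mod_cast hHP.extremalNumber_le))
  refine ⟨C', hC'0, fun n hn => ?_⟩
  have := hC' n hn
  convert this using 3
  ring

/-- the bound for patterns with a 4-cycle -/
theorem rP_le_c4_nl {k : ℕ} (P : SimpleGraph (Fin k)) (m h : ℕ) (hh : 1 ≤ h)
    (hP : OrderedBipartite P m) (hH : NLIndexLe P m h)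
    (hHP : (SimpleGraph.cycleGraph 4).IsContained P) (ε : ℝ) (hε : 0 < ε) :
    ∃ C : ℝ, 0 ≤ C ∧ ∀ n : ℕ, 2 ≤ n →
      rP P n ≤ C * (n : ℝ) ^ (1 / 2 - 1 / (h : ℝ) + ε) := by
  have hne : P.edgeSet.Nonempty := by
    obtain ⟨f⟩ := hHP
    refine ⟨s(f 0, f 1), ?_⟩
    rw [SimpleGraph.mem_edgeSet]
    exact f.toHom.map_adj (by decide)
  obtain ⟨C, hC0, hC⟩ := nonleaf_theorem P m h hh hP hne hH ε hε
  obtain ⟨c, hc, hlow⟩ := c4_lower
  obtain ⟨C', hC'0, hC'⟩ := rP_le_of_lower P _ _ C hC hC0 c hc (fun n hn =>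
    (hlow n hn).trans (by exact_mod_cast hHP.extremalNumber_le))
  refine ⟨C', hC'0, fun n hn => ?_⟩
  have := hC' n hn
  convert this using 3
  ring

/-- Q1: density of a subgraph -/
theorem q1_subgraph_nl {k v : ℕ} (P : SimpleGraph (Fin k)) (m h : ℕ) (hh : 1 ≤ h)
    (hP : OrderedBipartite P m) (hH : NLIndexLe P m h) (H : SimpleGraph (Fin v))
    (hHP : H.IsContained P) (h2 : 2 ≤ H.edgeSet.ncard)
    (hdens : ((v : ℝ) - 2) / ((H.edgeSet.ncard : ℝ) - 1) < 1 / 3 + 1 / (h : ℝ)) :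
    SmallRatio P := by
  obtain ⟨C, hC0, hC⟩ := rP_le_subgraph_nl P m h hh hP hH H hHP h2
    ((1 / 3 + 1 / (h : ℝ) - ((v : ℝ) - 2) / ((H.edgeSet.ncard : ℝ) - 1)) / 2) (by linarith)
  exact smallRatio_of P _ C (by linarith) hC

/-- Q1: a 4-cycle and index at most 5 -/
theorem q1_c4_nl {k : ℕ} (P : SimpleGraph (Fin k)) (m : ℕ)
    (hP : OrderedBipartite P m) (hH : NLIndexLe P m 5)
    (hHP : (SimpleGraph.cycleGraph 4).IsContained P) : SmallRatio P := by
  obtain ⟨C, hC0, hC⟩ := rP_le_c4_nl P m 5 (by norm_num) hP hH hHP (1 / 60) (by norm_num)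
  exact smallRatio_of P _ C (by norm_num) hC

/-- Q1: a 4-cycle and at most 35 edges between vertices of degree at least `2` -/
theorem q1_c4_core {k : ℕ} (P : SimpleGraph (Fin k)) (m : ℕ)
    (hP : OrderedBipartite P m) (hH : NLIndexLe P m 5 ∨ (coreEdges P).ncard < 36)
    (hHP : (SimpleGraph.cycleGraph 4).IsContained P) : SmallRatio P := by
  rcases hH with hH | hH
  · exact q1_c4_nl P m hP hH hHP
  · exact q1_c4_nl P m hP (nlindex_of_card P m 5 (by norm_num) hP (by norm_num; exact hH)) hHP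

end Pool.Agent.OTR
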