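import Pool.Agent.OTR.Defs

/-!
# [OTR-S2] binomial sums with few elements
-/

namespace Pool.Agent.OTR

open Finset

theorem BB_mul_pow_le {η : ℝ} (h0 : 0 < η) (h1 : η ≤ 1) (L K : ℕ) :
    (BB L K : ℝ) * η ^ K ≤ (1 + η) ^ L := by
  have h := Finset.sum_pow_mul_eq_add_pow η 1 (range L)
  rw [card_range] at h
  rw [add_comm 1 η, ← h]
  calc (BB L K : ℝ) * η ^ K
      = ∑ S ∈ (range L).powerset.filter (fun S => S.card ≤ K), η ^ K := by
        rw [sum_const, nsmul_eq_mul]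
        rfl
    _ ≤ ∑ S ∈ (range L).powerset.filter (fun S => S.card ≤ K),
          η ^ S.card * 1 ^ ((range L).card - S.card) := by
        refine sum_le_sum fun S hS => ?_
        rw [mem_filter] at hS
        rw [one_pow, mul_one]
        exact pow_le_pow_of_le_one h0.le h1 hS.2
    _ ≤ ∑ S ∈ (range L).powerset, η ^ S.card * 1 ^ ((range L).card - S.card) := by
        refine sum_le_sum_of_subset_of_nonneg (filter_subset _ _) fun S _ _ => ?_
        rw [one_pow, mul_one]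
        exact pow_nonneg h0.le _
    _ = ∑ S ∈ (range L).powerset, η ^ S.card * 1 ^ (L - S.card) := by
        rw [card_range]

theorem BB_bound (m : ℕ) (ε : ℝ) (hε : 0 < ε) : ∃ J : ℕ, 1 ≤ J ∧ ∃ C : ℝ, 0 < C ∧
    ∀ L : ℕ, (BB L (m * (L / J + 1)) : ℝ) ≤ C * (2 : ℝ) ^ (ε * (L : ℝ)) := by
  have hl2 : 0 < Real.log 2 := Real.log_pos (by norm_num)
  have hgt : (1 : ℝ) < 2 ^ (ε / 2) := Real.one_lt_rpow (by norm_num) (by linarith)
  obtain ⟨η, h0, h1, h2⟩ : ∃ η : ℝ, 0 < η ∧ η ≤ 1 ∧ 1 + η ≤ 2 ^ (ε / 2) := by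
    refine ⟨min 1 (2 ^ (ε / 2) - 1), lt_min one_pos (by linarith), min_le_left _ _, ?_⟩
    have := min_le_right (1 : ℝ) (2 ^ (ε / 2) - 1)
    linarith
  obtain ⟨J, hJ⟩ : ∃ J : ℕ, m * Real.log (1 / η) / (ε / 2 * Real.log 2) ≤ J := exists_nat_ge _
  have hpos : 0 < ε / 2 * Real.log 2 := by positivity
  have hη1 : (1 : ℝ) ≤ 1 / η := by
    rw [le_div_iff₀ h0]
    linarith
  refine ⟨J + 1, by omega, (1 / η) ^ m, by positivity, fun L => ?_⟩
  have hJ' : m * Real.log (1 / η) ≤ ((J + 1 : ℕ) : ℝ) * (ε / 2 * Real.log 2) := by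
    rw [div_le_iff₀ hpos] at hJ
    push_cast
    linarith
  have hK := BB_mul_pow_le h0 h1 L (m * (L / (J + 1) + 1))
  have hB : (BB L (m * (L / (J + 1) + 1)) : ℝ) ≤
      (1 + η) ^ L * (1 / η) ^ (m * (L / (J + 1) + 1)) := by
    rw [one_div, inv_pow, ← div_eq_mul_inv, le_div_iff₀ (by positivity)]
    exact hK
  have hA : (1 + η) ^ L ≤ (2 : ℝ) ^ (ε / 2 * (L : ℝ)) := by
    rw [Real.rpow_mul (by norm_num), Real.rpow_natCast]
    exact pow_le_pow_left₀ (by linarith) h2 L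
  have hD : (1 / η) ^ (m * (L / (J + 1))) ≤ (2 : ℝ) ^ (ε / 2 * (L : ℝ)) := by
    rw [← Real.log_le_log_iff (by positivity) (by positivity), Real.log_pow,
      Real.log_rpow (by norm_num)]
    have h3 : (((L / (J + 1) : ℕ) : ℝ)) * ((J + 1 : ℕ) : ℝ) ≤ L := by
      exact_mod_cast Nat.div_mul_le_self L (J + 1)
    have h4 : (0 : ℝ) ≤ ((L / (J + 1) : ℕ) : ℝ) := Nat.cast_nonneg _
    have h5 := mul_le_mul_of_nonneg_left hJ' h4
    have h6 := mul_le_mul_of_nonneg_right h3 hpos.le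
    rw [Nat.cast_mul]
    nlinarith
  calc (BB L (m * (L / (J + 1) + 1)) : ℝ)
      ≤ (1 + η) ^ L * (1 / η) ^ (m * (L / (J + 1) + 1)) := hB
    _ = (1 / η) ^ m * ((1 + η) ^ L * (1 / η) ^ (m * (L / (J + 1)))) := by
        rw [mul_add, mul_one, pow_add]
        ring
    _ ≤ (1 / η) ^ m * ((2 : ℝ) ^ (ε / 2 * (L : ℝ)) * (2 : ℝ) ^ (ε / 2 * (L : ℝ))) := by
        refine mul_le_mul_of_nonneg_left ?_ (by positivity)
        exact mul_le_mul hA hD (by positivity) (by positivity)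
    _ = (1 / η) ^ m * (2 : ℝ) ^ (ε * (L : ℝ)) := by
        rw [← Real.rpow_add (by norm_num)]
        congr 2
        ring

end Pool.Agent.OTR
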