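import Pool.Agent.OTR.S2

/-!
# [OTR-Z2] choice of the number of resolutions

PROOF. For `0 < x ≤ 1`: `BB d K * x ^ K ≤ (1 + x) ^ d` (S2.lean). With `d = M ^ k q`,
`K = (M-1) ^ k q = θ d`, `θ = ((M-1)/M) ^ k`: `BB d K ≤ (1 + x) ^ d * (1/x) ^ (θ d)`. Choose `x ∈ (0,1]` with
`1 + x ≤ 2 ^ (κ/2)`, and then `k ≥ 1` so large that `θ * log (1/x) ≤ (κ/2) log 2` (possible because
`θ → 0`, as `(M-1)/M < 1`). Then `BB d K ≤ 2 ^ (κ d / 2) * 2 ^ (κ d / 2)`.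
-/

namespace Pool.Agent.OTR

open Finset

theorem entropy_k (M : ℕ) (hM : 2 ≤ M) (κ : ℝ) (hκ : 0 < κ) : ∃ k : ℕ, 1 ≤ k ∧ ∀ q : ℕ,
    (BB (M ^ k * q) ((M - 1) ^ k * q) : ℝ) ≤ (2 : ℝ) ^ (κ * ((M ^ k * q : ℕ) : ℝ)) := by
  have hl2 : 0 < Real.log 2 := Real.log_pos (by norm_num)
  have hgt : (1 : ℝ) < 2 ^ (κ / 2) := Real.one_lt_rpow (by norm_num) (by linarith)
  obtain ⟨η, h0, h1, h2⟩ : ∃ η : ℝ, 0 < η ∧ η ≤ 1 ∧ 1 + η ≤ 2 ^ (κ / 2) := by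
    refine ⟨min 1 (2 ^ (κ / 2) - 1), lt_min one_pos (by linarith), min_le_left _ _, ?_⟩
    have := min_le_right (1 : ℝ) (2 ^ (κ / 2) - 1)
    linarith
  have hMR : (2 : ℝ) ≤ M := by exact_mod_cast hM
  have hcast : ((M - 1 : ℕ) : ℝ) = (M : ℝ) - 1 := by
    rw [Nat.cast_sub (by omega), Nat.cast_one]
  set θ : ℝ := ((M : ℝ) - 1) / M with hθ
  have hθ0 : 0 ≤ θ := div_nonneg (by linarith) (by linarith)
  have hθ1 : θ < 1 := by
    rw [hθ, div_lt_one (by linarith)]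
    linarith
  have hlogη : 0 ≤ Real.log (1 / η) := Real.log_nonneg (by
    rw [le_div_iff₀ h0]
    linarith)
  obtain ⟨k, hk⟩ := exists_pow_lt_of_lt_one
    (show 0 < κ / 2 * Real.log 2 / (Real.log (1 / η) + 1) by positivity) hθ1
  refine ⟨k + 1, by omega, fun q => ?_⟩
  set d : ℕ := M ^ (k + 1) * q with hd
  set K : ℕ := (M - 1) ^ (k + 1) * q with hK
  have hKd : (K : ℝ) = θ ^ (k + 1) * d := by
    rw [hK, hd, hθ, div_pow]
    push_cast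
    rw [hcast]
    field_simp
  have hk' : θ ^ (k + 1) * Real.log (1 / η) ≤ κ / 2 * Real.log 2 := by
    have h3 : θ ^ (k + 1) ≤ θ ^ k := pow_le_pow_of_le_one hθ0 hθ1.le (by omega)
    have h4 : θ ^ k * (Real.log (1 / η) + 1) ≤ κ / 2 * Real.log 2 := by
      rw [lt_div_iff₀ (by positivity)] at hk
      exact hk.le
    have h5 : 0 ≤ θ ^ k := pow_nonneg hθ0 _
    nlinarith
  have hB : (BB d K : ℝ) ≤ (1 + η) ^ d * (1 / η) ^ K := by
    rw [one_div, inv_pow, ← div_eq_mul_inv, le_div_iff₀ (by positivity)]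
    exact BB_mul_pow_le h0 h1 d K
  have hA : (1 + η) ^ d ≤ (2 : ℝ) ^ (κ / 2 * (d : ℝ)) := by
    rw [Real.rpow_mul (by norm_num), Real.rpow_natCast]
    exact pow_le_pow_left₀ (by linarith) h2 d
  have hD : (1 / η) ^ K ≤ (2 : ℝ) ^ (κ / 2 * (d : ℝ)) := by
    rw [← Real.log_le_log_iff (by positivity) (by positivity), Real.log_pow,
      Real.log_rpow (by norm_num), hKd]
    have h3 : (0 : ℝ) ≤ d := Nat.cast_nonneg _
    have h4 := mul_le_mul_of_nonneg_right hk' h3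
    calc θ ^ (k + 1) * d * Real.log (1 / η) = θ ^ (k + 1) * Real.log (1 / η) * d := by ring
      _ ≤ κ / 2 * Real.log 2 * d := h4
      _ = _ := by ring
  calc (BB d K : ℝ) ≤ (1 + η) ^ d * (1 / η) ^ K := hB
    _ ≤ (2 : ℝ) ^ (κ / 2 * (d : ℝ)) * (2 : ℝ) ^ (κ / 2 * (d : ℝ)) :=
        mul_le_mul hA hD (by positivity) (by positivity)
    _ = (2 : ℝ) ^ (κ * (d : ℝ)) := by
        rw [← Real.rpow_add (by norm_num)]
        congr 1
        ring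

end Pool.Agent.OTR
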