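import Pool.Agent.OTR.Defs

/-!
# [OTR-V1] few columns see few levels

PROOF. `w ↦ visR L T w` is injective on `T` (for `T ⊆ range (2 ^ L)`): let `w < w'` be in `T`. Let `l` be
maximal with `w / 2 ^ l ≠ w' / 2 ^ l` (it exists: `l = 0` is such an `l`, and for `l ≥ L` both are `0`; so
`l < L` and `w / 2 ^ (l+1) = w' / 2 ^ (l+1)`). Since `w / 2 ^ l / 2 = w' / 2 ^ l / 2` and
`w / 2 ^ l < w' / 2 ^ l` we get `w / 2 ^ l % 2 = 0` and `w' / 2 ^ l = w / 2 ^ l + 1`, `w' / 2 ^ l % 2 = 1`.
So `l ∈ visR L T w` (with `y = w'`) and `l ∉ visR L T w'`. Hence the sets are different.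
So the filter is mapped injectively into the sets `S ⊆ range L` with `S.card ≤ K`, and there are `BB L K` of
them. The same for `visL` (there `l ∈ visL L T w'` with `y = w`, and `l ∉ visL L T w`).
-/

namespace Pool.Agent.OTR

open Finset

/-- two different numbers below `2 ^ L` split at some level `l < L` -/
theorem exists_split (L w w' : ℕ) (h : w < w') (hw' : w' < 2 ^ L) : ∃ l < L,
    w / 2 ^ (l + 1) = w' / 2 ^ (l + 1) ∧ w / 2 ^ l % 2 = 0 ∧ w' / 2 ^ l = w / 2 ^ l + 1 := by
  induction L generalizing w w' with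
  | zero =>
    rw [pow_zero] at hw'
    omega
  | succ L ih =>
    rcases Nat.lt_or_ge (w / 2) (w' / 2) with h1 | h1
    · have h2 : w' / 2 < 2 ^ L := by
        rw [pow_succ] at hw'
        omega
      obtain ⟨l, hl, h3, h4, h5⟩ := ih (w / 2) (w' / 2) h1 h2
      refine ⟨l + 1, by omega, ?_, ?_, ?_⟩
      · rw [pow_succ', ← Nat.div_div_eq_div_mul, ← Nat.div_div_eq_div_mul]
        exact h3
      · rw [pow_succ', ← Nat.div_div_eq_div_mul]
        exact h4
      · rw [pow_succ', ← Nat.div_div_eq_div_mul, ← Nat.div_div_eq_div_mul]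
        exact h5
    · refine ⟨0, by omega, ?_, ?_, ?_⟩
      · rw [zero_add, pow_one]
        omega
      · rw [pow_zero, Nat.div_one]
        omega
      · rw [pow_zero, Nat.div_one, Nat.div_one]
        omega

theorem v1_sep (L : ℕ) (T : Finset ℕ) (w w' : ℕ) (h : w < w') (hw : w ∈ T) (hw' : w' ∈ T)
    (hT : T ⊆ range (2 ^ L)) : ∃ l : ℕ, l ∈ visR L T w ∧ l ∉ visR L T w' ∧ l ∈ visL L T w' ∧
      l ∉ visL L T w := by
  obtain ⟨l, hl, h1, h2, h3⟩ := exists_split L w w' h (mem_range.1 (hT hw'))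
  refine ⟨l, ?_, ?_, ?_, ?_⟩
  · unfold visR
    rw [mem_filter, mem_range]
    exact ⟨hl, h2, w', hw', h3⟩
  · unfold visR
    rw [mem_filter]
    rintro ⟨-, h4, -⟩
    omega
  · unfold visL
    rw [mem_filter, mem_range]
    exact ⟨hl, by omega, w, hw, h3.symm⟩
  · unfold visL
    rw [mem_filter]
    rintro ⟨-, h4, -⟩
    omega

theorem card_visR_le (L K : ℕ) (T : Finset ℕ) (hT : T ⊆ range (2 ^ L)) :
    (T.filter (fun w => (visR L T w).card ≤ K)).card ≤ BB L K := by
  unfold BB
  refine card_le_card_of_injOn (visR L T) ?_ ?_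
  · intro w hw
    rw [mem_coe, mem_filter] at hw
    rw [mem_coe, mem_filter, mem_powerset]
    exact ⟨filter_subset _ _, hw.2⟩
  · intro w hw w' hw' he
    rw [mem_coe, mem_filter] at hw hw'
    rcases lt_trichotomy w w' with h | h | h
    · obtain ⟨l, h1, h2, -, -⟩ := v1_sep L T w w' h hw.1 hw'.1 hT
      rw [he] at h1
      exact absurd h1 h2
    · exact h
    · obtain ⟨l, h1, h2, -, -⟩ := v1_sep L T w' w h hw'.1 hw.1 hT
      rw [← he] at h1
      exact absurd h1 h2

theorem card_visL_le (L K : ℕ) (T : Finset ℕ) (hT : T ⊆ range (2 ^ L)) :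
    (T.filter (fun w => (visL L T w).card ≤ K)).card ≤ BB L K := by
  unfold BB
  refine card_le_card_of_injOn (visL L T) ?_ ?_
  · intro w hw
    rw [mem_coe, mem_filter] at hw
    rw [mem_coe, mem_filter, mem_powerset]
    exact ⟨filter_subset _ _, hw.2⟩
  · intro w hw w' hw' he
    rw [mem_coe, mem_filter] at hw hw'
    rcases lt_trichotomy w w' with h | h | h
    · obtain ⟨l, -, -, h1, h2⟩ := v1_sep L T w w' h hw.1 hw'.1 hT
      rw [← he] at h1
      exact absurd h1 h2
    · exact h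
    · obtain ⟨l, -, -, h1, h2⟩ := v1_sep L T w' w h hw'.1 hw.1 hT
      rw [he] at h1
      exact absurd h1 h2

end Pool.Agent.OTR
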