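import Pool.Agent.OTR.Z0

/-!
# Counting block by block
-/

namespace Pool.Agent.OTR

open Finset

/-- an inequality between the numbers of elements in each block, summed over the blocks -/
theorem fiber_bound (F C' : Finset ℕ) (w a b : ℕ)
    (h : ∀ y ∈ F, a * (F.filter (fun z => z / 2 ^ w = y / 2 ^ w)).card ≤ b * gg C' w y) :
    a * F.card ≤ b * C'.card := by
  have h1 : F.card = ∑ v ∈ F.image (fun z => z / 2 ^ w), (F.filter (fun z => z / 2 ^ w = v)).card :=
    card_eq_sum_card_image _ _
  have h2 : ∑ v ∈ F.image (fun z => z / 2 ^ w), (C'.filter (fun z => z / 2 ^ w = v)).card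
      ≤ C'.card := by
    rw [Finset.sum_card_fiberwise_eq_card_filter]
    exact card_filter_le _ _
  calc a * F.card = ∑ v ∈ F.image (fun z => z / 2 ^ w),
        a * (F.filter (fun z => z / 2 ^ w = v)).card := by rw [h1, mul_sum]
    _ ≤ ∑ v ∈ F.image (fun z => z / 2 ^ w), b * (C'.filter (fun z => z / 2 ^ w = v)).card := by
        refine sum_le_sum fun v hv => ?_
        obtain ⟨y, hy, rfl⟩ := mem_image.1 hv
        exact h y hy
    _ = b * ∑ v ∈ F.image (fun z => z / 2 ^ w), (C'.filter (fun z => z / 2 ^ w = v)).card := by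
        rw [mul_sum]
    _ ≤ b * C'.card := Nat.mul_le_mul_left _ h2

/-- if `g` determines `f` on `s` then `f` has at most as many values as `g` -/
theorem card_image_le_of_determines {α β γ : Type*} [DecidableEq β] [DecidableEq γ] (s : Finset α)
    (f : α → β) (g : α → γ) (h : ∀ x ∈ s, ∀ y ∈ s, g x = g y → f x = f y) :
    (s.image f).card ≤ (s.image g).card := by
  classical
  rcases s.eq_empty_or_nonempty with h0 | ⟨x₀, hx₀⟩
  · rw [h0]
    simp
  set φ : γ → β := fun c => if hc : ∃ x ∈ s, g x = c then f hc.choose else f x₀ with hφ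
  have h1 : s.image f ⊆ (s.image g).image φ := by
    intro b hb
    obtain ⟨x, hx, rfl⟩ := mem_image.1 hb
    refine mem_image.2 ⟨g x, mem_image_of_mem g hx, ?_⟩
    have hc : ∃ x' ∈ s, g x' = g x := ⟨x, hx, rfl⟩
    simp only [hφ]
    rw [dif_pos hc]
    exact h _ hc.choose_spec.1 _ hx hc.choose_spec.2
  exact (card_le_card h1).trans card_image_le

/-- a set contained in one block of level `w₀ + d` meets at most `2 ^ d` blocks of level `w₀` -/
theorem card_sub_blocks (F : Finset ℕ) (w₀ d v : ℕ) (h : ∀ z ∈ F, z / 2 ^ (w₀ + d) = v) :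
    (F.image (fun z => z / 2 ^ w₀)).card ≤ 2 ^ d := by
  have h1 : F.image (fun z => z / 2 ^ w₀) ⊆ Ico (v * 2 ^ d) (v * 2 ^ d + 2 ^ d) := by
    intro u hu
    obtain ⟨z, hz, rfl⟩ := mem_image.1 hu
    have h2 := h z hz
    rw [pow_add, ← Nat.div_div_eq_div_mul] at h2
    rw [mem_Ico]
    have h3 := Nat.div_add_mod (z / 2 ^ w₀) (2 ^ d)
    have h4 := Nat.mod_lt (z / 2 ^ w₀) (show 0 < 2 ^ d by positivity)
    rw [h2, mul_comm] at h3
    omega
  refine (card_le_card h1).trans ?_
  rw [Nat.card_Ico, Nat.add_sub_cancel_left]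

end Pool.Agent.OTR
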