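import Pool.Agent.OTR.Z0
import Pool.Agent.OTR.ZF
import Pool.Agent.OTR.V1

/-!
# [OTR-Z3] few columns see few levels of the window

PROOF of `tl_count`. Put `w₁ = w₀ + d`. Fix a block `V` of level `w₁` (value `v` of `y / 2 ^ w₁`), let
`n_V` be the number of elements of `C` in `V`. Let `F_V` be the set of the `y ∈ C ∩ V` with
`R * gg C w₀ y ≤ n_V` and `(TL C w₀ d y).card ≤ K`. `TL C w₀ d y` depends only on
`W = y / 2 ^ w₀` (`TL_congr`), and determines it: if `y, y' ∈ C ∩ V` have `y / 2 ^ w₀ < y' / 2 ^ w₀`, then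
there is a level `t`, `w₀ ≤ t < w₁`, with `y / 2 ^ (t+1) = y' / 2 ^ (t+1)`, `y / 2 ^ t % 2 = 0`,
`y' / 2 ^ t = y / 2 ^ t + 1` (`exists_split`); then `t ∈ TL C w₀ d y` (because of `z = y'`), and
`t ∉ TL C w₀ d y'` (parity). So `F_V` meets at most `BB d K` blocks `W`, and each of them contains at most
`n_V / R` elements of `F_V`. Hence `R * F_V.card ≤ BB d K * n_V`. Sum over the `V` that meet `C`.
-/

namespace Pool.Agent.OTR

open Finset

theorem z3_div {w₀ t y y' : ℕ} (h : y / 2 ^ w₀ = y' / 2 ^ w₀) (ht : w₀ ≤ t) :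
    y / 2 ^ t = y' / 2 ^ t := by
  obtain ⟨m, rfl⟩ := Nat.exists_eq_add_of_le ht
  rw [pow_add, ← Nat.div_div_eq_div_mul, ← Nat.div_div_eq_div_mul, h]

theorem TL_congr (C : Finset ℕ) (w₀ d y y' : ℕ) (h : y / 2 ^ w₀ = y' / 2 ^ w₀) :
    TL C w₀ d y = TL C w₀ d y' := by
  unfold TL
  refine filter_congr fun t ht => ?_
  rw [z3_div h (mem_Ico.1 ht).1]

theorem gg_congr (C : Finset ℕ) (w y y' : ℕ) (h : y / 2 ^ w = y' / 2 ^ w) :
    gg C w y = gg C w y' := by
  unfold gg
  rw [h]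

/-- a splitting level in the window -/
theorem z3_split {w₀ d y y' : ℕ} (hV : y / 2 ^ (w₀ + d) = y' / 2 ^ (w₀ + d))
    (h : y / 2 ^ w₀ < y' / 2 ^ w₀) : ∃ t, w₀ ≤ t ∧ t < w₀ + d ∧ y / 2 ^ t % 2 = 0 ∧
      y' / 2 ^ t = y / 2 ^ t + 1 := by
  set v := y / 2 ^ (w₀ + d) with hv
  set u := y / 2 ^ w₀ with hu
  set u' := y' / 2 ^ w₀ with hu'
  have e1 : u / 2 ^ d = v := by rw [hu, hv, Nat.div_div_eq_div_mul, ← pow_add]
  have e2 : u' / 2 ^ d = v := by rw [hu', hV, Nat.div_div_eq_div_mul, ← pow_add]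
  -- induction on the number of levels
  have key : ∀ d u u' : ℕ, u < u' → u / 2 ^ d = u' / 2 ^ d →
      ∃ s < d, u / 2 ^ s % 2 = 0 ∧ u' / 2 ^ s = u / 2 ^ s + 1 := by
    intro d
    induction d with
    | zero =>
      intro u u' h1 h2
      rw [pow_zero, Nat.div_one, Nat.div_one] at h2
      omega
    | succ d ih =>
      intro u u' h1 h2
      by_cases h3 : u / 2 ^ d = u' / 2 ^ d
      · obtain ⟨s, hs, h4⟩ := ih u u' h1 h3
        exact ⟨s, by omega, h4⟩
      · refine ⟨d, Nat.lt_succ_self d, ?_⟩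
        rw [pow_succ, ← Nat.div_div_eq_div_mul, ← Nat.div_div_eq_div_mul] at h2
        have h4 : u / 2 ^ d ≤ u' / 2 ^ d := Nat.div_le_div_right h1.le
        omega
  obtain ⟨s, hs, h1, h2⟩ := key d u u' h (by rw [e1, e2])
  refine ⟨w₀ + s, by omega, by omega, ?_, ?_⟩
  · rw [pow_add, ← Nat.div_div_eq_div_mul]
    exact h1
  · rw [pow_add, ← Nat.div_div_eq_div_mul, ← Nat.div_div_eq_div_mul]
    exact h2

theorem z3_sep (C : Finset ℕ) {w₀ d y y' : ℕ} (hy' : y' ∈ C)
    (hV : y / 2 ^ (w₀ + d) = y' / 2 ^ (w₀ + d))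
    (h : y / 2 ^ w₀ < y' / 2 ^ w₀) : TL C w₀ d y ≠ TL C w₀ d y' := by
  intro he
  obtain ⟨t, h1, h2, h3, h4⟩ := z3_split hV h
  have h5 : t ∈ TL C w₀ d y := by
    unfold TL
    rw [mem_filter, mem_Ico]
    exact ⟨⟨h1, h2⟩, h3, y', hy', h4⟩
  rw [he] at h5
  unfold TL at h5
  rw [mem_filter] at h5
  have := h5.2.1
  omega

theorem tl_count (C : Finset ℕ) (w₀ d K R : ℕ) :
    R * (C.filter (fun y => R * gg C w₀ y ≤ gg C (w₀ + d) y ∧ (TL C w₀ d y).card ≤ K)).card
      ≤ BB d K * C.card := by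
  classical
  rcases Nat.eq_zero_or_pos R with h0 | hR
  · rw [h0, zero_mul]
    exact Nat.zero_le _
  refine fiber_bound _ C (w₀ + d) R (BB d K) ?_
  intro y hy
  set F := (C.filter (fun y => R * gg C w₀ y ≤ gg C (w₀ + d) y ∧ (TL C w₀ d y).card ≤ K)).filter
      (fun z => z / 2 ^ (w₀ + d) = y / 2 ^ (w₀ + d)) with hF
  set n := gg C (w₀ + d) y with hn
  have h1 : F.card ≤ n / R * (F.image (fun z => z / 2 ^ w₀)).card := by
    apply card_le_mul_card_image
    intro u hu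
    obtain ⟨z, hz, rfl⟩ := mem_image.1 hu
    rw [hF, mem_filter, mem_filter] at hz
    rw [Nat.le_div_iff_mul_le hR]
    have h2 : gg C (w₀ + d) z = n := gg_congr _ _ _ _ hz.2
    have h3 : (F.filter (fun x => x / 2 ^ w₀ = z / 2 ^ w₀)).card ≤ gg C w₀ z := by
      refine card_le_card ?_
      intro x hx
      rw [hF, mem_filter, mem_filter, mem_filter] at hx
      exact mem_filter.2 ⟨hx.1.1.1, hx.2⟩
    have h4 := hz.1.2.1
    rw [h2] at h4
    calc _ ≤ gg C w₀ z * R := Nat.mul_le_mul_right _ h3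
      _ ≤ n := by rw [mul_comm]; exact h4
  -- the code of a block
  set g : ℕ → Finset ℕ := fun z => (range d).filter (fun s => w₀ + s ∈ TL C w₀ d z) with hg
  have hgTL : ∀ z z', g z = g z' → TL C w₀ d z = TL C w₀ d z' := by
    have h3 : ∀ z z', g z = g z' → TL C w₀ d z ⊆ TL C w₀ d z' := by
      intro z z' h t ht
      have h4 : w₀ ≤ t ∧ t < w₀ + d := by
        unfold TL at ht
        exact mem_Ico.1 (mem_filter.1 ht).1
      have h5 : t - w₀ ∈ g z := by
        rw [hg, mem_filter, mem_range]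
        refine ⟨by omega, ?_⟩
        rw [show w₀ + (t - w₀) = t by omega]
        exact ht
      rw [h, hg, mem_filter] at h5
      have h6 := h5.2
      rwa [show w₀ + (t - w₀) = t by omega] at h6
    intro z z' h
    exact Subset.antisymm (h3 z z' h) (h3 z' z h.symm)
  have h2 : (F.image (fun z => z / 2 ^ w₀)).card ≤ (F.image g).card := by
    refine card_image_le_of_determines F _ _ ?_
    intro z hz z' hz' h
    rw [hF, mem_filter, mem_filter] at hz hz'
    have h3 := hgTL z z' h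
    have hV : z / 2 ^ (w₀ + d) = z' / 2 ^ (w₀ + d) := by rw [hz.2, hz'.2]
    rcases lt_trichotomy (z / 2 ^ w₀) (z' / 2 ^ w₀) with h4 | h4 | h4
    · exact absurd h3 (z3_sep C hz'.1.1 hV h4)
    · exact h4
    · exact absurd h3.symm (z3_sep C hz.1.1 hV.symm h4)
  have h3 : (F.image g).card ≤ BB d K := by
    unfold BB
    refine card_le_card ?_
    intro S hS
    obtain ⟨z, hz, rfl⟩ := mem_image.1 hS
    rw [hF, mem_filter, mem_filter] at hz
    rw [mem_filter, mem_powerset]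
    refine ⟨filter_subset _ _, le_trans ?_ hz.1.2.2⟩
    refine card_le_card_of_injOn (fun s => w₀ + s) ?_ ?_
    · intro s hs
      rw [mem_coe, hg, mem_filter] at hs
      exact hs.2
    · intro s _ s' _ hss
      exact Nat.add_left_cancel hss
  calc R * F.card ≤ R * (n / R * BB d K) :=
        Nat.mul_le_mul_left _ (h1.trans (Nat.mul_le_mul_left _ (h2.trans h3)))
    _ = BB d K * (n / R * R) := by ring
    _ ≤ BB d K * n := Nat.mul_le_mul_left _ (Nat.div_mul_le_self _ _)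

end Pool.Agent.OTR
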