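import Pool.Agent.OTR.Z0
import Pool.Agent.OTR.ZF

/-!
# [OTR-Z4] jumps of the block counts; the first window of growth

PROOF of `jump_count`. Fix a block `V` of level `w₁ = w₀ + d`, `n_V` = number of elements of `C` in `V`. The
`y ∈ C ∩ V` with `lam * 2 ^ d * gg C w₀ y < n_V` lie in at most `2 ^ d` blocks `W ⊆ V` of level `w₀`, each of
which contains at most `n_V / (lam * 2 ^ d)` elements of `C`. Sum over `V`.

PROOF of `growth_window`. Suppose there is no such `i`. By induction `gg C (i * d) y ≤ R ^ i` for all `i ≤ Δ`: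
`gg C 0 y ≤ 1`, and if `gg C (i * d) y ≤ R ^ i` then `R * gg C (i * d) y ≤ gg C ((i + 1) * d) y` fails, so
`gg C ((i+1) * d) y < R * R ^ i`. For `i = Δ` all elements of `C ⊆ range (2 ^ L)` are in the block, so
`C.card = gg C (Δ * d) y ≤ R ^ Δ`, a contradiction.
-/

namespace Pool.Agent.OTR

open Finset

theorem jump_count (C : Finset ℕ) (w₀ d lam : ℕ) :
    lam * (C.filter (fun y => lam * 2 ^ d * gg C w₀ y < gg C (w₀ + d) y)).card ≤ C.card := by
  rcases Nat.eq_zero_or_pos lam with h0 | hlam
  · rw [h0, zero_mul]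
    exact Nat.zero_le _
  rw [← one_mul C.card]
  refine fiber_bound _ C (w₀ + d) lam 1 ?_
  intro y hy
  set F := (C.filter (fun y => lam * 2 ^ d * gg C w₀ y < gg C (w₀ + d) y)).filter
      (fun z => z / 2 ^ (w₀ + d) = y / 2 ^ (w₀ + d)) with hF
  set n := gg C (w₀ + d) y with hn
  have hpos : 0 < lam * 2 ^ d := by positivity
  have h1 : F.card ≤ n / (lam * 2 ^ d) * (F.image (fun z => z / 2 ^ w₀)).card := by
    apply card_le_mul_card_image
    intro u hu
    obtain ⟨z, hz, rfl⟩ := mem_image.1 hu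
    rw [hF, mem_filter, mem_filter] at hz
    rw [Nat.le_div_iff_mul_le hpos]
    have h2 : gg C (w₀ + d) z = n := by
      rw [hn]
      unfold gg
      rw [hz.2]
    have h3 : (F.filter (fun x => x / 2 ^ w₀ = z / 2 ^ w₀)).card ≤ gg C w₀ z := by
      refine card_le_card ?_
      intro x hx
      rw [hF, mem_filter, mem_filter, mem_filter] at hx
      exact mem_filter.2 ⟨hx.1.1.1, hx.2⟩
    have h4 := hz.1.2
    rw [h2] at h4
    calc _ ≤ gg C w₀ z * (lam * 2 ^ d) := Nat.mul_le_mul_right _ h3
      _ ≤ n := by rw [mul_comm]; exact h4.le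
  have h2 : (F.image (fun z => z / 2 ^ w₀)).card ≤ 2 ^ d := by
    refine card_sub_blocks F w₀ d (y / 2 ^ (w₀ + d)) ?_
    intro z hz
    rw [hF, mem_filter] at hz
    exact hz.2
  calc lam * F.card ≤ lam * (n / (lam * 2 ^ d) * 2 ^ d) :=
        Nat.mul_le_mul_left _ (h1.trans (Nat.mul_le_mul_left _ h2))
    _ = n / (lam * 2 ^ d) * (lam * 2 ^ d) := by ring
    _ ≤ n := Nat.div_mul_le_self _ _
    _ = 1 * n := (one_mul _).symm

theorem growth_window (C : Finset ℕ) (L d Δ R : ℕ) (hC : C ⊆ range (2 ^ L)) (hd : L ≤ Δ * d)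
    (y : ℕ) (hy : y ∈ C) (hR : 1 ≤ R) (hbig : R ^ Δ < C.card) :
    ∃ i < Δ, R * gg C (i * d) y ≤ gg C (i * d + d) y ∧ gg C (i * d) y ≤ R ^ i := by
  by_contra hcon
  push Not at hcon
  have h1 : ∀ i, i ≤ Δ → gg C (i * d) y ≤ R ^ i := by
    intro i
    induction i with
    | zero =>
      intro _
      rw [zero_mul, pow_zero]
      unfold gg
      rw [pow_zero]
      simp only [Nat.div_one]
      exact (card_le_card (fun z hz => by
        rw [mem_filter] at hz
        rw [mem_singleton]
        exact hz.2 : C.filter (fun z => z = y) ⊆ {y})).trans (card_singleton y).le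
    | succ i ih =>
      intro hi
      have h2 := ih (by omega)
      by_contra h3
      push Not at h3
      have h4 : R * gg C (i * d) y ≤ gg C (i * d + d) y := by
        have h5 : (i + 1) * d = i * d + d := by ring
        rw [h5] at h3
        calc R * gg C (i * d) y ≤ R * R ^ i := Nat.mul_le_mul_left _ h2
          _ = R ^ (i + 1) := by rw [pow_succ, mul_comm]
          _ ≤ _ := h3.le
      exact absurd h2 (not_le.2 (hcon i (by omega) h4))
  have h2 := h1 Δ le_rfl
  have h3 : gg C (Δ * d) y = C.card := by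
    unfold gg
    congr 1
    refine filter_true_of_mem fun z hz => ?_
    have h4 : ∀ x ∈ C, x / 2 ^ (Δ * d) = 0 := by
      intro x hx
      refine Nat.div_eq_of_lt ((mem_range.1 (hC hx)).trans_le ?_)
      exact Nat.pow_le_pow_right (by norm_num) hd
    rw [h4 z hz, h4 y hy]
  omega

end Pool.Agent.OTR
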