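import Pool.Agent.OTR.Z1
import Pool.Agent.OTR.Z3
import Pool.Agent.OTR.Z4

/-!
# [OTR-Z5] the one-dimensional covering lemma

PROOF. Put `d = M ^ k * q`, `K = (M-1) ^ k * q`. If `C.card ≤ R ^ Δ` we are done. Otherwise `growth_window`
gives for every `y ∈ C` an `i < Δ` with `R * gg C (i d) y ≤ gg C (i d + d) y` and
`gg C (i d) y ≤ R ^ i ≤ R ^ Δ`. Then one of the following holds:
(a) `lam * 2 ^ d * gg C (i d) y < gg C (i d + d) y`: for each `i` at most `C.card / lam` such `y`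
(`jump_count`), in total at most `Δ * C.card / lam ≤ C.card / 4`;
(b) `(TL C (i d) d y).card ≤ K`: for each `i` at most `BB d K * C.card / R` such `y` (`tl_count`), in total at
most `Δ * BB d K * C.card / R ≤ C.card / 4`;
(c) otherwise `gg C (i d + d) y ≤ lam * 2 ^ d * R ^ Δ` and `K < (TL C (i d) d y).card`, so `zoom` gives
`j < k`, `c < M ^ j` with
`y ∈ Y1 C (i d) d (i d + c * (M ^ (k - j) * q)) (M ^ (k - j - 1) * q) M (R ^ Δ) (lam * 2 ^ d * R ^ Δ)`.
So `C.card ≤ C.card / 4 + C.card / 4 + ∑ |Y1|`, i.e. `C.card ≤ 2 * ∑ |Y1|`.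
-/

namespace Pool.Agent.OTR

open Finset

theorem cover (L M k q Δ R lam : ℕ) (hM : 1 ≤ M) (hR : 1 ≤ R) (hL : L ≤ Δ * (M ^ k * q))
    (hlam : 4 * Δ ≤ lam) (hlam0 : 1 ≤ lam)
    (hRB : 4 * Δ * BB (M ^ k * q) ((M - 1) ^ k * q) ≤ R) (C : Finset ℕ) (hC : C ⊆ range (2 ^ L)) :
    C.card ≤ 2 * R ^ Δ + 2 * ∑ i ∈ range Δ, ∑ j ∈ range k, ∑ c ∈ range (M ^ j),
      (Y1 C (i * (M ^ k * q)) (M ^ k * q) (i * (M ^ k * q) + c * (M ^ (k - j) * q))
        (M ^ (k - j - 1) * q) M (R ^ Δ) (lam * 2 ^ (M ^ k * q) * R ^ Δ)).card := by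
  classical
  set d := M ^ k * q with hd
  set K := (M - 1) ^ k * q with hK
  set Y : ℕ → ℕ → ℕ → Finset ℕ := fun i j c => Y1 C (i * d) d (i * d + c * (M ^ (k - j) * q))
        (M ^ (k - j - 1) * q) M (R ^ Δ) (lam * 2 ^ d * R ^ Δ) with hY
  set S := ∑ i ∈ range Δ, ∑ j ∈ range k, ∑ c ∈ range (M ^ j), (Y i j c).card with hS
  show C.card ≤ 2 * R ^ Δ + 2 * S
  rcases Nat.lt_or_ge (R ^ Δ) C.card with hbig | hsmall
  swap
  · omega
  set Fa : ℕ → Finset ℕ := fun i =>
    C.filter (fun y => lam * 2 ^ d * gg C (i * d) y < gg C (i * d + d) y) with hFa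
  set Fb : ℕ → Finset ℕ := fun i =>
    C.filter (fun y => R * gg C (i * d) y ≤ gg C (i * d + d) y ∧ (TL C (i * d) d y).card ≤ K) with hFb
  set Fc : ℕ → Finset ℕ := fun i => (range k).biUnion (fun j => (range (M ^ j)).biUnion (Y i j))
    with hFc
  have hcov : C ⊆ (range Δ).biUnion (fun i => Fa i ∪ Fb i ∪ Fc i) := by
    intro y hy
    obtain ⟨i, hi, h1, h2⟩ := growth_window C L d Δ R hC hL y hy hR hbig
    have h2' : gg C (i * d) y ≤ R ^ Δ := h2.trans (Nat.pow_le_pow_right hR hi.le)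
    rw [mem_biUnion]
    refine ⟨i, mem_range.2 hi, ?_⟩
    rw [mem_union, mem_union]
    by_cases ha : lam * 2 ^ d * gg C (i * d) y < gg C (i * d + d) y
    · left; left
      rw [hFa, mem_filter]
      exact ⟨hy, ha⟩
    · by_cases hb : (TL C (i * d) d y).card ≤ K
      · left; right
        rw [hFb, mem_filter]
        exact ⟨hy, h1, hb⟩
      · right
        push Not at ha hb
        obtain ⟨j, hj, c, hc, hhit⟩ := zoom M k q hM (i * d) (TL C (i * d) d y)
          (filter_subset _ _) hb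
        rw [hFc, mem_biUnion]
        refine ⟨j, mem_range.2 hj, ?_⟩
        rw [mem_biUnion]
        refine ⟨c, mem_range.2 hc, ?_⟩
        simp only [hY, Y1, mem_filter]
        exact ⟨hy, h2', ha.trans (Nat.mul_le_mul_left _ h2'), hhit⟩
  have h1 : C.card ≤ ∑ i ∈ range Δ, ((Fa i).card + (Fb i).card + (Fc i).card) := by
    refine (card_le_card hcov).trans (card_biUnion_le.trans ?_)
    refine sum_le_sum fun i _ => ?_
    exact (card_union_le _ _).trans (Nat.add_le_add_right (card_union_le _ _) _)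
  rw [sum_add_distrib, sum_add_distrib] at h1
  -- part (a)
  have ha : 4 * ∑ i ∈ range Δ, (Fa i).card ≤ C.card := by
    have h2 : lam * ∑ i ∈ range Δ, (Fa i).card ≤ Δ * C.card := by
      rw [mul_sum]
      calc _ ≤ ∑ _i ∈ range Δ, C.card := sum_le_sum fun i _ => jump_count C (i * d) d lam
        _ = _ := by rw [sum_const, card_range, smul_eq_mul]
    have h3 : lam * (4 * ∑ i ∈ range Δ, (Fa i).card) ≤ lam * C.card := by
      calc lam * (4 * ∑ i ∈ range Δ, (Fa i).card) = 4 * (lam * ∑ i ∈ range Δ, (Fa i).card) := by ring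
        _ ≤ 4 * (Δ * C.card) := Nat.mul_le_mul_left _ h2
        _ = 4 * Δ * C.card := by ring
        _ ≤ _ := Nat.mul_le_mul_right _ hlam
    exact Nat.le_of_mul_le_mul_left h3 (by omega)
  have hb : 4 * ∑ i ∈ range Δ, (Fb i).card ≤ C.card := by
    have h2 : R * ∑ i ∈ range Δ, (Fb i).card ≤ Δ * (BB d K * C.card) := by
      rw [mul_sum]
      calc _ ≤ ∑ _i ∈ range Δ, BB d K * C.card := sum_le_sum fun i _ => tl_count C (i * d) d K R
        _ = _ := by rw [sum_const, card_range, smul_eq_mul]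
    have h3 : R * (4 * ∑ i ∈ range Δ, (Fb i).card) ≤ R * C.card := by
      calc R * (4 * ∑ i ∈ range Δ, (Fb i).card) = 4 * (R * ∑ i ∈ range Δ, (Fb i).card) := by ring
        _ ≤ 4 * (Δ * (BB d K * C.card)) := Nat.mul_le_mul_left _ h2
        _ = 4 * Δ * BB d K * C.card := by ring
        _ ≤ _ := Nat.mul_le_mul_right _ hRB
    exact Nat.le_of_mul_le_mul_left h3 (by omega)
  have hc : ∑ i ∈ range Δ, (Fc i).card ≤ S := by
    rw [hS]
    refine sum_le_sum fun i _ => ?_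
    refine card_biUnion_le.trans (sum_le_sum fun j _ => card_biUnion_le)
  omega

end Pool.Agent.OTR
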