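import Pool.Agent.OTR.Z0
import Pool.Agent.OTR.ZF

/-!
# [OTR-Z6] large codegree sets of the shorter tuple

PROOF of `big_block`. Sum over the blocks `V` of level `w`: the `y ∈ C ∩ V` counted have
`gg C w y ≤ G₁`, so there are at most `G₁` of them in each `V`, and each such `V` contains more than `n`
elements of `C'`; so `n * (number) ≤ ∑_V n * G₁ ≤ G₁ * ∑_V |C' ∩ V| ≤ G₁ * C'.card`, the sums over the `V` that
contain a counted `y`.
PROOF of `x4_count`. Write `ρ` as `(ρ', r)` with `ρ' = k.removeNth ρ`, `r = ρ k`; `univ.image ρ ⊇ univ.image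
(k.removeNth ρ)`, hence `ncol A (2 ^ L) (univ.image ρ) ⊆ ncol A (2 ^ L) (univ.image (k.removeNth ρ))`, and
`big_block` bounds `n * (the inner card)` by `G₁ * |ncol A (2 ^ L) (univ.image (k.removeNth ρ))|`. Summing over
`r` gives the factor `2 ^ L` and summing over `ρ'` gives `SS A L p 1`.
-/

namespace Pool.Agent.OTR

open Finset

theorem big_block (C C' : Finset ℕ) (hCC : C ⊆ C') (w n G₁ : ℕ) :
    n * (C.filter (fun y => gg C w y ≤ G₁ ∧ n < gg C' w y)).card ≤ G₁ * C'.card := by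
  refine fiber_bound _ C' w n G₁ ?_
  intro y hy
  rw [mem_filter] at hy
  have h1 : ((C.filter (fun y => gg C w y ≤ G₁ ∧ n < gg C' w y)).filter
      (fun z => z / 2 ^ w = y / 2 ^ w)).card ≤ G₁ := by
    refine le_trans (card_le_card ?_) hy.2.1
    intro z hz
    rw [mem_filter, mem_filter] at hz
    exact mem_filter.2 ⟨hz.1.1, hz.2⟩
  rw [mul_comm]
  exact Nat.mul_le_mul h1 hy.2.2.le

/-- summation over the tuples of length `p + 1`, one entry singled out -/
theorem sum_piFinset_succ (N p : ℕ) (k : Fin (p + 1)) (f : (Fin (p + 1) → ℕ) → ℕ) :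
    ∑ ρ ∈ Fintype.piFinset (fun _ : Fin (p + 1) => range N), f ρ =
    ∑ ρ' ∈ Fintype.piFinset (fun _ : Fin p => range N), ∑ r ∈ range N, f (k.insertNth r ρ') := by
  rw [← sum_product']
  refine sum_bij' (fun ρ _ => (k.removeNth ρ, ρ k)) (fun q _ => k.insertNth q.2 q.1) ?_ ?_ ?_ ?_ ?_
  · intro ρ hρ
    rw [Fintype.mem_piFinset] at hρ
    rw [mem_product, Fintype.mem_piFinset]
    exact ⟨fun i => hρ _, hρ k⟩
  · rintro ⟨ρ', r⟩ hq
    rw [mem_product, Fintype.mem_piFinset] at hq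
    rw [Fintype.mem_piFinset]
    intro i
    rcases Fin.eq_self_or_eq_succAbove k i with h | ⟨j, h⟩
    · rw [h, Fin.insertNth_apply_same]
      exact hq.2
    · rw [h, Fin.insertNth_apply_succAbove]
      exact hq.1 j
  · intro ρ _
    exact Fin.insertNth_self_removeNth k ρ
  · rintro ⟨ρ', r⟩ _
    simp
  · intro ρ _
    congr 1
    exact (Fin.insertNth_self_removeNth k ρ).symm

theorem ncol_removeNth (A : Finset (ℕ × ℕ)) (N p : ℕ) (k : Fin (p + 1)) (ρ : Fin (p + 1) → ℕ) :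
    ncol A N (univ.image ρ) ⊆ ncol A N (univ.image (k.removeNth ρ)) := by
  intro z hz
  simp only [ncol, mem_filter] at hz ⊢
  refine ⟨hz.1, ?_⟩
  intro u hu
  obtain ⟨j, -, rfl⟩ := mem_image.1 hu
  exact hz.2 _ (mem_image_of_mem ρ (mem_univ _))

theorem x4_count (A : Finset (ℕ × ℕ)) (L p w n G₁ : ℕ) (k : Fin (p + 1)) :
    n * ∑ ρ ∈ Fintype.piFinset (fun _ : Fin (p + 1) => range (2 ^ L)),
      ((ncol A (2 ^ L) (univ.image ρ)).filter (fun y =>
        gg (ncol A (2 ^ L) (univ.image ρ)) w y ≤ G₁ ∧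
        n < gg (ncol A (2 ^ L) (univ.image (k.removeNth ρ))) w y)).card
      ≤ 2 ^ L * G₁ * SS A L p 1 := by
  rw [sum_piFinset_succ (2 ^ L) p k, mul_sum]
  unfold SS
  rw [mul_sum]
  refine sum_le_sum fun ρ' _ => ?_
  rw [pow_one, mul_sum]
  calc _ ≤ ∑ _r ∈ range (2 ^ L), G₁ * (ncol A (2 ^ L) (univ.image ρ')).card := by
        refine sum_le_sum fun r _ => ?_
        have h1 := ncol_removeNth A (2 ^ L) p k (k.insertNth r ρ')
        have h2 := big_block _ _ h1 w n G₁
        rw [Fin.removeNth_insertNth] at h2 ⊢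
        exact h2
    _ = _ := by
        rw [sum_const, card_range, smul_eq_mul]
        ring

end Pool.Agent.OTR
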