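import Pool.Agent.OTR.V1

/-!
# [OTR-V2] few pairs of columns have a gap that is seen on few levels

PROOF. Let `w' ∈ T`. For `w ∈ T`, `w < w'` let `λ < L` be the level with `w / 2 ^ (λ+1) = w' / 2 ^ (λ+1)`,
`w / 2 ^ λ % 2 = 0`, `w' / 2 ^ λ = w / 2 ^ λ + 1` (`exists_split`). So it is enough to show: for each
`λ < L` the set `X` of all `w ∈ T` with these properties (with respect to the fixed `w'`, `λ`) and
`(gapR L T w w').card ≤ K` has at most `BB L K` elements. The map `w ↦ gapR L T w w'` is injective on `X`: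
if `w₁ < w₂` are in `X`, then `w₁ / 2 ^ λ = w₂ / 2 ^ λ` (both are `w' / 2 ^ λ - 1`). Let `l` be the level of
`exists_split` for `w₁ < w₂`; then `l < λ` (for `l ≥ λ` we would have `w₁ / 2 ^ l = w₂ / 2 ^ l`).
`l ∈ visR L T w₁` (with `y = w₂`), `l ∉ visR L T w₂` (parity). Moreover
`w₁ / 2 ^ (l+1) < w' / 2 ^ (l+1)`, because `l + 1 ≤ λ` and `w₁ / 2 ^ λ < w' / 2 ^ λ` (divide further:
if `w₁ / 2 ^ (l+1) ≥ w' / 2 ^ (l+1)` then `w₁ / 2 ^ λ ≥ w' / 2 ^ λ`). So `l ∈ gapR L T w₁ w'` and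
`l ∉ gapR L T w₂ w'`. Sum over the `L` values of `λ` (`card_biUnion_le`).
-/

namespace Pool.Agent.OTR

open Finset

theorem v2_div (w w' a b : ℕ) (hab : a ≤ b) (h : w / 2 ^ b < w' / 2 ^ b) : w / 2 ^ a < w' / 2 ^ a := by
  by_contra hc
  push Not at hc
  obtain ⟨c, rfl⟩ := Nat.exists_eq_add_of_le hab
  rw [pow_add, ← Nat.div_div_eq_div_mul, ← Nat.div_div_eq_div_mul] at h
  exact absurd (Nat.div_le_div_right (c := 2 ^ c) hc) (not_le.2 h)

theorem v2_eq (w w' a b : ℕ) (hab : a ≤ b) (h : w / 2 ^ a = w' / 2 ^ a) : w / 2 ^ b = w' / 2 ^ b := by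
  obtain ⟨c, rfl⟩ := Nat.exists_eq_add_of_le hab
  rw [pow_add, ← Nat.div_div_eq_div_mul, ← Nat.div_div_eq_div_mul, h]

theorem v2_sep (L : ℕ) (T : Finset ℕ) (hT : T ⊆ range (2 ^ L)) (w' m w₁ w₂ : ℕ) (h : w₁ < w₂)
    (h2 : w₂ ∈ T) (hm1 : w' / 2 ^ m = w₁ / 2 ^ m + 1) (hm2 : w' / 2 ^ m = w₂ / 2 ^ m + 1) :
    ∃ l, l ∈ gapR L T w₁ w' ∧ l ∉ gapR L T w₂ w' := by
  obtain ⟨l, hl, h3, h4, h5⟩ := exists_split L w₁ w₂ h (mem_range.1 (hT h2))
  have hlm : l < m := by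
    by_contra hc
    push Not at hc
    have := v2_eq w₁ w₂ m l hc (by omega)
    omega
  refine ⟨l, ?_, ?_⟩
  · unfold gapR visR
    rw [mem_filter, mem_filter, mem_range]
    exact ⟨⟨hl, h4, w₂, h2, h5⟩, v2_div w₁ w' (l + 1) m hlm (by omega)⟩
  · unfold gapR visR
    rw [mem_filter, mem_filter]
    rintro ⟨⟨-, h6, -⟩, -⟩
    omega

theorem card_gapR_le (L K : ℕ) (T : Finset ℕ) (hT : T ⊆ range (2 ^ L)) (w' : ℕ) (hw' : w' ∈ T) :
    (T.filter (fun w => w < w' ∧ (gapR L T w w').card ≤ K)).card ≤ L * BB L K := by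
  classical
  have hsub : T.filter (fun w => w < w' ∧ (gapR L T w w').card ≤ K) ⊆
      (range L).biUnion (fun m => T.filter (fun w => w' / 2 ^ m = w / 2 ^ m + 1 ∧
        (gapR L T w w').card ≤ K)) := by
    intro w hw
    rw [mem_filter] at hw
    obtain ⟨l, hl, -, -, h3⟩ := exists_split L w w' hw.2.1 (mem_range.1 (hT hw'))
    rw [mem_biUnion]
    exact ⟨l, mem_range.2 hl, mem_filter.2 ⟨hw.1, h3, hw.2.2⟩⟩
  refine (card_le_card hsub).trans (card_biUnion_le.trans ?_)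
  refine (sum_le_card_nsmul (range L) _ (BB L K) fun m _ => ?_).trans ?_
  · unfold BB
    refine card_le_card_of_injOn (fun w => gapR L T w w') ?_ ?_
    · intro w hw
      rw [mem_coe, mem_filter] at hw
      rw [mem_coe, mem_filter, mem_powerset]
      exact ⟨(filter_subset _ _).trans (filter_subset _ _), hw.2.2⟩
    · intro w₁ hw₁ w₂ hw₂ he
      rw [mem_coe, mem_filter] at hw₁ hw₂
      have he' : gapR L T w₁ w' = gapR L T w₂ w' := he
      rcases lt_trichotomy w₁ w₂ with h | h | h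
      · obtain ⟨l, h1, h2⟩ := v2_sep L T hT w' m w₁ w₂ h hw₂.1 hw₁.2.1 hw₂.2.1
        rw [he'] at h1
        exact absurd h1 h2
      · exact h
      · obtain ⟨l, h1, h2⟩ := v2_sep L T hT w' m w₂ w₁ h hw₁.1 hw₂.2.1 hw₁.2.1
        rw [← he'] at h1
        exact absurd h1 h2
  · rw [card_range, smul_eq_mul]

end Pool.Agent.OTR
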