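import Pool.Agent.OTR.Z0
import Pool.Agent.OTR.V2

/-!
# [OTR-Z7] bad tuples have a bad entry

PROOF of `bad_entry`. If `ρ` is not injective, `ρ k = ρ l` with `k ≠ l`; then `l = k.succAbove l'` and
`(k.removeNth ρ) l' = ρ l = ρ k`, so `ρ k ∈ Bk` by the first alternative. Otherwise
`GoodT L K T (univ.image ρ)` fails: either some `w = ρ k` has `(visR L T w).card ≤ K` or
`(visL L T w).card ≤ K`, or `w = ρ k < w' = ρ l` and `(gapR L T w w').card ≤ K`, which
is the fourth alternative for `k` with `l = k.succAbove l'`.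
PROOF of `card_Bk_le`. The four parts of `Bk` have at most `p`, `BB L K` (`card_visR_le`), `BB L K`
(`card_visL_le`) and `p * (L * BB L K)` elements (for each `l`, `card_gapR_le` with `w' = ρ' l ∈ T`).
-/

namespace Pool.Agent.OTR

open Finset

theorem z7_remove {p : ℕ} (ρ : Fin (p + 1) → ℕ) {k l : Fin (p + 1)} (h : l ≠ k) :
    ∃ l' : Fin p, k.removeNth ρ l' = ρ l := by
  obtain ⟨l', hl'⟩ := Fin.exists_succAbove_eq h
  exact ⟨l', by rw [Fin.removeNth_apply, hl']⟩

theorem bad_entry (L K p : ℕ) (T : Finset ℕ) (ρ : Fin (p + 1) → ℕ) (hρ : ∀ k, ρ k ∈ T)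
    (hbad : ¬ (Function.Injective ρ ∧ GoodT L K T (univ.image ρ))) :
    ∃ k : Fin (p + 1), ρ k ∈ Bk L K T (k.removeNth ρ) := by
  classical
  by_contra hcon
  push Not at hcon
  have h0 : ∀ k, (∀ l, (k.removeNth ρ) l ≠ ρ k) ∧ K < (visR L T (ρ k)).card ∧
      K < (visL L T (ρ k)).card ∧
      ∀ l, ρ k < (k.removeNth ρ) l → K < (gapR L T (ρ k) ((k.removeNth ρ) l)).card := by
    intro k
    have h1 := hcon k
    unfold Bk at h1
    rw [mem_filter] at h1
    push Not at h1
    exact h1 (hρ k)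
  apply hbad
  refine ⟨?_, ?_, ?_, ?_⟩
  · intro k l hkl
    by_contra hne
    obtain ⟨l', hl'⟩ := z7_remove ρ (k := k) (l := l) (fun h => hne h.symm)
    exact (h0 k).1 l' (by rw [hl', hkl])
  · intro w hw
    obtain ⟨k, -, rfl⟩ := mem_image.1 hw
    exact (h0 k).2.1
  · intro w hw
    obtain ⟨k, -, rfl⟩ := mem_image.1 hw
    exact (h0 k).2.2.1
  · intro w hw w' hw' hlt
    obtain ⟨k, -, rfl⟩ := mem_image.1 hw
    obtain ⟨l, -, rfl⟩ := mem_image.1 hw'
    obtain ⟨l', hl'⟩ := z7_remove ρ (k := k) (l := l) (by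
      rintro rfl
      exact lt_irrefl _ hlt)
    have h1 := (h0 k).2.2.2 l' (by rw [hl']; exact hlt)
    rwa [hl'] at h1

theorem card_Bk_le (L K p : ℕ) (T : Finset ℕ) (hT : T ⊆ range (2 ^ L)) (ρ' : Fin p → ℕ)
    (hρ : ∀ l, ρ' l ∈ T) : (Bk L K T ρ').card ≤ bet L K p := by
  classical
  have hsub : Bk L K T ρ' ⊆ (univ.image ρ') ∪ T.filter (fun r => (visR L T r).card ≤ K) ∪
      T.filter (fun r => (visL L T r).card ≤ K) ∪
      (univ : Finset (Fin p)).biUnion (fun l => T.filter (fun r => r < ρ' l ∧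
        (gapR L T r (ρ' l)).card ≤ K)) := by
    intro r hr
    unfold Bk at hr
    rw [mem_filter] at hr
    obtain ⟨hrT, h1 | h1 | h1 | h1⟩ := hr
    · obtain ⟨l, hl⟩ := h1
      simp only [mem_union, mem_image, mem_univ, true_and]
      exact Or.inl (Or.inl (Or.inl ⟨l, hl⟩))
    · simp only [mem_union, mem_filter]
      exact Or.inl (Or.inl (Or.inr ⟨hrT, h1⟩))
    · simp only [mem_union, mem_filter]
      exact Or.inl (Or.inr ⟨hrT, h1⟩)
    · obtain ⟨l, hl, hl2⟩ := h1
      simp only [mem_union, mem_biUnion, mem_filter, mem_univ, true_and]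
      exact Or.inr ⟨l, hrT, hl, hl2⟩
  refine (card_le_card hsub).trans ?_
  refine (card_union_le _ _).trans ?_
  have h1 : (univ.image ρ').card ≤ p := by
    refine card_image_le.trans ?_
    rw [card_univ, Fintype.card_fin]
  have h2 := card_visR_le L K T hT
  have h3 := card_visL_le L K T hT
  have h4 : ((univ : Finset (Fin p)).biUnion (fun l => T.filter (fun r => r < ρ' l ∧
        (gapR L T r (ρ' l)).card ≤ K))).card ≤ p * (L * BB L K) := by
    refine (card_biUnion_le_card_mul _ _ (L * BB L K) ?_).trans ?_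
    · intro l _
      exact card_gapR_le L K T hT (ρ' l) (hρ l)
    · rw [card_univ, Fintype.card_fin]
  have h5 := card_union_le ((univ.image ρ') ∪ T.filter (fun r => (visR L T r).card ≤ K))
    (T.filter (fun r => (visL L T r).card ≤ K))
  have h6 := card_union_le (univ.image ρ') (T.filter (fun r => (visR L T r).card ≤ K))
  unfold bet
  omega

end Pool.Agent.OTR
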