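import Pool.Agent.OTR.Z3
import Pool.Agent.OTR.Z6
import Pool.Agent.OTR.Z7

/-!
# [OTR-Z8] counting the failing pairs (tuple, column)

PROOF of `x5_inner` (fixed `ρ'`; put `N = 2 ^ L`, `w₁ = w₀ + d`, `C' = ncol A N (univ.image ρ')`, and for
`r < N`, `C_r = ncol A N (insert r (univ.image ρ')) ⊆ C'`). A counted pair is `(r, y)`, `y ∈ C_r`, with
`gg C_r w₀ y ≤ G₀`, `gg C' w₁ y ≤ n`, and there is `η : Fin h → ℕ` with all `η i ∈ C'` in the block
`y / 2 ^ w₁` and `∀ l, ρ' l ∈ Tset … y η`, `r ∈ Bk L K (Tset A L w₀ d o l M y η) ρ'`. `Tset … y η` depends on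
`y` only through `W = y / 2 ^ w₀` (`TL_congr`). For fixed `(r, W)` there are at most `G₀` counted `y`. The number
of pairs `(r, W)`: the block `V ⊇ W` of level `w₁` has `n_V = gg C' w₁ y ≤ n`; for each `V` there are `2 ^ d`
blocks `W ⊆ V`, at most `n_V ^ h ≤ n ^ (h-1) * n_V` functions `η : Fin h → C' ∩ V` (here `1 ≤ h`), and for each
`(W, η)` at most `bet L K p` values `r` (`card_Bk_le`).
PROOF of `x5_count`: write `ρ = (ρ', r)`, `ρ' = k.removeNth ρ`, `r = ρ k`, and sum `x5_inner` over `ρ'`.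
-/

namespace Pool.Agent.OTR

open Finset

theorem fiber_bound' {α : Type*} (F : Finset α) (π : α → ℕ) (C' : Finset ℕ) (w b : ℕ)
    (h : ∀ x ∈ F, (F.filter (fun z => π z / 2 ^ w = π x / 2 ^ w)).card ≤ b * gg C' w (π x)) :
    F.card ≤ b * C'.card := by
  classical
  have h1 : F.card = ∑ v ∈ F.image (fun z => π z / 2 ^ w),
      (F.filter (fun z => π z / 2 ^ w = v)).card :=
    card_eq_sum_card_image _ _
  have h2 : ∑ v ∈ F.image (fun z => π z / 2 ^ w), (C'.filter (fun z => z / 2 ^ w = v)).card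
      ≤ C'.card := by
    rw [Finset.sum_card_fiberwise_eq_card_filter]
    exact card_filter_le _ _
  calc F.card = ∑ v ∈ F.image (fun z => π z / 2 ^ w),
        (F.filter (fun z => π z / 2 ^ w = v)).card := h1
    _ ≤ ∑ v ∈ F.image (fun z => π z / 2 ^ w), b * (C'.filter (fun z => z / 2 ^ w = v)).card := by
        refine sum_le_sum fun v hv => ?_
        obtain ⟨y, hy, rfl⟩ := mem_image.1 hv
        exact h y hy
    _ = b * ∑ v ∈ F.image (fun z => π z / 2 ^ w), (C'.filter (fun z => z / 2 ^ w = v)).card := by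
        rw [mul_sum]
    _ ≤ b * C'.card := Nat.mul_le_mul_left _ h2

theorem Tset_congr (A : Finset (ℕ × ℕ)) (L w₀ d o l M : ℕ) {y y' : ℕ}
    (h : y / 2 ^ w₀ = y' / 2 ^ w₀) {s : ℕ} (η : Fin s → ℕ) :
    Tset A L w₀ d o l M y η = Tset A L w₀ d o l M y' η := by
  ext x
  simp only [Tset, mem_filter]
  rw [TL_congr _ w₀ d y y' h]

open Classical in
theorem x5_inner (A : Finset (ℕ × ℕ)) (L K p h w₀ d o l M n G₀ : ℕ) (hh : 1 ≤ h) (ρ' : Fin p → ℕ) :
    ∑ r ∈ range (2 ^ L),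
      ((ncol A (2 ^ L) (insert r (univ.image ρ'))).filter (fun y =>
        gg (ncol A (2 ^ L) (insert r (univ.image ρ'))) w₀ y ≤ G₀ ∧
        gg (ncol A (2 ^ L) (univ.image ρ')) (w₀ + d) y ≤ n ∧
        ∃ η : Fin h → ℕ, (∀ i, η i ∈ ncol A (2 ^ L) (univ.image ρ') ∧
          η i / 2 ^ (w₀ + d) = y / 2 ^ (w₀ + d)) ∧
          (∀ j, ρ' j ∈ Tset A L w₀ d o l M y η) ∧
          r ∈ Bk L K (Tset A L w₀ d o l M y η) ρ')).card
      ≤ G₀ * 2 ^ d * bet L K p * n ^ (h - 1) * (ncol A (2 ^ L) (univ.image ρ')).card := by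
  set C' := ncol A (2 ^ L) (univ.image ρ') with hC'
  set Cr : ℕ → Finset ℕ := fun r => ncol A (2 ^ L) (insert r (univ.image ρ')) with hCr
  set Fr : ℕ → Finset ℕ := fun r => (Cr r).filter (fun y =>
        gg (Cr r) w₀ y ≤ G₀ ∧ gg C' (w₀ + d) y ≤ n ∧
        ∃ η : Fin h → ℕ, (∀ i, η i ∈ C' ∧ η i / 2 ^ (w₀ + d) = y / 2 ^ (w₀ + d)) ∧
          (∀ j, ρ' j ∈ Tset A L w₀ d o l M y η) ∧
          r ∈ Bk L K (Tset A L w₀ d o l M y η) ρ') with hFr
  show ∑ r ∈ range (2 ^ L), (Fr r).card ≤ _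
  set P : Finset (Σ _ : ℕ, ℕ) := (range (2 ^ L)).sigma Fr with hP
  rw [← card_sigma, ← hP]
  refine fiber_bound' P (fun x => x.2) C' (w₀ + d) _ ?_
  rintro ⟨r₀, y₀⟩ hx₀
  rw [hP, mem_sigma] at hx₀
  have hn₀ : gg C' (w₀ + d) y₀ ≤ n := by
    have h1 := hx₀.2
    simp only [hFr, mem_filter] at h1
    exact h1.2.2.1
  show (P.filter (fun z => z.2 / 2 ^ (w₀ + d) = y₀ / 2 ^ (w₀ + d))).card ≤
    G₀ * 2 ^ d * bet L K p * n ^ (h - 1) * gg C' (w₀ + d) y₀
  set v := y₀ / 2 ^ (w₀ + d) with hv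
  set PV := P.filter (fun z => z.2 / 2 ^ (w₀ + d) = v) with hPV
  set CV := C'.filter (fun z => z / 2 ^ (w₀ + d) = v) with hCV
  have hCVc : gg C' (w₀ + d) y₀ = CV.card := rfl
  have h1 : PV.card ≤ G₀ * (PV.image (fun z => (z.1, z.2 / 2 ^ w₀))).card := by
    apply card_le_mul_card_image
    intro u hu
    obtain ⟨⟨r, y⟩, hz, rfl⟩ := mem_image.1 hu
    rw [hPV, mem_filter, hP, mem_sigma] at hz
    have h2 := hz.1.2
    simp only [hFr, mem_filter] at h2
    refine le_trans ?_ h2.2.1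
    unfold gg
    refine card_le_card_of_injOn (fun z => z.2) ?_ ?_
    · rintro ⟨r', y'⟩ hz'
      rw [mem_coe, mem_filter, hPV, mem_filter, hP, mem_sigma] at hz'
      obtain ⟨⟨⟨-, h3⟩, -⟩, h4⟩ := hz'
      simp only [Prod.mk.injEq] at h4
      simp only [hFr, mem_filter] at h3
      rw [mem_coe, mem_filter]
      rw [h4.1] at h3
      exact ⟨h3.1, h4.2⟩
    · rintro ⟨r', y'⟩ hz' ⟨r'', y''⟩ hz'' heq
      rw [mem_coe, mem_filter] at hz' hz''
      have h3 := hz'.2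
      have h4 := hz''.2
      simp only [Prod.mk.injEq] at h3 h4
      simp only at heq
      rw [heq, h3.1, h4.1]
  set RW : ℕ → (Fin h → ℕ) → Finset ℕ := fun W η =>
    if ∀ j, ρ' j ∈ Tset A L w₀ d o l M (W * 2 ^ w₀) η then
      Bk L K (Tset A L w₀ d o l M (W * 2 ^ w₀) η) ρ' else ∅ with hRW
  have hRWc : ∀ W η, (RW W η).card ≤ bet L K p := by
    intro W η
    simp only [hRW]
    split_ifs with h2
    · refine card_Bk_le L K p _ ?_ ρ' h2
      exact (filter_subset _ _).trans (filter_subset _ _)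
    · rw [card_empty]
      exact Nat.zero_le _
  have h2 : PV.image (fun z => (z.1, z.2 / 2 ^ w₀)) ⊆
      (Ico (v * 2 ^ d) (v * 2 ^ d + 2 ^ d)).biUnion (fun W =>
        (Fintype.piFinset (fun _ : Fin h => CV)).biUnion (fun η =>
          (RW W η).image (fun r => (r, W)))) := by
    intro u hu
    obtain ⟨⟨r, y⟩, hz, rfl⟩ := mem_image.1 hu
    rw [hPV, mem_filter, hP, mem_sigma] at hz
    obtain ⟨⟨-, h3⟩, hyv⟩ := hz
    simp only [hFr, mem_filter] at h3
    obtain ⟨-, -, -, η, hη, hηT, hηB⟩ := h3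
    simp only at hyv
    rw [mem_biUnion]
    refine ⟨y / 2 ^ w₀, ?_, ?_⟩
    · rw [mem_Ico]
      have h4 := Nat.div_add_mod (y / 2 ^ w₀) (2 ^ d)
      have h5 := Nat.mod_lt (y / 2 ^ w₀) (show 0 < 2 ^ d by positivity)
      rw [Nat.div_div_eq_div_mul, ← pow_add, hyv, mul_comm] at h4
      omega
    · rw [mem_biUnion]
      refine ⟨η, ?_, ?_⟩
      · rw [Fintype.mem_piFinset]
        intro i
        rw [hCV, mem_filter]
        exact ⟨(hη i).1, by rw [(hη i).2, hyv]⟩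
      · rw [mem_image]
        refine ⟨r, ?_, rfl⟩
        have h4 : Tset A L w₀ d o l M (y / 2 ^ w₀ * 2 ^ w₀) η = Tset A L w₀ d o l M y η :=
          Tset_congr A L w₀ d o l M (Nat.mul_div_cancel _ (by positivity)) η
        simp only [hRW]
        rw [h4, if_pos hηT]
        exact hηB
  have h3 : (PV.image (fun z => (z.1, z.2 / 2 ^ w₀))).card ≤ 2 ^ d * (CV.card ^ h * bet L K p) := by
    refine (card_le_card h2).trans ?_
    refine (card_biUnion_le_card_mul _ _ (CV.card ^ h * bet L K p) ?_).trans ?_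
    · intro W _
      refine (card_biUnion_le_card_mul _ _ (bet L K p) ?_).trans ?_
      · intro η _
        exact card_image_le.trans (hRWc W η)
      · rw [Fintype.card_piFinset, prod_const, card_univ, Fintype.card_fin]
    · rw [Nat.card_Ico, Nat.add_sub_cancel_left]
  have h4 : CV.card ^ h ≤ n ^ (h - 1) * CV.card := by
    obtain ⟨m, rfl⟩ := Nat.exists_eq_add_of_le' hh
    rw [Nat.add_sub_cancel, pow_succ]
    exact Nat.mul_le_mul_right _ (Nat.pow_le_pow_left (hCVc ▸ hn₀) m)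
  rw [hCVc]
  calc PV.card ≤ G₀ * (2 ^ d * (CV.card ^ h * bet L K p)) :=
        h1.trans (Nat.mul_le_mul_left _ h3)
    _ ≤ G₀ * (2 ^ d * (n ^ (h - 1) * CV.card * bet L K p)) :=
        Nat.mul_le_mul_left _ (Nat.mul_le_mul_left _ (Nat.mul_le_mul_right _ h4))
    _ = _ := by ring

theorem image_insertNth {p : ℕ} (k : Fin (p + 1)) (r : ℕ) (ρ' : Fin p → ℕ) :
    univ.image (k.insertNth (α := fun _ => ℕ) r ρ') = insert r (univ.image ρ') := by
  ext u
  rw [mem_image, mem_insert, mem_image]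
  constructor
  · rintro ⟨i, -, rfl⟩
    rcases Fin.eq_self_or_eq_succAbove k i with h | ⟨j, h⟩
    · left
      rw [h, Fin.insertNth_apply_same]
    · right
      exact ⟨j, mem_univ _, by rw [h, Fin.insertNth_apply_succAbove]⟩
  · rintro (rfl | ⟨j, -, rfl⟩)
    · exact ⟨k, mem_univ _, Fin.insertNth_apply_same _ _ _⟩
    · exact ⟨k.succAbove j, mem_univ _, Fin.insertNth_apply_succAbove _ _ _ _⟩

open Classical in
theorem x5_count (A : Finset (ℕ × ℕ)) (L K p h w₀ d o l M n G₀ : ℕ) (hh : 1 ≤ h)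
    (k : Fin (p + 1)) :
    ∑ ρ ∈ Fintype.piFinset (fun _ : Fin (p + 1) => range (2 ^ L)),
      ((ncol A (2 ^ L) (univ.image ρ)).filter (fun y =>
        gg (ncol A (2 ^ L) (univ.image ρ)) w₀ y ≤ G₀ ∧
        gg (ncol A (2 ^ L) (univ.image (k.removeNth ρ))) (w₀ + d) y ≤ n ∧
        ∃ η : Fin h → ℕ, (∀ i, η i ∈ ncol A (2 ^ L) (univ.image (k.removeNth ρ)) ∧
          η i / 2 ^ (w₀ + d) = y / 2 ^ (w₀ + d)) ∧
          (∀ j, (k.removeNth ρ) j ∈ Tset A L w₀ d o l M y η) ∧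
          ρ k ∈ Bk L K (Tset A L w₀ d o l M y η) (k.removeNth ρ))).card
      ≤ G₀ * 2 ^ d * bet L K p * n ^ (h - 1) * SS A L p 1 := by
  rw [sum_piFinset_succ (2 ^ L) p k]
  unfold SS
  rw [mul_sum]
  refine sum_le_sum fun ρ' _ => ?_
  rw [pow_one]
  refine le_trans (le_of_eq ?_) (x5_inner A L K p h w₀ d o l M n G₀ hh ρ')
  refine sum_congr rfl fun r _ => ?_
  rw [image_insertNth, Fin.removeNth_insertNth, Fin.insertNth_apply_same]

end Pool.Agent.OTR
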