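import Pool.Agent.OTR.Z0

/-!
# [OTR-Z9] the sums over the column degrees

PROOF. `SS A L p 1 = ∑_{y < 2 ^ L} d(y) ^ p`, `d(y) = #{x < 2 ^ L : (x, y) ∈ A}` (`xa_one`),
`∑_y d(y) = A.card` (`xa_card`), Chebyshev.
-/

namespace Pool.Agent.OTR

open Finset

theorem SS_cheb (A : Finset (ℕ × ℕ)) (L p : ℕ) (hA : A ⊆ range (2 ^ L) ×ˢ range (2 ^ L)) :
    A.card * SS A L p 1 ≤ 2 ^ L * SS A L (p + 1) 1 := by
  rw [xa_one, xa_one, xa_card A (2 ^ L) hA]
  have hmono : MonovaryOn (fun w => xaD A (2 ^ L) w) (fun w => xaD A (2 ^ L) w ^ p)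
      (range (2 ^ L) : Finset ℕ) := by
    intro a _ b _ hab
    by_contra hc
    push Not at hc
    exact absurd (Nat.pow_le_pow_left hc.le p) (not_le.2 hab)
  have h1 := hmono.sum_mul_sum_le_card_mul_sum
  refine h1.trans (le_of_eq ?_)
  rw [card_range, Nat.cast_id]
  congr 1
  refine sum_congr rfl fun w _ => ?_
  rw [pow_succ, mul_comm]

end Pool.Agent.OTR
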