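import Pool.Agent.OTR.E2
import Pool.Agent.OTR.S2
import Pool.Agent.OTR.Z2
import Pool.Agent.OTR.Z5
import Pool.Agent.OTR.Z6
import Pool.Agent.OTR.Z8
import Pool.Agent.OTR.Z9

/-!
# The matrix form of the non-leaf h-index theorem
-/

namespace Pool.Agent.OTR

open Finset

/-- The hypothesis on `M`: it is a Ramsey number for the colourings used. -/
def RamseyOK (M p J h s : ℕ) : Prop :=
  ∀ Z : Finset ℕ, M ≤ Z.card → ∀ col : Finset ℕ → (Fin (p + 1) → Finset (Fin J)),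
    ∃ Z' ⊆ Z, Z'.card = s ∧ ∃ k, ∀ σ ⊆ Z', σ.card = h → col σ = k

theorem count_window {a b h p : ℕ} (hh : 1 ≤ h) (Q : Fin a → Fin b → Prop) (E : Finset (Fin a))
    (hEp : E.card = p + 1) (hQ : ∀ i ∉ E, (mainRow Q i).ncard ≤ h) (J M : ℕ) (hJ : 1 ≤ J)
    (hM1 : 1 ≤ M) (hM : RamseyOK M (p + 1) J h (b + h))
    (L : ℕ) (A : Finset (ℕ × ℕ)) (hnot : ¬ MContains Q A) (w₀ d o l n G₀ G₁ : ℕ) :
    n * ∑ ρ ∈ Fintype.piFinset (fun _ : Fin (p + 1) => range (2 ^ L)),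
      (Y1 (ncol A (2 ^ L) (univ.image ρ)) w₀ d o l M G₀ G₁).card ≤
      (p + 1) * ((2 ^ L * G₁ + n * (G₀ * 2 ^ d * bet L (a * (L / J + 1)) p * n ^ (h - 1))) *
        SS A L p 1) := by
  classical
  set K := a * (L / J + 1) with hK
  set F4 : Fin (p + 1) → (Fin (p + 1) → ℕ) → Finset ℕ := fun k ρ =>
    (ncol A (2 ^ L) (univ.image ρ)).filter (fun y =>
        gg (ncol A (2 ^ L) (univ.image ρ)) (w₀ + d) y ≤ G₁ ∧
        n < gg (ncol A (2 ^ L) (univ.image (k.removeNth ρ))) (w₀ + d) y) with hF4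
  set F5 : Fin (p + 1) → (Fin (p + 1) → ℕ) → Finset ℕ := fun k ρ =>
    (ncol A (2 ^ L) (univ.image ρ)).filter (fun y =>
        gg (ncol A (2 ^ L) (univ.image ρ)) w₀ y ≤ G₀ ∧
        gg (ncol A (2 ^ L) (univ.image (k.removeNth ρ))) (w₀ + d) y ≤ n ∧
        ∃ η : Fin h → ℕ, (∀ i, η i ∈ ncol A (2 ^ L) (univ.image (k.removeNth ρ)) ∧
          η i / 2 ^ (w₀ + d) = y / 2 ^ (w₀ + d)) ∧
          (∀ j, (k.removeNth ρ) j ∈ Tset A L w₀ d o l M y η) ∧
          ρ k ∈ Bk L K (Tset A L w₀ d o l M y η) (k.removeNth ρ)) with hF5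
  have hsub : ∀ ρ ∈ Fintype.piFinset (fun _ : Fin (p + 1) => range (2 ^ L)),
      (Y1 (ncol A (2 ^ L) (univ.image ρ)) w₀ d o l M G₀ G₁).card ≤
        ∑ k : Fin (p + 1), ((F4 k ρ).card + (F5 k ρ).card) := by
    intro ρ hρ
    have h1 : Y1 (ncol A (2 ^ L) (univ.image ρ)) w₀ d o l M G₀ G₁ ⊆
        (univ : Finset (Fin (p + 1))).biUnion (fun k => F4 k ρ ∪ F5 k ρ) := by
      intro y hy
      simp only [Y1, mem_filter] at hy
      obtain ⟨hyC, hy0, hy1, hhit⟩ := hy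
      obtain ⟨η, hη, hηT, hbad⟩ := embed2 Q E hEp (by omega) hQ J M hJ hM1 hM L A hnot ρ
        (fun k => mem_range.1 (Fintype.mem_piFinset.1 hρ k)) w₀ d o l y hhit
      obtain ⟨k, hk⟩ := bad_entry L K p _ ρ hηT hbad
      have hsubC : ncol A (2 ^ L) (univ.image ρ) ⊆
          ncol A (2 ^ L) (univ.image (k.removeNth ρ)) := by
        intro z hz
        simp only [ncol, mem_filter] at hz ⊢
        refine ⟨hz.1, ?_⟩
        intro u hu
        obtain ⟨j, -, rfl⟩ := mem_image.1 hu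
        exact hz.2 _ (mem_image_of_mem ρ (mem_univ _))
      rw [mem_biUnion]
      refine ⟨k, mem_univ k, ?_⟩
      rw [mem_union]
      rcases Nat.lt_or_ge n (gg (ncol A (2 ^ L) (univ.image (k.removeNth ρ))) (w₀ + d) y) with h2 | h2
      · left
        simp only [hF4, mem_filter]
        exact ⟨hyC, hy1, h2⟩
      · right
        simp only [hF5, mem_filter]
        exact ⟨hyC, hy0, h2, η, fun i => ⟨hsubC (hη i).1, (hη i).2⟩, fun j => hηT _, hk⟩
    refine (card_le_card h1).trans (card_biUnion_le.trans ?_)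
    exact sum_le_sum fun k _ => card_union_le _ _
  calc n * ∑ ρ ∈ Fintype.piFinset (fun _ : Fin (p + 1) => range (2 ^ L)),
      (Y1 (ncol A (2 ^ L) (univ.image ρ)) w₀ d o l M G₀ G₁).card
      ≤ n * ∑ ρ ∈ Fintype.piFinset (fun _ : Fin (p + 1) => range (2 ^ L)),
        ∑ k : Fin (p + 1), ((F4 k ρ).card + (F5 k ρ).card) :=
        Nat.mul_le_mul_left n (sum_le_sum hsub)
    _ = ∑ k : Fin (p + 1),
          (n * ∑ ρ ∈ Fintype.piFinset (fun _ : Fin (p + 1) => range (2 ^ L)), (F4 k ρ).card +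
          n * ∑ ρ ∈ Fintype.piFinset (fun _ : Fin (p + 1) => range (2 ^ L)), (F5 k ρ).card) := by
        rw [sum_comm, mul_sum]
        refine sum_congr rfl fun k _ => ?_
        rw [sum_add_distrib, mul_add]
    _ ≤ ∑ k : Fin (p + 1), (2 ^ L * G₁ * SS A L p 1 +
          n * (G₀ * 2 ^ d * bet L K p * n ^ (h - 1) * SS A L p 1)) := by
        refine sum_le_sum fun k _ => Nat.add_le_add ?_ (Nat.mul_le_mul_left n ?_)
        · exact x4_count A L p (w₀ + d) n G₁ k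
        · exact x5_count A L K p h w₀ d o l M n G₀ hh k
    _ = _ := by
        rw [sum_const, card_univ, Fintype.card_fin, smul_eq_mul]
        ring

theorem count_total {a b h p : ℕ} (hh : 1 ≤ h) (Q : Fin a → Fin b → Prop) (E : Finset (Fin a))
    (hEp : E.card = p + 1) (hQ : ∀ i ∉ E, (mainRow Q i).ncard ≤ h) (J M : ℕ) (hJ : 1 ≤ J)
    (hM1 : 1 ≤ M) (hM : RamseyOK M (p + 1) J h (b + h))
    (L : ℕ) (A : Finset (ℕ × ℕ)) (hnot : ¬ MContains Q A)
    (k q Δ R lam n d : ℕ) (hd : d = M ^ k * q) (hR : 1 ≤ R) (hL : L ≤ Δ * d)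
    (hlam : 4 * Δ ≤ lam) (hlam0 : 1 ≤ lam)
    (hRB : 4 * Δ * BB (M ^ k * q) ((M - 1) ^ k * q) ≤ R) :
    n * SS A L (p + 1) 1 ≤ 2 * n * (2 ^ L) ^ (p + 1) * R ^ Δ +
      2 * (Δ * (k * M ^ k) * ((p + 1) * ((2 ^ L * (lam * 2 ^ d * R ^ Δ) +
        n * (R ^ Δ * 2 ^ d * bet L (a * (L / J + 1)) p * n ^ (h - 1))) * SS A L p 1))) := by
  classical
  subst hd
  set d := M ^ k * q with hd
  set G₀ := R ^ Δ with hG₀
  set G₁ := lam * 2 ^ d * R ^ Δ with hG₁
  set X := (p + 1) * ((2 ^ L * G₁ +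
        n * (G₀ * 2 ^ d * bet L (a * (L / J + 1)) p * n ^ (h - 1))) * SS A L p 1) with hX
  have h1 : SS A L (p + 1) 1 ≤ ∑ ρ ∈ Fintype.piFinset (fun _ : Fin (p + 1) => range (2 ^ L)),
      (2 * R ^ Δ + 2 * ∑ i ∈ range Δ, ∑ j ∈ range k, ∑ c ∈ range (M ^ j),
      (Y1 (ncol A (2 ^ L) (univ.image ρ)) (i * d) d (i * d + c * (M ^ (k - j) * q))
        (M ^ (k - j - 1) * q) M G₀ G₁).card) := by
    unfold SS
    refine sum_le_sum fun ρ _ => ?_
    rw [pow_one]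
    exact cover L M k q Δ R lam hM1 hR hL hlam hlam0 hRB _ (filter_subset _ _)
  have h2 : ∑ ρ ∈ Fintype.piFinset (fun _ : Fin (p + 1) => range (2 ^ L)),
      (2 * R ^ Δ + 2 * ∑ i ∈ range Δ, ∑ j ∈ range k, ∑ c ∈ range (M ^ j),
      (Y1 (ncol A (2 ^ L) (univ.image ρ)) (i * d) d (i * d + c * (M ^ (k - j) * q))
        (M ^ (k - j - 1) * q) M G₀ G₁).card) =
      (2 ^ L) ^ (p + 1) * (2 * R ^ Δ) + 2 * ∑ i ∈ range Δ, ∑ j ∈ range k, ∑ c ∈ range (M ^ j),
      ∑ ρ ∈ Fintype.piFinset (fun _ : Fin (p + 1) => range (2 ^ L)),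
      (Y1 (ncol A (2 ^ L) (univ.image ρ)) (i * d) d (i * d + c * (M ^ (k - j) * q))
        (M ^ (k - j - 1) * q) M G₀ G₁).card := by
    rw [sum_add_distrib, sum_const, Fintype.card_piFinset, prod_const, card_univ, Fintype.card_fin,
      card_range, smul_eq_mul, ← mul_sum]
    congr 2
    rw [sum_comm]
    refine sum_congr rfl fun i _ => ?_
    rw [sum_comm]
    refine sum_congr rfl fun j _ => ?_
    rw [sum_comm]
  have h3 : n * ∑ i ∈ range Δ, ∑ j ∈ range k, ∑ c ∈ range (M ^ j),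
      ∑ ρ ∈ Fintype.piFinset (fun _ : Fin (p + 1) => range (2 ^ L)),
      (Y1 (ncol A (2 ^ L) (univ.image ρ)) (i * d) d (i * d + c * (M ^ (k - j) * q))
        (M ^ (k - j - 1) * q) M G₀ G₁).card ≤ Δ * (k * M ^ k) * X := by
    have h4 : ∀ i ∈ range Δ, ∑ j ∈ range k, ∑ c ∈ range (M ^ j),
        n * ∑ ρ ∈ Fintype.piFinset (fun _ : Fin (p + 1) => range (2 ^ L)),
        (Y1 (ncol A (2 ^ L) (univ.image ρ)) (i * d) d (i * d + c * (M ^ (k - j) * q))
          (M ^ (k - j - 1) * q) M G₀ G₁).card ≤ k * (M ^ k * X) := by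
      intro i _
      calc _ ≤ ∑ _j ∈ range k, M ^ k * X := by
            refine sum_le_sum fun j hj => ?_
            calc _ ≤ ∑ _c ∈ range (M ^ j), X := by
                  refine sum_le_sum fun c _ => ?_
                  exact count_window hh Q E hEp hQ J M hJ hM1 hM L A hnot _ _ _ _ _ _ _
              _ = M ^ j * X := by rw [sum_const, card_range, smul_eq_mul]
              _ ≤ M ^ k * X :=
                  Nat.mul_le_mul_right X (Nat.pow_le_pow_right hM1 (mem_range.1 hj).le)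
        _ = _ := by rw [sum_const, card_range, smul_eq_mul]
    simp only [mul_sum] at h4 ⊢
    calc _ ≤ ∑ _i ∈ range Δ, k * (M ^ k * X) := sum_le_sum h4
      _ = _ := by rw [sum_const, card_range, smul_eq_mul]; ring
  calc n * SS A L (p + 1) 1 ≤ n * ((2 ^ L) ^ (p + 1) * (2 * R ^ Δ) + 2 * ∑ i ∈ range Δ,
      ∑ j ∈ range k, ∑ c ∈ range (M ^ j),
      ∑ ρ ∈ Fintype.piFinset (fun _ : Fin (p + 1) => range (2 ^ L)),
      (Y1 (ncol A (2 ^ L) (univ.image ρ)) (i * d) d (i * d + c * (M ^ (k - j) * q))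
        (M ^ (k - j - 1) * q) M G₀ G₁).card) := Nat.mul_le_mul_left n (h1.trans h2.le)
    _ = 2 * n * (2 ^ L) ^ (p + 1) * R ^ Δ + 2 * (n * ∑ i ∈ range Δ,
      ∑ j ∈ range k, ∑ c ∈ range (M ^ j),
      ∑ ρ ∈ Fintype.piFinset (fun _ : Fin (p + 1) => range (2 ^ L)),
      (Y1 (ncol A (2 ^ L) (univ.image ρ)) (i * d) d (i * d + c * (M ^ (k - j) * q))
        (M ^ (k - j - 1) * q) M G₀ G₁).card) := by ring
    _ ≤ _ := Nat.add_le_add_left (Nat.mul_le_mul_left 2 h3) _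

/-- the conclusion of the counting, in terms of the number of entries -/
theorem count_card {N card S S' n V Y G₀ p : ℕ}
    (h1 : n * S ≤ 2 * n * N ^ (p + 1) * G₀ + 2 * (V * (Y * S')))
    (h2 : card * S' ≤ N * S) (h3 : card ^ (p + 1) ≤ N ^ p * S)
    (hn : 1 ≤ n) (h4 : 4 * (V * Y * N) ≤ n * card) :
    card ^ (p + 1) ≤ 4 * (N ^ (2 * p + 1) * G₀) := by
  rcases Nat.eq_zero_or_pos card with h0 | hc
  · rw [h0, zero_pow (Nat.succ_ne_zero p)]
    exact Nat.zero_le _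
  have h5 : card * (n * S) ≤ card * (2 * n * N ^ (p + 1) * G₀) + 2 * (V * Y * N) * S := by
    calc card * (n * S) ≤ card * (2 * n * N ^ (p + 1) * G₀ + 2 * (V * (Y * S'))) :=
          Nat.mul_le_mul_left _ h1
      _ = card * (2 * n * N ^ (p + 1) * G₀) + 2 * (V * Y) * (card * S') := by ring
      _ ≤ card * (2 * n * N ^ (p + 1) * G₀) + 2 * (V * Y) * (N * S) :=
          Nat.add_le_add_left (Nat.mul_le_mul_left _ h2) _
      _ = _ := by ring
  have h6 : 4 * (V * Y * N) * S ≤ n * card * S := Nat.mul_le_mul_right S h4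
  have h7 : (card * n) * S ≤ (card * n) * (4 * N ^ (p + 1) * G₀) := by
    nlinarith
  have h8 : S ≤ 4 * N ^ (p + 1) * G₀ := Nat.le_of_mul_le_mul_left h7 (by positivity)
  calc card ^ (p + 1) ≤ N ^ p * S := h3
    _ ≤ N ^ p * (4 * N ^ (p + 1) * G₀) := Nat.mul_le_mul_left _ h8
    _ = _ := by ring

end Pool.Agent.OTR
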