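import Pool.Agent.OTR.M2

/-!
# The matrix form of the non-leaf h-index theorem: the numbers
-/

namespace Pool.Agent.OTR

open Finset

theorem choose_n {N card G₀ P2 bt D lam h : ℕ} (hh : 1 ≤ h) (hcard : 1 ≤ card)
    (hcN : card ≤ N ^ 2) (hG : 1 ≤ G₀) (hP : 1 ≤ P2) (hD : 1 ≤ D) (hlam : 1 ≤ lam)
    (hyp : D * (2 * D * lam) ^ (h - 1) * N ^ (2 * h - 1) * G₀ ^ h * P2 ^ h * bt ≤ card ^ h) :
    ∃ n, 1 ≤ n ∧ D * N ^ 2 * (lam * P2 * G₀) ≤ n * card ∧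
      D * N * (G₀ * P2 * bt * n ^ (h - 1)) ≤ card := by
  obtain ⟨m, rfl⟩ := Nat.exists_eq_add_of_le' hh
  rw [Nat.add_sub_cancel] at hyp ⊢
  set X := D * N ^ 2 * (lam * P2 * G₀) with hX
  have hNX : N ^ 2 ≤ X := by
    have h1 : 1 ≤ D * (lam * P2 * G₀) := Nat.one_le_iff_ne_zero.2 (by positivity)
    calc N ^ 2 = N ^ 2 * 1 := (mul_one _).symm
      _ ≤ N ^ 2 * (D * (lam * P2 * G₀)) := Nat.mul_le_mul_left _ h1
      _ = X := by rw [hX]; ring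
  refine ⟨X / card + 1, Nat.le_add_left 1 _, ?_, ?_⟩
  · have h1 := Nat.div_add_mod X card
    have h2 := Nat.mod_lt X (show 0 < card by omega)
    rw [add_mul, one_mul]
    have h3 : X / card * card = card * (X / card) := mul_comm _ _
    omega
  · set n := X / card + 1 with hn
    have hnc : n * card ≤ 2 * X := by
      rw [hn, add_mul, one_mul]
      have h1 := Nat.div_mul_le_self X card
      omega
    have h2 : D * N * (G₀ * P2 * bt * n ^ m) * card ^ m ≤ card * card ^ m := by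
      calc D * N * (G₀ * P2 * bt * n ^ m) * card ^ m
          = D * N * (G₀ * P2 * bt) * (n * card) ^ m := by rw [mul_pow]; ring
        _ ≤ D * N * (G₀ * P2 * bt) * (2 * X) ^ m :=
            Nat.mul_le_mul_left _ (Nat.pow_le_pow_left hnc m)
        _ = D * (2 * D * lam) ^ m * N ^ (2 * (m + 1) - 1) * G₀ ^ (m + 1) * P2 ^ (m + 1) * bt := by
            have h3 : 2 * (m + 1) - 1 = 2 * m + 1 := by omega
            rw [h3, hX]
            simp only [mul_pow, pow_succ, pow_mul]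
            ring
        _ ≤ card ^ (m + 1) := hyp
        _ = card * card ^ m := by rw [pow_succ, mul_comm]
    exact Nat.le_of_mul_le_mul_right h2 (by positivity)

theorem params (h p Δ M k : ℕ) (ε : ℝ) (hε : 0 < ε) (hh : 1 ≤ h) (hΔ : 1 ≤ Δ) (hM : 1 ≤ M)
    (hΔε : 1 / (Δ : ℝ) ≤ ε / 4) (C₁ : ℝ) (hC₁ : 0 < C₁) (Kf : ℕ → ℕ)
    (hBB : ∀ L : ℕ, (BB L (Kf L) : ℝ) ≤ C₁ * (2 : ℝ) ^ (h * ε / 4 * (L : ℝ))) :
    ∃ c₁ c₂ c₃ : ℝ, 0 < c₁ ∧ 0 < c₂ ∧ 0 < c₃ ∧ ∀ L q d R : ℕ, q = L / (Δ * M ^ k) + 1 →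
      d = M ^ k * q → R = ⌈4 * (Δ : ℝ) * (2 : ℝ) ^ (ε / 4 * (d : ℝ))⌉₊ →
      L ≤ Δ * d ∧ 1 ≤ R ∧ ((R ^ Δ : ℕ) : ℝ) ≤ c₁ * (2 : ℝ) ^ (ε / 4 * (L : ℝ)) ∧
      ((2 ^ d : ℕ) : ℝ) ≤ c₂ * (2 : ℝ) ^ (ε / 4 * (L : ℝ)) ∧
      (bet L (Kf L) p : ℝ) ≤ c₃ * ((2 : ℝ) ^ (ε / 4 * (L : ℝ))) ^ (2 * h) := by
  have hlog : 0 < Real.log 2 := Real.log_pos (by norm_num)
  have hhR : (1 : ℝ) ≤ h := by exact_mod_cast hh
  have hΔR : (1 : ℝ) ≤ Δ := by exact_mod_cast hΔ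
  have hMR : (1 : ℝ) ≤ M := by exact_mod_cast hM
  have hMk : (1 : ℝ) ≤ (M : ℝ) ^ k := one_le_pow₀ hMR
  have hMkN : 1 ≤ M ^ k := Nat.one_le_pow _ _ hM
  refine ⟨(8 * (Δ : ℝ)) ^ Δ * (2 : ℝ) ^ (ε / 4 * (Δ * M ^ k)), (2 : ℝ) ^ ((M : ℝ) ^ k),
    p + 2 * C₁ + p * (1 / (h * ε / 4 * Real.log 2) * C₁) + 1, by positivity, by positivity,
    by positivity, ?_⟩
  intro L q d R hq hd hR
  set x : ℝ := (2 : ℝ) ^ (ε / 4 * (L : ℝ)) with hx
  have hx1 : 1 ≤ x := Real.one_le_rpow (by norm_num) (by positivity)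
  have hm : 1 ≤ Δ * M ^ k := Nat.mul_pos hΔ hMkN
  have hLd : L ≤ Δ * d := by
    have h1 := Nat.div_add_mod L (Δ * M ^ k)
    have h2 := Nat.mod_lt L (show 0 < Δ * M ^ k by omega)
    have h3 : Δ * d = Δ * M ^ k * (L / (Δ * M ^ k)) + Δ * M ^ k := by
      rw [hd, hq]
      ring
    omega
  have hdL : (Δ : ℝ) * d ≤ L + Δ * M ^ k := by
    have h1 : Δ * d ≤ L + Δ * M ^ k := by
      have h2 := Nat.mul_div_le L (Δ * M ^ k)
      have h3 : Δ * d = Δ * M ^ k * (L / (Δ * M ^ k)) + Δ * M ^ k := by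
        rw [hd, hq]
        ring
      omega
    exact_mod_cast h1
  have hd2 : (d : ℝ) ≤ ε / 4 * L + M ^ k := by
    have h1 : (d : ℝ) ≤ 1 / Δ * L + M ^ k := by
      have h2 : (d : ℝ) = 1 / Δ * (Δ * d) := by field_simp
      rw [h2]
      calc 1 / (Δ : ℝ) * (Δ * d) ≤ 1 / Δ * (L + Δ * M ^ k) := by gcongr
        _ = _ := by field_simp
    have h2 : 1 / (Δ : ℝ) * L ≤ ε / 4 * L := by gcongr
    linarith
  have hY1 : (1 : ℝ) ≤ (2 : ℝ) ^ (ε / 4 * (d : ℝ)) := Real.one_le_rpow (by norm_num) (by positivity)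
  have hRle : (R : ℝ) ≤ 8 * (Δ : ℝ) * (2 : ℝ) ^ (ε / 4 * (d : ℝ)) := by
    have h1 := (Nat.ceil_lt_add_one (show 0 ≤ 4 * (Δ : ℝ) * (2 : ℝ) ^ (ε / 4 * (d : ℝ)) by
      positivity)).le
    rw [← hR] at h1
    nlinarith
  refine ⟨hLd, ?_, ?_, ?_, ?_⟩
  · rw [hR, Nat.one_le_ceil_iff]
    positivity
  · push_cast
    calc (R : ℝ) ^ Δ ≤ (8 * (Δ : ℝ) * (2 : ℝ) ^ (ε / 4 * (d : ℝ))) ^ Δ :=
          pow_le_pow_left₀ (by positivity) hRle _
      _ = (8 * (Δ : ℝ)) ^ Δ * (2 : ℝ) ^ (ε / 4 * (Δ * d)) := by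
          rw [mul_pow, ← Real.rpow_natCast ((2 : ℝ) ^ (ε / 4 * (d : ℝ))) Δ,
            ← Real.rpow_mul (by norm_num)]
          congr 2
          ring
      _ ≤ (8 * (Δ : ℝ)) ^ Δ * (2 : ℝ) ^ (ε / 4 * (L + Δ * M ^ k)) := by
          refine mul_le_mul_of_nonneg_left ?_ (by positivity)
          exact Real.rpow_le_rpow_of_exponent_le (by norm_num) (by gcongr)
      _ = _ := by
          rw [mul_add, Real.rpow_add (by norm_num)]
          ring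
  · push_cast
    rw [← Real.rpow_natCast]
    calc (2 : ℝ) ^ (d : ℝ) ≤ (2 : ℝ) ^ (ε / 4 * L + M ^ k) :=
          Real.rpow_le_rpow_of_exponent_le (by norm_num) hd2
      _ = _ := by
          rw [Real.rpow_add (by norm_num)]
          ring
  · have hxh : (2 : ℝ) ^ (h * ε / 4 * (L : ℝ)) = x ^ h := by
      rw [hx, ← Real.rpow_natCast, ← Real.rpow_mul (by norm_num)]
      congr 1
      ring
    have hB := hBB L
    rw [hxh] at hB
    have hLx := nat_le_two_rpow (h * ε / 4) (by positivity) L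
    rw [hxh] at hLx
    have hxh1 : 1 ≤ x ^ h := one_le_pow₀ hx1
    have h2 : x ^ (2 * h) = x ^ h * x ^ h := by rw [two_mul, pow_add]
    have h3 : x ^ h ≤ x ^ h * x ^ h := by nlinarith
    have h4 : (1 : ℝ) ≤ x ^ h * x ^ h := by nlinarith
    unfold bet
    push_cast
    rw [h2]
    calc (p : ℝ) + 2 * BB L (Kf L) + p * (L * BB L (Kf L))
        ≤ p * (x ^ h * x ^ h) + 2 * (C₁ * (x ^ h * x ^ h)) +
          p * ((1 / (h * ε / 4 * Real.log 2) * x ^ h) * (C₁ * x ^ h)) := by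
          gcongr
          · exact le_mul_of_one_le_right (by positivity) h4
          · exact hB.trans (mul_le_mul_of_nonneg_left h3 hC₁.le)
      _ = (p + 2 * C₁ + p * (1 / (h * ε / 4 * Real.log 2) * C₁)) * (x ^ h * x ^ h) := by ring
      _ ≤ _ := by
          refine mul_le_mul_of_nonneg_right ?_ (by positivity)
          linarith

theorem matrix2_aux {a b h p : ℕ} (hh : 1 ≤ h) (Q : Fin a → Fin b → Prop)
    (E : Finset (Fin a)) (hEp : E.card = p + 1) (hph : p + 1 ≤ h)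
    (hQ : ∀ i ∉ E, (mainRow Q i).ncard ≤ h) (ε : ℝ) (hε : 0 < ε) :
    ∃ C : ℝ, 0 ≤ C ∧ ∀ (L : ℕ) (A : Finset (ℕ × ℕ)), A ⊆ range (2 ^ L) ×ˢ range (2 ^ L) →
      ¬ MContains Q A → (A.card : ℝ) ≤ C * ((2 : ℝ) ^ L) ^ (2 - 1 / (h : ℝ) + ε) := by
  have hhR : (1 : ℝ) ≤ h := by exact_mod_cast hh
  -- the constants
  obtain ⟨J, hJ, C₁, hC₁, hBB⟩ := BB_bound a (h * ε / 4) (by positivity)
  obtain ⟨M₁, hM₁⟩ := ramsey_finset (Fin (p + 1 + 1) → Finset (Fin J)) h (b + h)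
  set M : ℕ := max M₁ 2 with hMdef
  have hM2 : 2 ≤ M := le_max_right _ _
  have hMR : RamseyOK M (p + 1) J h (b + h) := by
    intro Z hZ col
    exact hM₁ Z ((le_max_left _ _).trans hZ) col
  obtain ⟨k, hk1, hk⟩ := entropy_k M hM2 (ε / 4) (by positivity)
  set Δ : ℕ := ⌈4 / ε⌉₊ with hΔdef
  have hΔ1 : 1 ≤ Δ := by
    rw [hΔdef, Nat.one_le_ceil_iff]
    positivity
  have hΔR : (1 : ℝ) ≤ Δ := by exact_mod_cast hΔ1
  have hΔε : 1 / (Δ : ℝ) ≤ ε / 4 := by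
    have h1 : 4 / ε ≤ (Δ : ℝ) := Nat.le_ceil _
    rw [div_le_iff₀ (by positivity)]
    rw [div_le_iff₀ hε] at h1
    linarith
  obtain ⟨c₁, c₂, c₃, hc₁, hc₂, hc₃, hpar⟩ := params h p Δ M k ε hε hh hΔ1 (by omega) hΔε C₁ hC₁
    (fun L => a * (L / J + 1)) hBB
  set lam : ℕ := 4 * Δ with hlam
  set D : ℕ := 8 * (Δ * (k * M ^ k)) * (p + 1) with hD
  have hD1 : 1 ≤ D := by
    have : 1 ≤ M ^ k := Nat.one_le_pow _ _ (by omega)
    exact Nat.one_le_iff_ne_zero.2 (by positivity)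
  set C : ℝ := 1 + 4 * c₁ + D * (2 * D * lam) ^ (h - 1) * c₁ ^ h * c₂ ^ h * c₃ with hC
  have hC1 : 1 ≤ C := by
    have h1 : 0 ≤ (D : ℝ) * (2 * D * lam) ^ (h - 1) * c₁ ^ h * c₂ ^ h * c₃ := by positivity
    linarith
  refine ⟨C, by linarith, ?_⟩
  intro L A hA hnot
  by_contra hcon
  push Not at hcon
  obtain ⟨q, hq⟩ : ∃ q, q = L / (Δ * M ^ k) + 1 := ⟨_, rfl⟩
  obtain ⟨d, hd⟩ : ∃ d, d = M ^ k * q := ⟨_, rfl⟩
  obtain ⟨R, hR⟩ : ∃ R, R = ⌈4 * (Δ : ℝ) * (2 : ℝ) ^ (ε / 4 * (d : ℝ))⌉₊ := ⟨_, rfl⟩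
  obtain ⟨hLd, hR1, hG, hP2, hbet⟩ := hpar L q d R hq hd hR
  set x : ℝ := (2 : ℝ) ^ (ε / 4 * (L : ℝ)) with hx
  have hx1 : 1 ≤ x := Real.one_le_rpow (by norm_num) (by positivity)
  set N : ℕ := 2 ^ L with hN
  have hN1 : 1 ≤ N := Nat.one_le_two_pow
  have hNR : ((2 : ℝ) ^ L) = (N : ℝ) := by rw [hN]; push_cast; rfl
  have hNR1 : (1 : ℝ) ≤ N := by exact_mod_cast hN1
  have hN0 : (0 : ℝ) < N := by linarith
  rw [hNR] at hcon
  have hRB : 4 * Δ * BB (M ^ k * q) ((M - 1) ^ k * q) ≤ R := by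
    have h1 := hk q
    rw [← hd] at h1 ⊢
    have h2 : 4 * (Δ : ℝ) * BB d ((M - 1) ^ k * q) ≤ (R : ℝ) := by
      rw [hR]
      refine le_trans ?_ (Nat.le_ceil _)
      exact mul_le_mul_of_nonneg_left h1 (by positivity)
    exact_mod_cast h2
  have hcard0 : 1 ≤ A.card := by
    have h1 : (0 : ℝ) < A.card := lt_of_le_of_lt (by positivity) hcon
    exact_mod_cast h1
  have hcardN : A.card ≤ N ^ 2 := by
    have h1 := card_le_card hA
    rw [card_product, card_range] at h1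
    rw [pow_two]
    exact h1
  have hx4 : x ^ 4 = (N : ℝ) ^ ε := by
    rw [hx, ← hNR, ← Real.rpow_natCast, ← Real.rpow_mul (by norm_num), ← Real.rpow_natCast,
      ← Real.rpow_mul (by norm_num)]
    congr 1
    push_cast
    ring
  -- the hypothesis of `choose_n`
  have hyp : D * (2 * D * lam) ^ (h - 1) * N ^ (2 * h - 1) * (R ^ Δ) ^ h * (2 ^ d) ^ h *
      bet L (a * (L / J + 1)) p ≤ A.card ^ h := by
    have h1 : (C * (N : ℝ) ^ (2 - 1 / (h : ℝ) + ε)) ^ h ≤ (A.card : ℝ) ^ h :=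
      pow_le_pow_left₀ (by positivity) hcon.le h
    have h2 : (C * (N : ℝ) ^ (2 - 1 / (h : ℝ) + ε)) ^ h =
        C ^ h * ((N : ℝ) ^ (2 * h - 1) * (x ^ 4) ^ h) := by
      rw [mul_pow, hx4]
      congr 1
      rw [← Real.rpow_natCast ((N : ℝ) ^ (2 - 1 / (h : ℝ) + ε)) h, ← Real.rpow_mul hN0.le,
        ← Real.rpow_natCast (N : ℝ) (2 * h - 1), ← Real.rpow_natCast ((N : ℝ) ^ ε) h,
        ← Real.rpow_mul hN0.le, ← Real.rpow_add hN0]
      congr 1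
      rw [Nat.cast_sub (by omega)]
      push_cast
      field_simp
    have hCh : C ≤ C ^ h := le_self_pow₀ hC1 (by omega)
    have h3 : ((D * (2 * D * lam) ^ (h - 1) * N ^ (2 * h - 1) * (R ^ Δ) ^ h * (2 ^ d) ^ h *
      bet L (a * (L / J + 1)) p : ℕ) : ℝ) ≤ C ^ h * ((N : ℝ) ^ (2 * h - 1) * (x ^ 4) ^ h) := by
      rw [Nat.cast_mul, Nat.cast_mul, Nat.cast_mul, Nat.cast_mul, Nat.cast_pow (R ^ Δ) h,
        Nat.cast_pow (2 ^ d) h]
      calc (((D * (2 * D * lam) ^ (h - 1) : ℕ) : ℝ) * ((N ^ (2 * h - 1) : ℕ) : ℝ) *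
            ((R ^ Δ : ℕ) : ℝ) ^ h * ((2 ^ d : ℕ) : ℝ) ^ h * (bet L (a * (L / J + 1)) p : ℝ))
          ≤ (((D * (2 * D * lam) ^ (h - 1) : ℕ) : ℝ) * ((N ^ (2 * h - 1) : ℕ) : ℝ) *
            (c₁ * x) ^ h * (c₂ * x) ^ h * (c₃ * x ^ (2 * h))) := by
            gcongr
        _ = ((D : ℝ) * (2 * D * lam) ^ (h - 1) * c₁ ^ h * c₂ ^ h * c₃) *
            ((N : ℝ) ^ (2 * h - 1) * (x ^ 4) ^ h) := by
            push_cast
            have : (x ^ 4) ^ h = x ^ h * x ^ h * x ^ (2 * h) := by ring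
            rw [this, mul_pow, mul_pow]
            ring
        _ ≤ C ^ h * ((N : ℝ) ^ (2 * h - 1) * (x ^ 4) ^ h) := by
            refine mul_le_mul_of_nonneg_right ?_ (by positivity)
            refine le_trans ?_ hCh
            rw [hC]
            linarith
    have h4 := h3.trans (h2.symm.le.trans h1)
    exact_mod_cast h4
  obtain ⟨n, hn1, hna, hnb⟩ := choose_n hh hcard0 hcardN (Nat.one_le_pow _ _ hR1)
    (Nat.one_le_two_pow (n := d)) hD1 (show 1 ≤ lam by omega) hyp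
  have hfin : A.card ^ (p + 1) ≤ 4 * (N ^ (2 * p + 1) * R ^ Δ) := by
    have hct := count_total hh Q E hEp hQ J M hJ (by omega) hMR L A hnot k q Δ R lam n d hd hR1
      hLd le_rfl (by omega) hRB
    refine count_card (S := SS A L (p + 1) 1) (S' := SS A L p 1) (n := n)
      (V := Δ * (k * M ^ k)) (Y := (p + 1) * (2 ^ L * (lam * 2 ^ d * R ^ Δ) +
        n * (R ^ Δ * 2 ^ d * bet L (a * (L / J + 1)) p * n ^ (h - 1)))) ?_ (SS_cheb A L p hA) ?_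
      hn1 ?_
    · refine hct.trans (le_of_eq ?_)
      rw [hN]
      ring
    · have := SS_one A L (p + 1) (by omega) hA
      rwa [Nat.add_sub_cancel] at this
    · rw [hD] at hna hnb
      have h1 : 8 * (Δ * (k * M ^ k)) * (p + 1) * N *
        (n * (R ^ Δ * 2 ^ d * bet L (a * (L / J + 1)) p * n ^ (h - 1))) ≤ n * A.card := by
        calc _ = n * (8 * (Δ * (k * M ^ k)) * (p + 1) * N *
            (R ^ Δ * 2 ^ d * bet L (a * (L / J + 1)) p * n ^ (h - 1))) := by ring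
          _ ≤ _ := Nat.mul_le_mul_left n hnb
      have h2 : 2 * (4 * (Δ * (k * M ^ k) * ((p + 1) * (2 ^ L * (lam * 2 ^ d * R ^ Δ) +
        n * (R ^ Δ * 2 ^ d * bet L (a * (L / J + 1)) p * n ^ (h - 1)))) * N)) =
          8 * (Δ * (k * M ^ k)) * (p + 1) * N ^ 2 * (lam * 2 ^ d * R ^ Δ) +
          8 * (Δ * (k * M ^ k)) * (p + 1) * N *
        (n * (R ^ Δ * 2 ^ d * bet L (a * (L / J + 1)) p * n ^ (h - 1))) := by
        rw [← hN]
        ring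
      omega
  -- contradiction
  have h1 : (C * (N : ℝ) ^ (2 - 1 / (h : ℝ) + ε)) ^ (p + 1) < (A.card : ℝ) ^ (p + 1) :=
    pow_lt_pow_left₀ hcon (by positivity) (by omega)
  have h2 : (A.card : ℝ) ^ (p + 1) ≤ 4 * ((N : ℝ) ^ (2 * p + 1) * ((R ^ Δ : ℕ) : ℝ)) := by
    exact_mod_cast hfin
  have h3 : (4 * c₁) * ((N : ℝ) ^ (2 * p + 1) * x ^ 4) ≤
      (C * (N : ℝ) ^ (2 - 1 / (h : ℝ) + ε)) ^ (p + 1) := by
    rw [mul_pow]
    have h4 : (4 * c₁) ≤ C ^ (p + 1) := by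
      refine le_trans ?_ (le_self_pow₀ hC1 (by omega))
      have h5 : 0 ≤ (D : ℝ) * (2 * D * lam) ^ (h - 1) * c₁ ^ h * c₂ ^ h * c₃ := by positivity
      linarith
    have h5 : (N : ℝ) ^ (2 * p + 1) * x ^ 4 ≤ ((N : ℝ) ^ (2 - 1 / (h : ℝ) + ε)) ^ (p + 1) := by
      rw [hx4, ← Real.rpow_natCast ((N : ℝ) ^ (2 - 1 / (h : ℝ) + ε)) (p + 1), ← Real.rpow_mul hN0.le,
        ← Real.rpow_natCast (N : ℝ) (2 * p + 1), ← Real.rpow_add hN0]
      refine Real.rpow_le_rpow_of_exponent_le hNR1 ?_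
      have h6 : ((p : ℝ) + 1) ≤ h := by exact_mod_cast hph
      have h7 : 1 / (h : ℝ) * (p + 1) ≤ 1 := by
        rw [div_mul_eq_mul_div, one_mul, div_le_one (by linarith)]
        exact h6
      have h8 : 0 ≤ (p : ℝ) * ε := by positivity
      push_cast
      nlinarith
    exact mul_le_mul h4 h5 (by positivity) (by positivity)
  have h4 : 4 * ((N : ℝ) ^ (2 * p + 1) * ((R ^ Δ : ℕ) : ℝ)) ≤
      (4 * c₁) * ((N : ℝ) ^ (2 * p + 1) * x ^ 4) := by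
    calc 4 * ((N : ℝ) ^ (2 * p + 1) * ((R ^ Δ : ℕ) : ℝ))
        ≤ 4 * ((N : ℝ) ^ (2 * p + 1) * (c₁ * x)) := by gcongr
      _ = (4 * c₁) * ((N : ℝ) ^ (2 * p + 1) * x) := by ring
      _ ≤ _ := by
          have h5 : x ≤ x ^ 4 := le_self_pow₀ hx1 (by norm_num)
          gcongr
  linarith

/-- **Matrix form.** If all but at most `h` rows of the pattern have at most `h` main entries (entries
in columns with at least two entries), then matrices of side `2 ^ L` avoiding it have at most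
`C (2 ^ L) ^ (2 - 1/h + ε)` entries. -/
theorem matrix2_theorem {a b h : ℕ} (hh : 1 ≤ h) (ha : 1 ≤ a) (Q : Fin a → Fin b → Prop)
    (E : Finset (Fin a)) (hEh : E.card ≤ h)
    (hQ : ∀ i ∉ E, (mainRow Q i).ncard ≤ h) (ε : ℝ) (hε : 0 < ε) :
    ∃ C : ℝ, 0 ≤ C ∧ ∀ (L : ℕ) (A : Finset (ℕ × ℕ)), A ⊆ range (2 ^ L) ×ˢ range (2 ^ L) →
      ¬ MContains Q A → (A.card : ℝ) ≤ C * ((2 : ℝ) ^ L) ^ (2 - 1 / (h : ℝ) + ε) := by
  classical
  rcases Nat.eq_zero_or_pos E.card with h0 | h1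
  · refine matrix2_aux (p := 0) hh Q {⟨0, ha⟩} (by simp) (by simpa using hh) ?_ ε hε
    intro j _
    rw [card_eq_zero.1 h0] at hQ
    exact hQ j (by simp)
  · obtain ⟨p, hp⟩ := Nat.exists_eq_add_of_le' h1
    exact matrix2_aux (p := p) hh Q E hp (by omega) hQ ε hε

end Pool.Agent.OTR
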