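import Pool.Agent.OTR.Defs

/-!
# [OTR-P1] order bookkeeping for the placement of the columns

PROOFS. `right_*`: `w / 2 ^ l % 2 = 0` and `y / 2 ^ l = w / 2 ^ l + 1` give
`y / 2 ^ (l+1) = w / 2 ^ (l+1)` and `w < y`. If `l < l'` then
`y / 2 ^ l' = w / 2 ^ l' < w / 2 ^ l' + 1 = y' / 2 ^ l'`, so `y < y'`. `left_*`: mirror image.
`placement`: let `j < j'`. If both are in `E`: `gapIdx E j < gapIdx E j' < E.card`, so the values are
`w _ < w _`. If `j ∉ E`, `j' ∈ E`: `gapIdx E j ≤ gapIdx E j' < E.card` and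
`y j < w (gapIdx E j) ≤ w (gapIdx E j')`. If `j ∈ E`, `j' ∉ E`: `gapIdx E j + 1 ≤ gapIdx E j'`, so
`w (gapIdx E j) ≤ w (gapIdx E j' - 1) < y j'` (`gapIdx E j' ≤ E.card`). If both are not in `E`: either
`gapIdx E j = gapIdx E j'` (`hsame`), or `gapIdx E j < gapIdx E j' ≤ E.card` and
`y j < w (gapIdx E j) ≤ w (gapIdx E j' - 1) < y j'`.
`blocks_card`: every block contains at most `q` of the elements of `S`
(`card_le_mul_card_image` with fibres `{l : l / q = c}` of size `≤ q`).
-/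

namespace Pool.Agent.OTR

open Finset

private theorem p1_lt {w y d : ℕ} (h : w / d < y / d) : w < y := by
  by_contra hc
  have := Nat.div_le_div_right (c := d) (not_lt.mp hc)
  omega

private theorem p1_succ (x l : ℕ) : x / 2 ^ (l + 1) = x / 2 ^ l / 2 := by
  rw [Nat.div_div_eq_div_mul, pow_succ]

private theorem p1_up {x y l l' : ℕ} (hl : l < l') (h : x / 2 ^ (l + 1) = y / 2 ^ (l + 1)) :
    x / 2 ^ l' = y / 2 ^ l' := by
  obtain ⟨k, rfl⟩ := Nat.exists_eq_add_of_lt hl
  rw [show l + k + 1 = (l + 1) + k by ring, pow_add, ← Nat.div_div_eq_div_mul,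
    ← Nat.div_div_eq_div_mul, h]

theorem right_lt (w y l : ℕ) (h0 : w / 2 ^ l % 2 = 0) (h1 : y / 2 ^ l = w / 2 ^ l + 1) : w < y :=
  p1_lt (d := 2 ^ l) (by omega)

theorem right_parent (w y l : ℕ) (h0 : w / 2 ^ l % 2 = 0) (h1 : y / 2 ^ l = w / 2 ^ l + 1) :
    y / 2 ^ (l + 1) = w / 2 ^ (l + 1) := by
  rw [p1_succ, p1_succ, h1]
  omega

theorem right_order (w y y' l l' : ℕ) (hl : l < l') (h0 : w / 2 ^ l % 2 = 0)
    (h1 : y / 2 ^ l = w / 2 ^ l + 1) (h1' : y' / 2 ^ l' = w / 2 ^ l' + 1) : y < y' := by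
  have h2 := p1_up hl (right_parent w y l h0 h1)
  exact p1_lt (d := 2 ^ l') (by omega)

theorem gap_lt (w w' y l : ℕ) (h0 : w / 2 ^ l % 2 = 0) (h1 : y / 2 ^ l = w / 2 ^ l + 1)
    (h2 : w / 2 ^ (l + 1) < w' / 2 ^ (l + 1)) : y < w' := by
  have h3 := right_parent w y l h0 h1
  exact p1_lt (d := 2 ^ (l + 1)) (by omega)

theorem left_lt (w y l : ℕ) (h1 : y / 2 ^ l + 1 = w / 2 ^ l) : y < w :=
  p1_lt (d := 2 ^ l) (by omega)

theorem left_order (w y y' l l' : ℕ) (hl : l < l') (h0 : w / 2 ^ l % 2 = 1)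
    (h1 : y / 2 ^ l + 1 = w / 2 ^ l) (h1' : y' / 2 ^ l' + 1 = w / 2 ^ l') : y' < y := by
  have h3 : y / 2 ^ (l + 1) = w / 2 ^ (l + 1) := by
    rw [p1_succ, p1_succ]
    omega
  have h2 := p1_up hl h3
  exact p1_lt (d := 2 ^ l') (by omega)

theorem placement {b : ℕ} (E : Finset (Fin b)) (w : ℕ → ℕ)
    (hw : ∀ i j, i < j → j < E.card → w i < w j) (y : Fin b → ℕ)
    (hlt : ∀ j ∉ E, gapIdx E j < E.card → y j < w (gapIdx E j))
    (hgt : ∀ j ∉ E, 1 ≤ gapIdx E j → w (gapIdx E j - 1) < y j)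
    (hsame : ∀ j ∉ E, ∀ j' ∉ E, j < j' → gapIdx E j = gapIdx E j' → y j < y j') :
    StrictMono (fun j => if j ∈ E then w (gapIdx E j) else y j) := by
  have hle : ∀ j, gapIdx E j ≤ E.card := fun j => card_le_card (filter_subset _ _)
  have hmono : ∀ j j', j < j' → gapIdx E j ≤ gapIdx E j' := by
    intro j j' h
    apply card_le_card
    intro e he
    rw [mem_filter] at he ⊢
    exact ⟨he.1, he.2.trans h⟩
  have hE : ∀ j j', j < j' → j ∈ E → gapIdx E j < gapIdx E j' := by
    intro j j' h hj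
    apply card_lt_card
    rw [ssubset_iff_of_subset]
    · exact ⟨j, mem_filter.mpr ⟨hj, h⟩, fun h1 => lt_irrefl _ (mem_filter.mp h1).2⟩
    · intro e he
      rw [mem_filter] at he ⊢
      exact ⟨he.1, he.2.trans h⟩
  have hE' : ∀ j, j ∈ E → gapIdx E j < E.card := by
    intro j hj
    apply card_lt_card
    rw [ssubset_iff_of_subset (filter_subset _ _)]
    exact ⟨j, hj, fun h1 => lt_irrefl _ (mem_filter.mp h1).2⟩
  have hwle : ∀ i j, i ≤ j → j < E.card → w i ≤ w j := by
    intro i j hij hj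
    rcases eq_or_lt_of_le hij with h | h
    · rw [h]
    · exact (hw i j h hj).le
  intro j j' hjj
  show (if j ∈ E then w (gapIdx E j) else y j) < (if j' ∈ E then w (gapIdx E j') else y j')
  by_cases h1 : j ∈ E
  · by_cases h2 : j' ∈ E
    · rw [if_pos h1, if_pos h2]
      exact hw _ _ (hE _ _ hjj h1) (hE' _ h2)
    · rw [if_pos h1, if_neg h2]
      have h3 := hE _ _ hjj h1
      have h4 := hle j'
      exact lt_of_le_of_lt (hwle _ _ (by omega) (by omega)) (hgt j' h2 (by omega))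
  · by_cases h2 : j' ∈ E
    · rw [if_neg h1, if_pos h2]
      have h3 := hmono _ _ hjj
      have h4 := hE' _ h2
      exact lt_of_lt_of_le (hlt j h1 (by omega)) (hwle _ _ h3 h4)
    · rw [if_neg h1, if_neg h2]
      rcases eq_or_lt_of_le (hmono _ _ hjj) with h3 | h3
      · exact hsame j h1 j' h2 hjj h3
      · have h4 := hle j'
        exact lt_trans (lt_of_lt_of_le (hlt j h1 (by omega)) (hwle _ _ (by omega) (by omega)))
          (hgt j' h2 (by omega))

theorem blocks_card (S : Finset ℕ) (b q : ℕ) (hq : 1 ≤ q) (h : b * q ≤ S.card) :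
    b ≤ (S.image (fun l => l / q)).card := by
  have h1 : S.card ≤ q * (S.image (fun l => l / q)).card := by
    apply card_le_mul_card_image
    intro c _
    have h2 : S.filter (fun l => l / q = c) ⊆ Ico (c * q) (c * q + q) := by
      intro l hl
      rw [mem_filter] at hl
      rw [mem_Ico]
      have h3 := Nat.div_add_mod l q
      have h4 := Nat.mod_lt l (show 0 < q by omega)
      rw [hl.2, mul_comm] at h3
      have h6 := Nat.zero_le (l % q)
      constructor
      · linarith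
      · linarith
    refine (card_le_card h2).trans ?_
    rw [Nat.card_Ico]
    omega
  have h2 : b * q ≤ (S.image (fun l => l / q)).card * q := by
    rw [mul_comm ((S.image (fun l => l / q)).card)]
    exact h.trans h1
  exact Nat.le_of_mul_le_mul_right h2 (by omega)

end Pool.Agent.OTR
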