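import Pool.Agent.OTR.V2

/-!
# [OTR-V3] few h-tuples of columns are bad

PROOF. Two counting facts for `T : Finset ℕ` and `W` ranging over `Fintype.piFinset (fun _ : Fin h => T)`:
(i) for `i : Fin h` and `S ⊆ T` with `S.card ≤ s`, at most `s * T.card ^ (h - 1)` tuples have `W i ∈ S`;
(ii) for `i ≠ j` and a relation such that for every `t ∈ T` at most `s` elements `x ∈ T` satisfy `r x t`, at
most `s * T.card ^ (h - 1)` tuples have `r (W i) (W j)`. (Both: the tuple is determined by its values outside
`i`, `T.card ^ (h - 1)` possibilities, and its value at `i`, at most `s` possibilities. E.g. fibre over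
`Function.update W i 0` or use the equivalence `Fin.insertNthEquiv`/`Fin.consEquiv`; or
`Fintype.piFinset` with the `i`-th factor replaced by `S`, for (ii) sum over the value `t` at `j`.)
A bad `W` satisfies one of: `W i = W j` for some `i ≠ j` (at most `h ^ 2 * (1 * T.card ^ (h-1))`);
`(visR L T (W i)).card ≤ K` for some `i` (at most `h * BB L K * T.card ^ (h-1)` by `card_visR_le`);
`(visL L T (W i)).card ≤ K` for some `i` (the same); `W i < W j` and `(gapR L T (W i) (W j)).card ≤ K` for
some `i ≠ j` (at most `h ^ 2 * (L * BB L K) * T.card ^ (h-1)` by `card_gapR_le`).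
-/

namespace Pool.Agent.OTR

open Finset

open Classical in
theorem v3_fib (h : ℕ) (T : Finset ℕ) (i : Fin h) (P : (Fin h → ℕ) → Prop) [DecidablePred P] (s : ℕ)
    (hs : ∀ W ∈ Fintype.piFinset (fun _ : Fin h => T),
      (T.filter (fun x => P (Function.update W i x))).card ≤ s) :
    ((Fintype.piFinset (fun _ : Fin h => T)).filter P).card ≤ s * T.card ^ (h - 1) := by
  have hc : (Fintype.piFinset (fun _ : {x : Fin h // x ≠ i} => T)).card = T.card ^ (h - 1) := by
    rw [Fintype.card_piFinset, prod_const, card_univ]
    congr 1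
    rw [Fintype.card_subtype_compl, Fintype.card_fin, Fintype.card_unique]
  rw [← hc]
  refine card_le_mul_card_image_of_maps_to (f := fun (W : Fin h → ℕ) (x : {x : Fin h // x ≠ i}) => W x)
    ?_ s ?_
  · intro W hW
    rw [mem_filter, Fintype.mem_piFinset] at hW
    rw [Fintype.mem_piFinset]
    exact fun x => hW.1 x
  · intro b _
    rcases Finset.eq_empty_or_nonempty (((Fintype.piFinset (fun _ : Fin h => T)).filter P).filter
      (fun W => (fun x : {x : Fin h // x ≠ i} => W x) = b)) with h0 | ⟨W0, hW0⟩
    · rw [h0, card_empty]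
      exact Nat.zero_le _
    · rw [mem_filter, mem_filter] at hW0
      have hup : ∀ W ∈ ((Fintype.piFinset (fun _ : Fin h => T)).filter P).filter
          (fun W => (fun x : {x : Fin h // x ≠ i} => W x) = b), Function.update W0 i (W i) = W := by
        intro W hW
        rw [mem_filter] at hW
        funext x
        by_cases hx : x = i
        · rw [hx, Function.update_self]
        · rw [Function.update_of_ne hx]
          have h1 := congrFun (hW0.2.trans hW.2.symm) ⟨x, hx⟩
          exact h1
      refine (card_le_card_of_injOn (fun W => W i) ?_ ?_).trans (hs W0 hW0.1.1)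
      · intro W hW
        rw [mem_coe] at hW
        have h1 := hup W hW
        rw [mem_filter, mem_filter, Fintype.mem_piFinset] at hW
        rw [mem_coe, mem_filter, h1]
        exact ⟨hW.1.1 i, hW.1.2⟩
      · intro W hW W' hW' he
        rw [mem_coe] at hW hW'
        have he' : W i = W' i := he
        rw [← hup W hW, ← hup W' hW', he']

open Classical in
theorem card_bad_le (L K h : ℕ) (hh : 1 ≤ h) (T : Finset ℕ) (hT : T ⊆ range (2 ^ L)) :
    ((Fintype.piFinset (fun _ : Fin h => T)).filter
      (fun W => ¬ (Function.Injective W ∧ GoodT L K T (univ.image W)))).card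
      ≤ (h ^ 2 + 2 * h * BB L K + h ^ 2 * (L * BB L K)) * T.card ^ (h - 1) := by
  set Pp := Fintype.piFinset (fun _ : Fin h => T) with hPp
  set t := T.card ^ (h - 1) with ht
  -- the four kinds of bad tuples
  set B1 : Fin h × Fin h → Finset (Fin h → ℕ) := fun q => Pp.filter (fun W => q.1 ≠ q.2 ∧ W q.1 = W q.2)
    with hB1
  set B2 : Fin h → Finset (Fin h → ℕ) := fun i => Pp.filter (fun W => (visR L T (W i)).card ≤ K) with hB2
  set B3 : Fin h → Finset (Fin h → ℕ) := fun i => Pp.filter (fun W => (visL L T (W i)).card ≤ K) with hB3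
  set B4 : Fin h × Fin h → Finset (Fin h → ℕ) := fun q => Pp.filter (fun W => q.1 ≠ q.2 ∧
    (W q.1 < W q.2 ∧ (gapR L T (W q.1) (W q.2)).card ≤ K)) with hB4
  have hsub : Pp.filter (fun W => ¬ (Function.Injective W ∧ GoodT L K T (univ.image W))) ⊆
      ((univ.biUnion B1 ∪ univ.biUnion B2) ∪ univ.biUnion B3) ∪ univ.biUnion B4 := by
    intro W hW
    rw [mem_filter] at hW
    by_contra hc
    simp only [mem_union, mem_biUnion, mem_univ, true_and, not_or, not_exists, hB1, hB2, hB3, hB4,
      mem_filter, hW.1] at hc
    obtain ⟨⟨⟨h1, h2⟩, h3⟩, h4⟩ := hc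
    apply hW.2
    refine ⟨?_, ?_, ?_, ?_⟩
    · intro i j hij
      by_contra hne
      exact h1 (i, j) ⟨hne, hij⟩
    · intro w hw
      obtain ⟨i, -, rfl⟩ := mem_image.1 hw
      exact not_le.1 (h2 i)
    · intro w hw
      obtain ⟨i, -, rfl⟩ := mem_image.1 hw
      exact not_le.1 (h3 i)
    · intro w hw w' hw' hlt
      obtain ⟨i, -, rfl⟩ := mem_image.1 hw
      obtain ⟨j, -, rfl⟩ := mem_image.1 hw'
      by_contra hle
      push Not at hle
      refine h4 (i, j) ⟨?_, hlt, hle⟩
      intro he
      have he' : i = j := he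
      rw [he'] at hlt
      exact lt_irrefl _ hlt
  have c1 : ∀ q, (B1 q).card ≤ 1 * t := by
    intro q
    by_cases hq : q.1 = q.2
    · have h0 : B1 q = ∅ := by
        rw [hB1, filter_eq_empty_iff]
        rintro W - ⟨h1, -⟩
        exact h1 hq
      rw [h0, card_empty]
      exact Nat.zero_le _
    · refine (card_le_card (t := Pp.filter (fun W => W q.1 = W q.2)) ?_).trans
        (v3_fib h T q.1 (fun W => W q.1 = W q.2) 1 ?_)
      · intro W hW
        simp only [hB1, mem_filter] at hW
        exact mem_filter.2 ⟨hW.1, hW.2.2⟩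
      · intro W _
        refine (card_le_card (t := {W q.2}) ?_).trans (card_singleton _).le
        intro x hx
        rw [mem_filter, Function.update_self, Function.update_of_ne (Ne.symm hq)] at hx
        rw [mem_singleton]
        exact hx.2
  have c2 : ∀ i, (B2 i).card ≤ BB L K * t := by
    intro i
    refine v3_fib h T i (fun W => (visR L T (W i)).card ≤ K) _ ?_
    intro W _
    refine le_trans (card_le_card ?_) (card_visR_le L K T hT)
    intro x hx
    rw [mem_filter, Function.update_self] at hx
    rw [mem_filter]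
    exact hx
  have c3 : ∀ i, (B3 i).card ≤ BB L K * t := by
    intro i
    refine v3_fib h T i (fun W => (visL L T (W i)).card ≤ K) _ ?_
    intro W _
    refine le_trans (card_le_card ?_) (card_visL_le L K T hT)
    intro x hx
    rw [mem_filter, Function.update_self] at hx
    rw [mem_filter]
    exact hx
  have c4 : ∀ q, (B4 q).card ≤ L * BB L K * t := by
    intro q
    by_cases hq : q.1 = q.2
    · have h0 : B4 q = ∅ := by
        rw [hB4, filter_eq_empty_iff]
        rintro W - ⟨h1, -⟩
        exact h1 hq
      rw [h0, card_empty]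
      exact Nat.zero_le _
    · refine (card_le_card (t := Pp.filter (fun W => W q.1 < W q.2 ∧
        (gapR L T (W q.1) (W q.2)).card ≤ K)) ?_).trans
        (v3_fib h T q.1 (fun W => W q.1 < W q.2 ∧ (gapR L T (W q.1) (W q.2)).card ≤ K) (L * BB L K) ?_)
      · intro W hW
        simp only [hB4, mem_filter] at hW
        exact mem_filter.2 ⟨hW.1, hW.2.2⟩
      · intro W hW
        rw [Fintype.mem_piFinset] at hW
        refine le_trans (card_le_card ?_) (card_gapR_le L K T hT (W q.2) (hW q.2))
        intro x hx
        rw [mem_filter, Function.update_self, Function.update_of_ne (Ne.symm hq)] at hx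
        rw [mem_filter]
        exact hx
  have s1 : (univ.biUnion B1).card ≤ h ^ 2 * (1 * t) := by
    refine card_biUnion_le.trans ((sum_le_card_nsmul univ _ _ fun q _ => c1 q).trans (le_of_eq ?_))
    rw [card_univ, Fintype.card_prod, Fintype.card_fin, smul_eq_mul, sq]
  have s2 : (univ.biUnion B2).card ≤ h * (BB L K * t) := by
    refine card_biUnion_le.trans ((sum_le_card_nsmul univ _ _ fun q _ => c2 q).trans (le_of_eq ?_))
    rw [card_univ, Fintype.card_fin, smul_eq_mul]
  have s3 : (univ.biUnion B3).card ≤ h * (BB L K * t) := by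
    refine card_biUnion_le.trans ((sum_le_card_nsmul univ _ _ fun q _ => c3 q).trans (le_of_eq ?_))
    rw [card_univ, Fintype.card_fin, smul_eq_mul]
  have s4 : (univ.biUnion B4).card ≤ h ^ 2 * (L * BB L K * t) := by
    refine card_biUnion_le.trans ((sum_le_card_nsmul univ _ _ fun q _ => c4 q).trans (le_of_eq ?_))
    rw [card_univ, Fintype.card_prod, Fintype.card_fin, smul_eq_mul, sq]
  have u1 := card_union_le ((univ.biUnion B1 ∪ univ.biUnion B2) ∪ univ.biUnion B3) (univ.biUnion B4)
  have u2 := card_union_le (univ.biUnion B1 ∪ univ.biUnion B2) (univ.biUnion B3)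
  have u3 := card_union_le (univ.biUnion B1) (univ.biUnion B2)
  refine (card_le_card hsub).trans ?_
  calc (((univ.biUnion B1 ∪ univ.biUnion B2) ∪ univ.biUnion B3) ∪ univ.biUnion B4).card
      ≤ h ^ 2 * (1 * t) + h * (BB L K * t) + h * (BB L K * t) + h ^ 2 * (L * BB L K * t) := by omega
    _ = (h ^ 2 + 2 * h * BB L K + h ^ 2 * (L * BB L K)) * t := by ring

end Pool.Agent.OTR
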