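import Pool.Agent.OTR.Defs

/-!
# [OTR-XA] power sums

`SS A L h j = ∑_π |ncol π| ^ j`, `π` over all functions `Fin h → range (2 ^ L)`.
PROOFS. `SS_zero`: `Fintype.card_piFinset`.
`SS_step` (Chebyshev): `MonovaryOn.sum_mul_sum_le_card_mul_sum` for `f = |ncol|` and `g = |ncol| ^ j`
(`g` is a monotone function of `f`), and `SS A L h 0 = card`.
`SS_one`: double counting: `SS A L h 1 = #{(π, w) : w < 2 ^ L, ∀ i, (π i, w) ∈ A} = ∑_{w < 2 ^ L} d(w) ^ h`,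
`d(w) = #{u < 2 ^ L : (u, w) ∈ A}`; `∑_w d(w) = A.card` because `hA`; the power mean inequality
`Real.pow_sum_div_card_le_sum_pow` or `inner_le_nnorm_mul_nnorm`-type lemma:
`(∑_w d(w)) ^ h ≤ (2 ^ L) ^ (h-1) * ∑_w d(w) ^ h`.
`SS_lower`: from `SS_one`, `hD`: `D * (2 ^ L) ^ h ≤ SS 1` (cancel `(2 ^ L) ^ (h-1)`), i.e.
`D * SS 0 ≤ SS 1`; then by `SS_step`, `SS 0 * SS (j+1) ≥ SS 1 * SS j ≥ D * SS 0 * SS j`, cancel `SS 0 > 0`.
`SS_pow`: induction on `j` from `SS_lower`.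
-/

namespace Pool.Agent.OTR

open Finset

theorem SS_zero (A : Finset (ℕ × ℕ)) (L h : ℕ) : SS A L h 0 = (2 ^ L) ^ h := by
  unfold SS
  simp only [pow_zero, sum_const, smul_eq_mul, mul_one]
  rw [Fintype.card_piFinset, prod_const, card_univ, Fintype.card_fin, card_range]

theorem SS_step (A : Finset (ℕ × ℕ)) (L h j : ℕ) :
    SS A L h 1 * SS A L h j ≤ SS A L h 0 * SS A L h (j + 1) := by
  have hmono : MonovaryOn (fun π : Fin h → ℕ => (ncol A (2 ^ L) (univ.image π)).card)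
      (fun π : Fin h → ℕ => (ncol A (2 ^ L) (univ.image π)).card ^ j)
      (Fintype.piFinset (fun _ : Fin h => range (2 ^ L)) : Finset (Fin h → ℕ)) := by
    intro a _ b _ hab
    by_contra hc
    push Not at hc
    exact absurd (Nat.pow_le_pow_left hc.le j) (not_le.2 hab)
  have h1 := hmono.sum_mul_sum_le_card_mul_sum
  have h0 : SS A L h 0 = (Fintype.piFinset (fun _ : Fin h => range (2 ^ L)) : Finset (Fin h → ℕ)).card := by
    unfold SS
    simp only [pow_zero, sum_const, smul_eq_mul, mul_one]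
  rw [h0]
  unfold SS
  simp only [pow_one]
  refine h1.trans (le_of_eq ?_)
  rw [Nat.cast_id]
  congr 1
  refine sum_congr rfl fun π _ => ?_
  rw [pow_succ, mul_comm]

/-- the number of rows of the column `w` -/
def xaD (A : Finset (ℕ × ℕ)) (N w : ℕ) : ℕ := ((range N).filter (fun u => (u, w) ∈ A)).card

theorem xa_card (A : Finset (ℕ × ℕ)) (N : ℕ) (hA : A ⊆ range N ×ˢ range N) :
    A.card = ∑ w ∈ range N, xaD A N w := by
  have h1 : A.card = ∑ w ∈ range N, (A.filter (fun q => q.2 = w)).card :=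
    card_eq_sum_card_fiberwise fun q hq => (mem_product.1 (hA hq)).2
  rw [h1]
  refine sum_congr rfl fun w _ => ?_
  unfold xaD
  refine card_bij (fun q _ => q.1) ?_ ?_ ?_
  · intro q hq
    rw [mem_filter] at hq
    rw [mem_filter]
    refine ⟨(mem_product.1 (hA hq.1)).1, ?_⟩
    rw [← hq.2]
    exact hq.1
  · intro q hq q' hq' he
    rw [mem_filter] at hq hq'
    exact Prod.ext he (hq.2.trans hq'.2.symm)
  · intro u hu
    rw [mem_filter] at hu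
    exact ⟨(u, w), mem_filter.2 ⟨hu.2, rfl⟩, rfl⟩

theorem xa_one (A : Finset (ℕ × ℕ)) (L h : ℕ) : SS A L h 1 = ∑ w ∈ range (2 ^ L), xaD A (2 ^ L) w ^ h := by
  unfold SS ncol
  simp only [pow_one, card_filter]
  rw [sum_comm]
  refine sum_congr rfl fun w _ => ?_
  rw [← card_filter]
  have h1 : ∀ s : Finset (Fin h → ℕ), (∀ π, π ∈ s ↔ π ∈ Fintype.piFinset (fun _ : Fin h => range (2 ^ L)) ∧
      ∀ u ∈ univ.image π, (u, w) ∈ A) →
      s = Fintype.piFinset (fun _ : Fin h => (range (2 ^ L)).filter (fun u => (u, w) ∈ A)) := by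
    intro s hs
    ext π
    rw [hs, Fintype.mem_piFinset, Fintype.mem_piFinset]
    constructor
    · rintro ⟨h2, h3⟩ i
      exact mem_filter.2 ⟨h2 i, h3 _ (mem_image_of_mem _ (mem_univ i))⟩
    · intro h2
      refine ⟨fun i => (mem_filter.1 (h2 i)).1, fun u hu => ?_⟩
      obtain ⟨i, -, rfl⟩ := mem_image.1 hu
      exact (mem_filter.1 (h2 i)).2
  rw [h1 _ (fun π => mem_filter), Fintype.card_piFinset, prod_const, card_univ, Fintype.card_fin]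
  rfl

theorem SS_one (A : Finset (ℕ × ℕ)) (L h : ℕ) (hh : 1 ≤ h)
    (hA : A ⊆ range (2 ^ L) ×ˢ range (2 ^ L)) :
    A.card ^ h ≤ (2 ^ L) ^ (h - 1) * SS A L h 1 := by
  rw [xa_one, xa_card A (2 ^ L) hA]
  obtain ⟨m, rfl⟩ := Nat.exists_eq_add_of_le' hh
  have h1 := pow_sum_le_card_mul_sum_pow (s := range (2 ^ L)) (f := fun w => xaD A (2 ^ L) w)
    (fun i _ => Nat.zero_le _) m
  rw [card_range] at h1
  rw [Nat.add_sub_cancel]
  exact h1

theorem SS_lower (A : Finset (ℕ × ℕ)) (L h : ℕ) (hh : 1 ≤ h)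
    (hA : A ⊆ range (2 ^ L) ×ˢ range (2 ^ L)) (D : ℝ) (hD0 : 0 < D)
    (hD : D * ((2 : ℝ) ^ L) ^ (2 * h - 1) ≤ (A.card : ℝ) ^ h) (j : ℕ) :
    D * (SS A L h j : ℝ) ≤ (SS A L h (j + 1) : ℝ) := by
  have hN : (0 : ℝ) < (2 : ℝ) ^ L := by positivity
  have h1 : (A.card : ℝ) ^ h ≤ ((2 : ℝ) ^ L) ^ (h - 1) * (SS A L h 1 : ℝ) := by
    exact_mod_cast SS_one A L h hh hA
  have h2 : D * ((2 : ℝ) ^ L) ^ h ≤ (SS A L h 1 : ℝ) := by
    have h3 : D * ((2 : ℝ) ^ L) ^ (2 * h - 1) = ((2 : ℝ) ^ L) ^ (h - 1) * (D * ((2 : ℝ) ^ L) ^ h) := by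
      have h4 : 2 * h - 1 = (h - 1) + h := by omega
      rw [h4, pow_add]
      ring
    rw [h3] at hD
    exact le_of_mul_le_mul_left (hD.trans h1) (by positivity)
  have h0 : (SS A L h 0 : ℝ) = ((2 : ℝ) ^ L) ^ h := by
    rw [SS_zero]
    push_cast
    ring
  have h3 : (SS A L h 1 : ℝ) * (SS A L h j : ℝ) ≤ (SS A L h 0 : ℝ) * (SS A L h (j + 1) : ℝ) := by
    exact_mod_cast SS_step A L h j
  rw [h0] at h3
  have h4 : (0 : ℝ) < ((2 : ℝ) ^ L) ^ h := by positivity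
  have h5 : D * ((2 : ℝ) ^ L) ^ h * (SS A L h j : ℝ) ≤ (SS A L h 1 : ℝ) * (SS A L h j : ℝ) :=
    mul_le_mul_of_nonneg_right h2 (Nat.cast_nonneg _)
  have h6 : ((2 : ℝ) ^ L) ^ h * (D * (SS A L h j : ℝ)) ≤ ((2 : ℝ) ^ L) ^ h * (SS A L h (j + 1) : ℝ) := by
    linarith
  exact le_of_mul_le_mul_left h6 h4

theorem SS_pow (A : Finset (ℕ × ℕ)) (L h : ℕ) (hh : 1 ≤ h)
    (hA : A ⊆ range (2 ^ L) ×ˢ range (2 ^ L)) (D : ℝ) (hD0 : 0 < D)
    (hD : D * ((2 : ℝ) ^ L) ^ (2 * h - 1) ≤ (A.card : ℝ) ^ h) (j : ℕ) :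
    D ^ j * ((2 : ℝ) ^ L) ^ h ≤ (SS A L h j : ℝ) := by
  induction j with
  | zero =>
    rw [SS_zero, pow_zero, one_mul]
    push_cast
    exact le_rfl
  | succ j ih =>
    have h1 := SS_lower A L h hh hA D hD0 hD j
    calc D ^ (j + 1) * ((2 : ℝ) ^ L) ^ h = D * (D ^ j * ((2 : ℝ) ^ L) ^ h) := by ring
      _ ≤ D * (SS A L h j : ℝ) := mul_le_mul_of_nonneg_left ih hD0.le
      _ ≤ _ := h1

end Pool.Agent.OTR
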