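import Pool.Agent.OTR.XA

/-!
# Definitions for the non-leaf h-index theorem

`C` is a set of columns, `y` a column; dyadic blocks of level `w` are the sets with constant
`z / 2 ^ w`.
-/

namespace Pool.Agent.OTR

open Finset

/-- The number of elements of `C` in the dyadic block of level `w` containing `y`. -/
def gg (C : Finset ℕ) (w y : ℕ) : ℕ := (C.filter (fun z => z / 2 ^ w = y / 2 ^ w)).card

/-- The levels `t` in the window `[w₀, w₀ + d)` at which `y` is in a left child and `C` meets the
right sibling block. -/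
def TL (C : Finset ℕ) (w₀ d y : ℕ) : Finset ℕ :=
  (Ico w₀ (w₀ + d)).filter (fun t => y / 2 ^ t % 2 = 0 ∧ ∃ z ∈ C, z / 2 ^ t = y / 2 ^ t + 1)

/-- `T` meets all the `M` consecutive intervals `[o + u l, o + (u + 1) l)`. -/
def Hits (T : Finset ℕ) (o l M : ℕ) : Prop :=
  ∀ u < M, ∃ t ∈ T, o + u * l ≤ t ∧ t < o + (u + 1) * l

open Classical in
/-- The elements `y` of `C` whose block of level `w₀` contains at most `G₀` elements of `C`, whose
block of level `w₀ + d` contains at most `G₁` elements of `C`, and for which `TL C w₀ d y` meets the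
`M` intervals. -/
noncomputable def Y1 (C : Finset ℕ) (w₀ d o l M G₀ G₁ : ℕ) : Finset ℕ :=
  C.filter (fun y => gg C w₀ y ≤ G₀ ∧ gg C (w₀ + d) y ≤ G₁ ∧ Hits (TL C w₀ d y) o l M)

open Classical in
/-- The rows that meet all columns `η i` and see the `M` intervals of levels from `y`. -/
noncomputable def Tset (A : Finset (ℕ × ℕ)) (L w₀ d o l M y : ℕ) {h : ℕ} (η : Fin h → ℕ) :
    Finset ℕ :=
  (nrow A (2 ^ L) (univ.image η)).filter
    (fun x => Hits (TL (ncol A (2 ^ L) {x}) w₀ d y) o l M)

open Classical in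
/-- The `r` in `T` that are equal to some `ρ' l`, or see few levels of `T`, or see few levels of `T`
below a larger `ρ' l`. -/
noncomputable def Bk (L K : ℕ) (T : Finset ℕ) {p : ℕ} (ρ' : Fin p → ℕ) : Finset ℕ :=
  T.filter (fun r => (∃ l, ρ' l = r) ∨ (visR L T r).card ≤ K ∨ (visL L T r).card ≤ K ∨
    ∃ l, r < ρ' l ∧ (gapR L T r (ρ' l)).card ≤ K)

/-- `β'`, the bound for the size of `Bk`. -/
def bet (L K p : ℕ) : ℕ := p + 2 * BB L K + p * (L * BB L K)

end Pool.Agent.OTR
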