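import Pool.Agent.OTR.Z0

/-!
# [OTR-Z1] a large set of levels fills one block at some resolution

PROOF of `zoom` (induction on `k`, `w₀` and `T` arbitrary). `k = 0`: `q < T.card` but `T ⊆ Ico w₀ (w₀ + q)`,
impossible. Step `k → k + 1`: the window `[w₀, w₀ + M ^ (k+1) q)` is the union of the `M` intervals
`I_u = [w₀ + u M ^ k q, w₀ + (u+1) M ^ k q)`. If `T` meets all of them, take `j = 0`, `c = 0`. Otherwise `T`
misses some `I_v`, so `T` is the union of the at most `M - 1` sets `T ∩ I_u`, `u ≠ v`, and one of these has
more than `(M-1) ^ k q` elements; induction hypothesis.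
-/

namespace Pool.Agent.OTR

open Finset

theorem Hits.mono {T T' : Finset ℕ} (h : T ⊆ T') {o l M : ℕ} (hT : Hits T o l M) :
    Hits T' o l M := by
  intro u hu
  obtain ⟨t, ht, h1⟩ := hT u hu
  exact ⟨t, h ht, h1⟩

theorem zoom (M k q : ℕ) (hM : 1 ≤ M) (w₀ : ℕ) (T : Finset ℕ)
    (hT : T ⊆ Ico w₀ (w₀ + M ^ k * q)) (hc : (M - 1) ^ k * q < T.card) :
    ∃ j < k, ∃ c < M ^ j, Hits T (w₀ + c * (M ^ (k - j) * q)) (M ^ (k - j - 1) * q) M := by
  induction k generalizing w₀ T with
  | zero =>
    exfalso
    have h1 := card_le_card hT
    rw [Nat.card_Ico] at h1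
    simp only [pow_zero, one_mul] at h1 hc
    omega
  | succ k ih =>
    set I : ℕ := M ^ k * q with hI
    by_cases hall : Hits T w₀ I M
    · refine ⟨0, Nat.succ_pos k, 0, by simp, ?_⟩
      have h1 : k + 1 - 0 - 1 = k := by omega
      rw [h1, zero_mul, add_zero]
      exact hall
    · unfold Hits at hall
      push Not at hall
      obtain ⟨v, hv, hv2⟩ := hall
      -- the block number of an element
      have hIpos : 0 < I := by
        rcases Nat.eq_zero_or_pos I with h0 | h0
        · exfalso
          have h1 := card_le_card hT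
          rw [Nat.card_Ico] at h1
          have h2 : M ^ (k + 1) * q = M * I := by rw [hI, pow_succ]; ring
          rw [h2, h0] at h1
          omega
        · exact h0
      have hTu : T ⊆ ((range M).erase v).biUnion (fun u => T.filter (fun t => w₀ + u * I ≤ t ∧
          t < w₀ + (u + 1) * I)) := by
        intro t ht
        have h1 := mem_Ico.1 (hT ht)
        have h2 : M ^ (k + 1) * q = M * I := by rw [hI, pow_succ]; ring
        rw [h2] at h1
        have h3 := Nat.div_add_mod (t - w₀) I
        have h4 := Nat.mod_lt (t - w₀) hIpos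
        have h5 : (t - w₀) / I < M := Nat.div_lt_of_lt_mul (by rw [mul_comm I M]; omega)
        set u := (t - w₀) / I with hu
        have h6 : w₀ + u * I ≤ t := by
          have : I * u = u * I := mul_comm _ _
          omega
        have h7 : t < w₀ + (u + 1) * I := by
          have : I * u = u * I := mul_comm _ _
          rw [add_mul, one_mul]
          omega
        rw [mem_biUnion]
        refine ⟨u, ?_, mem_filter.2 ⟨ht, h6, h7⟩⟩
        rw [mem_erase, mem_range]
        refine ⟨?_, h5⟩
        intro huv
        rw [huv] at h6 h7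
        exact absurd h7 (not_lt.2 (hv2 t ht h6))
      obtain ⟨u, hu, hcu⟩ : ∃ u ∈ (range M).erase v, (M - 1) ^ k * q <
          (T.filter (fun t => w₀ + u * I ≤ t ∧ t < w₀ + (u + 1) * I)).card := by
        by_contra hcon
        push Not at hcon
        have h1 := (card_le_card hTu).trans (card_biUnion_le_card_mul _ _ _ hcon)
        rw [card_erase_of_mem (mem_range.2 hv), card_range] at h1
        have h2 : (M - 1) ^ (k + 1) * q = (M - 1) * ((M - 1) ^ k * q) := by rw [pow_succ]; ring
        omega
      have huM := mem_range.1 (mem_of_mem_erase hu)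
      obtain ⟨j, hj, c, hcj, hhit⟩ := ih (w₀ + u * I)
        (T.filter (fun t => w₀ + u * I ≤ t ∧ t < w₀ + (u + 1) * I)) (by
          intro t ht
          rw [mem_filter] at ht
          rw [mem_Ico]
          refine ⟨ht.2.1, ?_⟩
          have : (u + 1) * I = u * I + I := by ring
          omega) hcu
      refine ⟨j + 1, by omega, u * M ^ j + c, ?_, ?_⟩
      · calc u * M ^ j + c < u * M ^ j + M ^ j := by omega
          _ = (u + 1) * M ^ j := by ring
          _ ≤ M * M ^ j := Nat.mul_le_mul_right _ (by omega)
          _ = M ^ (j + 1) := by rw [pow_succ]; ring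
      · have h1 : k + 1 - (j + 1) = k - j := by omega
        rw [h1]
        have h2 : w₀ + (u * M ^ j + c) * (M ^ (k - j) * q) =
            w₀ + u * I + c * (M ^ (k - j) * q) := by
          have h3 : M ^ k = M ^ j * M ^ (k - j) := by
            rw [← pow_add]
            congr 1
            omega
          rw [hI, h3]
          ring
        rw [h2]
        exact hhit.mono (filter_subset _ _)

end Pool.Agent.OTR
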